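import Pool.Agent.S50X.Schatten

open MeasureTheory Set Filter Topology Module
open scoped ENNReal Matrix

namespace Pool.Agent.S50X

section Direct

variable {E F : Type*} [NormedAddCommGroup E] [InnerProductSpace ℂ E] [CompleteSpace E]
  [NormedAddCommGroup F] [InnerProductSpace ℂ F] [CompleteSpace F]

/-- The Hilbert sum of countably many copies of `E`. -/
abbrev L2 (E : Type*) [NormedAddCommGroup E] [InnerProductSpace ℂ E] : Type _ :=
  lp (fun _ : ℕ => E) 2

theorem two_toReal_pos : 0 < ((2 : ℝ≥0∞)).toReal := by norm_num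

omit [CompleteSpace E] [CompleteSpace F] in
theorem memℓp_dsum (A : ℕ → (E →L[ℂ] F)) (M : ℝ) (hA : ∀ i, ‖A i‖ ≤ M) (f : L2 E) :
    Memℓp (fun i => A i (f i)) 2 := by
  have hM : 0 ≤ M := (norm_nonneg _).trans (hA 0)
  refine memℓp_gen ?_
  have h1 : Summable fun i => ‖f i‖ ^ ((2 : ℝ≥0∞)).toReal :=
    (lp.memℓp f).summable two_toReal_pos
  refine Summable.of_nonneg_of_le (fun i => by positivity) (fun i => ?_)
    (h1.mul_left (M ^ ((2 : ℝ≥0∞)).toReal))
  rw [← Real.mul_rpow hM (norm_nonneg _)]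
  refine Real.rpow_le_rpow (norm_nonneg _) ?_ two_toReal_pos.le
  exact ((A i).le_opNorm _).trans (mul_le_mul_of_nonneg_right (hA i) (norm_nonneg _))

/-- The direct sum of a bounded family of operators. -/
noncomputable def dsum (A : ℕ → (E →L[ℂ] F)) (M : ℝ) (hA : ∀ i, ‖A i‖ ≤ M) :
    L2 E →L[ℂ] L2 F :=
  LinearMap.mkContinuous
    { toFun := fun f => (⟨fun i => A i (f i), memℓp_dsum A M hA f⟩ : L2 F)
      map_add' := fun f g => by
        ext i
        exact map_add (A i) (f i) (g i)
      map_smul' := fun c f => by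
        ext i
        exact map_smul (A i) c (f i) } M (fun f => by
      have hM : 0 ≤ M := (norm_nonneg _).trans (hA 0)
      refine lp.norm_le_of_forall_sum_le two_toReal_pos (by positivity) fun s => ?_
      rw [Real.mul_rpow hM (norm_nonneg _)]
      calc ∑ i ∈ s, ‖A i (f i)‖ ^ ((2 : ℝ≥0∞)).toReal
          ≤ ∑ i ∈ s, M ^ ((2 : ℝ≥0∞)).toReal * ‖f i‖ ^ ((2 : ℝ≥0∞)).toReal := by
            refine Finset.sum_le_sum fun i _ => ?_
            rw [← Real.mul_rpow hM (norm_nonneg _)]
            refine Real.rpow_le_rpow (norm_nonneg _) ?_ two_toReal_pos.le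
            exact ((A i).le_opNorm _).trans
              (mul_le_mul_of_nonneg_right (hA i) (norm_nonneg _))
        _ = M ^ ((2 : ℝ≥0∞)).toReal * ∑ i ∈ s, ‖f i‖ ^ ((2 : ℝ≥0∞)).toReal := by
            rw [Finset.mul_sum]
        _ ≤ M ^ ((2 : ℝ≥0∞)).toReal * ‖f‖ ^ ((2 : ℝ≥0∞)).toReal := by
            have := lp.sum_rpow_le_norm_rpow two_toReal_pos f s
            gcongr)

@[simp] theorem dsum_apply (A : ℕ → (E →L[ℂ] F)) (M : ℝ) (hA : ∀ i, ‖A i‖ ≤ M) (f : L2 E)
    (i : ℕ) : (dsum A M hA f : ℕ → F) i = A i (f i) := rfl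

theorem dsum_single (A : ℕ → (E →L[ℂ] F)) (M : ℝ) (hA : ∀ i, ‖A i‖ ≤ M) (i : ℕ) (a : E) :
    dsum A M hA (lp.single 2 i a) = lp.single 2 i (A i a) := by
  ext j
  rw [dsum_apply]
  by_cases h : j = i
  · subst h
    simp
  · simp [lp.single_apply, h]

omit [CompleteSpace E] in
theorem inner_single_single (i j : ℕ) (a b : E) :
    inner ℂ (lp.single 2 i a : L2 E) (lp.single 2 j b : L2 E) =
      if i = j then inner ℂ a b else 0 := by
  rw [lp.inner_single_left]
  by_cases h : i = j
  · subst h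
    simp
  · simp [lp.single_apply, h]

omit [CompleteSpace E] in
theorem orthonormal_block {κ : Type*} [Fintype κ] (v : OrthonormalBasis κ ℂ E) :
    Orthonormal ℂ (fun q : ℕ × κ => (lp.single 2 q.1 (v q.2) : L2 E)) := by
  classical
  rw [orthonormal_iff_ite]
  rintro ⟨i, k⟩ ⟨j, l⟩
  rw [inner_single_single, orthonormal_iff_ite.1 v.orthonormal]
  by_cases h1 : i = j <;> by_cases h2 : k = l <;> simp [h1, h2, Prod.ext_iff]

omit [CompleteSpace E] in
theorem span_block {κ : Type*} [Fintype κ] (v : OrthonormalBasis κ ℂ E) :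
    (⊤ : Submodule ℂ (L2 E)) ≤ (Submodule.span ℂ
      (range fun q : ℕ × κ => (lp.single 2 q.1 (v q.2) : L2 E))).topologicalClosure := by
  intro f _
  refine mem_closure_of_tendsto (lp.hasSum_single (by norm_num) f) ?_
  refine Eventually.of_forall fun s => Submodule.sum_mem _ fun i _ => ?_
  have h1 : f i = ∑ k, (inner ℂ (v k) (f i) : ℂ) • v k := by
    have := v.sum_repr (f i)
    simp only [v.repr_apply_apply] at this
    exact this.symm
  rw [h1]
  have h2 : (lp.single 2 i (∑ k, (inner ℂ (v k) (f i) : ℂ) • v k) : L2 E) =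
      ∑ k, (inner ℂ (v k) (f i) : ℂ) • (lp.single 2 i (v k) : L2 E) := by
    have := map_sum (lp.singleContinuousLinearMap ℂ (fun _ : ℕ => E) 2 i)
      (fun k => (inner ℂ (v k) (f i) : ℂ) • v k) Finset.univ
    simp only [lp.singleContinuousLinearMap_apply] at this
    rw [this]
    exact Finset.sum_congr rfl fun k _ => lp.single_smul _ _ _ _
  rw [h2]
  exact Submodule.sum_mem _ fun k _ => Submodule.smul_mem _ _
    (Submodule.subset_span ⟨(i, k), rfl⟩)

/-- The Hilbert basis of the Hilbert sum given by an orthonormal basis of `E`. -/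
noncomputable def blockBasis {κ : Type*} [Fintype κ] (v : OrthonormalBasis κ ℂ E) :
    HilbertBasis (ℕ × κ) ℂ (L2 E) :=
  HilbertBasis.mk (orthonormal_block v) (span_block v)

theorem blockBasis_apply {κ : Type*} [Fintype κ] (v : OrthonormalBasis κ ℂ E) (q : ℕ × κ) :
    blockBasis v q = (lp.single 2 q.1 (v q.2) : L2 E) := by
  unfold blockBasis
  rw [HilbertBasis.coe_mk]

end Direct

/-- Orthonormal families in an infinite-dimensional Hilbert space. -/
theorem exists_orthonormal_family (H : Type*) [NormedAddCommGroup H] [InnerProductSpace ℂ H]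
    [CompleteSpace H] (hH : ¬ FiniteDimensional ℂ H) (α : Type*) [Countable α] :
    ∃ w : α → H, Orthonormal ℂ w := by
  obtain ⟨s, b, -⟩ := exists_hilbertBasis ℂ H
  have hs : Infinite s := by
    by_contra hcon
    rw [not_infinite_iff_finite] at hcon
    have := Fintype.ofFinite s
    exact hH b.toOrthonormalBasis.toBasis.finiteDimensional_of_finite
  obtain ⟨g, hg⟩ := exists_injective_nat α
  refine ⟨fun a => b (Infinite.natEmbedding s (g a)), ?_⟩
  exact b.orthonormal.comp _ ((Infinite.natEmbedding s).injective.comp hg)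

/-- An isometric embedding of the Hilbert sum of finite-dimensional spaces. -/
theorem exists_isometry (H : Type*) [NormedAddCommGroup H] [InnerProductSpace ℂ H]
    [CompleteSpace H] (hH : ¬ FiniteDimensional ℂ H) (E : Type*) [NormedAddCommGroup E]
    [InnerProductSpace ℂ E] [FiniteDimensional ℂ E] [CompleteSpace E] :
    Nonempty (L2 E →ₗᵢ[ℂ] H) := by
  obtain ⟨w, hw⟩ := exists_orthonormal_family H hH (ℕ × Fin (finrank ℂ E))
  exact ⟨(hw.orthogonalFamily.linearIsometry).comp
    (blockBasis (stdOrthonormalBasis ℂ E)).repr.toLinearIsometry⟩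

end Pool.Agent.S50X
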