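import Pool.Agent.S50X.Spectral

open MeasureTheory Metric Set Filter Topology Module
open scoped Pointwise ENNReal NNReal



namespace Pool.Agent.S50X

variable {ι : Type} [Fintype ι]

/-- The functions on the sphere whose kernel is a finite sum of `|B x| ^ p`. -/
def Cn (ι : Type) [Fintype ι] (p : ℝ) : Set C(Sph ι, ℝ) :=
  {g | CInv g ∧ ∃ (n : ℕ) (B : Fin n → EC ι →ₗ[ℂ] EC ι), ∀ x : EC ι,
    ∑ i, ‖B i x‖ ^ p = ker p g x}

theorem Cn_add {p : ℝ} (hp : 0 < p) {f g : C(Sph ι, ℝ)} (hf : f ∈ Cn ι p) (hg : g ∈ Cn ι p) :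
    f + g ∈ Cn ι p := by
  obtain ⟨hf0, n, B, hB⟩ := hf
  obtain ⟨hg0, m, D, hD⟩ := hg
  refine ⟨fun c u v hc huv => ?_, n + m, Fin.append B D, fun x => ?_⟩
  · simp [hf0 c u v hc huv, hg0 c u v hc huv]
  · rw [Fin.sum_univ_add, ker_add hp, ← hB, ← hD]
    simp

theorem Cn_smul {p : ℝ} (hp : 0 < p) {f : C(Sph ι, ℝ)} (hf : f ∈ Cn ι p) {c : ℝ} (hc : 0 ≤ c) :
    c • f ∈ Cn ι p := by
  obtain ⟨hf0, n, B, hB⟩ := hf
  refine ⟨fun d u v hd huv => ?_, n, fun i => ((c ^ (1 / p) : ℝ) : ℂ) • B i, fun x => ?_⟩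
  · simp [hf0 d u v hd huv]
  · rw [ker_smul, ← hB, Finset.mul_sum]
    refine Finset.sum_congr rfl fun i _ => ?_
    rw [LinearMap.smul_apply, norm_smul, Complex.norm_real, Real.norm_eq_abs,
      abs_of_nonneg (by positivity), Real.mul_rpow (by positivity) (norm_nonneg _),
      ← Real.rpow_mul hc, one_div, inv_mul_cancel₀ hp.ne', Real.rpow_one]

theorem Cn_convex {p : ℝ} (hp : 0 < p) : Convex ℝ (Cn ι p) := by
  intro f hf g hg a b ha hb _
  exact Cn_add hp (Cn_smul hp hf ha) (Cn_smul hp hg hb)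

theorem inner_le_one (v u : Sph ι) : ‖inner ℂ (v : EC ι) (u : EC ι)‖ ^ 2 ≤ 1 := by
  have h := norm_inner_le_norm (𝕜 := ℂ) (v : EC ι) (u : EC ι)
  simp only [norm_eq_of_mem_sphere, mul_one] at h
  exact pow_le_one₀ (norm_nonneg _) h

/-- The kernel `(1 + δ - |⟨v, u⟩|²) ^ (-(p/2+n))`. -/
noncomputable def kfun (p δ : ℝ) (v u : Sph ι) : ℝ :=
  (1 + δ - ‖inner ℂ (v : EC ι) (u : EC ι)‖ ^ 2) ^ (-(p / 2 + Fintype.card ι))

theorem kfun_pos {p δ : ℝ} (hδ : 0 < δ) (v u : Sph ι) : 0 < kfun p δ v u := by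
  unfold kfun
  have := inner_le_one v u
  exact Real.rpow_pos_of_pos (by linarith) _

theorem kfun_comm (p δ : ℝ) (v u : Sph ι) : kfun p δ v u = kfun p δ u v := by
  unfold kfun
  rw [norm_inner_symm]

theorem kfun_unitary (p δ : ℝ) (U : EC ι ≃ₗᵢ[ℂ] EC ι) (v u : Sph ι) :
    kfun p δ (sphMap U v) (sphMap U u) = kfun p δ v u := by
  unfold kfun sphMap
  simp

theorem continuous_kfun {p δ : ℝ} (hδ : 0 < δ) :
    Continuous fun q : Sph ι × Sph ι => kfun p δ q.1 q.2 := by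
  unfold kfun
  have h : Continuous fun q : Sph ι × Sph ι =>
      1 + δ - ‖inner ℂ (q.1 : EC ι) (q.2 : EC ι)‖ ^ 2 := by fun_prop
  refine h.rpow_const fun q => Or.inl ?_
  have := inner_le_one q.1 q.2
  linarith

/-- The kernel with first variable fixed, as a continuous function. -/
noncomputable def kf (p : ℝ) {δ : ℝ} (hδ : 0 < δ) (v : Sph ι) : C(Sph ι, ℝ) :=
  ⟨fun u => kfun p δ v u, (continuous_kfun (ι := ι) (p := p) hδ).comp
    (f := fun u : Sph ι => (v, u)) (by fun_prop)⟩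

theorem proj_span (v u : Sph ι) :
    ‖(Submodule.span ℂ {(v : EC ι)}).starProjection (u : EC ι)‖ ^ 2 =
      ‖inner ℂ (v : EC ι) (u : EC ι)‖ ^ 2 := by
  rw [Submodule.starProjection_unit_singleton ℂ (by simp), norm_smul]
  simp

theorem density_span {δ : ℝ} (_hδ : 0 < δ) (v u : Sph ι) :
    (((1 + δ)⁻¹ : ℝ))⁻¹ * ‖(u : EC ι) - (Submodule.span ℂ {(v : EC ι)}).starProjection
        (u : EC ι)‖ ^ 2 +
      ((δ⁻¹ : ℝ))⁻¹ * ‖(Submodule.span ℂ {(v : EC ι)}).starProjection (u : EC ι)‖ ^ 2 =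
      1 + δ - ‖inner ℂ (v : EC ι) (u : EC ι)‖ ^ 2 := by
  have h1 := norm_Bop (Submodule.span ℂ {(v : EC ι)}) 1 1 (u : EC ι)
  have h2 : Bop (Submodule.span ℂ {(v : EC ι)}) 1 1 (u : EC ι) = u := by
    rw [Bop_apply]
    simp
  rw [h2] at h1
  simp only [norm_eq_of_mem_sphere, one_pow, one_mul] at h1
  rw [inv_inv, inv_inv, proj_span]
  rw [proj_span] at h1
  have h3 : ‖(u : EC ι) - (Submodule.span ℂ {(v : EC ι)}).starProjection (u : EC ι)‖ ^ 2 =
      1 - ‖inner ℂ (v : EC ι) (u : EC ι)‖ ^ 2 := by linarith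
  rw [h3]
  ring

theorem kf_facts [Nonempty ι] {p : ℝ} (hp : 0 < p) : ∃ c₀ : ℝ, 0 < c₀ ∧
    ∀ (δ : ℝ) (hδ : 0 < δ) (v : Sph ι), kf p hδ v ∈ Cn ι p ∧
      (δ ≤ 1 → c₀ ≤ δ * ∫ u : Sph ι, kfun p δ v u ∂(sph ι)) := by
  obtain ⟨C, hC, hs⟩ := spectral (ι := ι) hp
  refine ⟨C⁻¹ * (2 ^ (Fintype.card ι - 1))⁻¹, by positivity, fun δ hδ v => ?_⟩
  have hδ1 : 0 < (1 + δ)⁻¹ := by positivity
  have hδ2 : 0 < δ⁻¹ := by positivity
  have hk : finrank ℂ (Submodule.span ℂ {(v : EC ι)}) = 1 := by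
    refine finrank_span_singleton ?_
    intro h
    have : ‖(v : EC ι)‖ = 1 := by simp
    rw [h, norm_zero] at this
    exact zero_ne_one this
  have hs1 := fun x : EC ι => hs (Submodule.span ℂ {(v : EC ι)}) (1 + δ)⁻¹ δ⁻¹ hδ1 hδ2 x
  simp only [density_span hδ v, hk, pow_one] at hs1
  set D : ℝ := (1 + δ)⁻¹ ^ (Fintype.card ι - 1) * δ⁻¹ with hD
  have hD0 : 0 < D := by positivity
  have hker : ∀ x : EC ι, ∫ u : Sph ι, ‖inner ℂ (u : EC ι) x‖ ^ p *
      (1 + δ - ‖inner ℂ (v : EC ι) (u : EC ι)‖ ^ 2) ^ (-(p / 2 + Fintype.card ι)) ∂(sph ι) =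
      ker p (kf p hδ v) x := fun x => rfl
  simp only [hker] at hs1
  constructor
  · have hmem : (C⁻¹ * D)⁻¹ • kf p hδ v ∈ Cn ι p := by
      refine ⟨?_, 1, fun _ => (Bop (Submodule.span ℂ {(v : EC ι)}) (Real.sqrt (1 + δ)⁻¹)
        (Real.sqrt δ⁻¹) : EC ι →ₗ[ℂ] EC ι), fun x => ?_⟩
      · intro c u w hc huw
        simp only [ContinuousMap.smul_apply, kf, ContinuousMap.coe_mk, kfun, huw,
          inner_smul_right, norm_mul, hc, one_mul]
      · have h1 := hs1 x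
        have e1 : (1 + δ)⁻¹ * ‖x - (Submodule.span ℂ {(v : EC ι)}).starProjection x‖ ^ 2 +
            δ⁻¹ * ‖(Submodule.span ℂ {(v : EC ι)}).starProjection x‖ ^ 2 =
            ‖Bop (Submodule.span ℂ {(v : EC ι)}) (Real.sqrt (1 + δ)⁻¹) (Real.sqrt δ⁻¹) x‖ ^ 2 := by
          rw [norm_Bop, Real.sq_sqrt hδ1.le, Real.sq_sqrt hδ2.le]
        have e2 : (‖Bop (Submodule.span ℂ {(v : EC ι)}) (Real.sqrt (1 + δ)⁻¹)
            (Real.sqrt δ⁻¹) x‖ ^ 2) ^ (p / 2) =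
            ‖Bop (Submodule.span ℂ {(v : EC ι)}) (Real.sqrt (1 + δ)⁻¹)
            (Real.sqrt δ⁻¹) x‖ ^ p := by
          rw [← Real.rpow_two, ← Real.rpow_mul (norm_nonneg _)]
          congr 1
          ring
        rw [e1, e2] at h1
        rw [ker_smul]
        simp only [Finset.univ_unique, Finset.sum_singleton, ContinuousLinearMap.coe_coe, h1]
        have e3 : (C⁻¹ * D)⁻¹ = C * D⁻¹ := by rw [_root_.mul_inv, inv_inv]
        rw [e3]
    have := Cn_smul hp hmem (c := C⁻¹ * D) (by positivity)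
    rwa [smul_smul, mul_inv_cancel₀ (by positivity), one_smul] at this
  · intro hδ3
    have h1 := hs1 (v : EC ι)
    have hv : (Submodule.span ℂ {(v : EC ι)}).starProjection (v : EC ι) = v :=
      Submodule.starProjection_eq_self_iff.2 (Submodule.mem_span_singleton_self _)
    rw [hv, sub_self, norm_zero] at h1
    simp only [norm_eq_of_mem_sphere, ne_eq, OfNat.ofNat_ne_zero, not_false_eq_true, zero_pow,
      mul_zero, zero_add, one_pow, mul_one] at h1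
    have h2 : ker p (kf p hδ v) (v : EC ι) ≤ ∫ u : Sph ι, kfun p δ v u ∂(sph ι) := by
      unfold ker
      refine integral_mono (integrable_kern hp _ _) (integrable_cont (kf p hδ v).continuous)
        fun u => ?_
      have h3 : ‖inner ℂ (u : EC ι) (v : EC ι)‖ ^ p ≤ 1 := by
        have h := norm_inner_le_norm (𝕜 := ℂ) (u : EC ι) (v : EC ι)
        simp only [norm_eq_of_mem_sphere, mul_one] at h
        exact Real.rpow_le_one (norm_nonneg _) h hp.le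
      have h4 : 0 < kfun p δ v u := kfun_pos hδ v u
      calc ‖inner ℂ (u : EC ι) (v : EC ι)‖ ^ p * kf p hδ v u
          = ‖inner ℂ (u : EC ι) (v : EC ι)‖ ^ p * kfun p δ v u := rfl
        _ ≤ 1 * kfun p δ v u := by gcongr
        _ = kfun p δ v u := one_mul _
    have h5 : (1 : ℝ) ≤ (δ⁻¹) ^ (p / 2) := by
      refine Real.one_le_rpow ?_ (by positivity)
      exact (one_le_inv₀ hδ).2 hδ3
    have h6 : (1 : ℝ) ≤ C * D⁻¹ * ∫ u : Sph ι, kfun p δ v u ∂(sph ι) := by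
      calc (1 : ℝ) ≤ (δ⁻¹) ^ (p / 2) := h5
        _ = C * D⁻¹ * ker p (kf p hδ v) (v : EC ι) := h1
        _ ≤ _ := by gcongr
    have h7 : C⁻¹ * D ≤ ∫ u : Sph ι, kfun p δ v u ∂(sph ι) := by
      calc C⁻¹ * D = C⁻¹ * D * 1 := (mul_one _).symm
        _ ≤ C⁻¹ * D * (C * D⁻¹ * ∫ u : Sph ι, kfun p δ v u ∂(sph ι)) := by gcongr
        _ = _ := by
          field_simp
    have h8 : (2 ^ (Fintype.card ι - 1))⁻¹ ≤ δ * D := by
      rw [hD]
      have : δ * ((1 + δ)⁻¹ ^ (Fintype.card ι - 1) * δ⁻¹) =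
          ((1 + δ) ^ (Fintype.card ι - 1))⁻¹ := by
        rw [inv_pow]
        field_simp
      rw [this]
      gcongr
      linarith
    calc C⁻¹ * (2 ^ (Fintype.card ι - 1))⁻¹ ≤ C⁻¹ * (δ * D) := by gcongr
      _ = δ * (C⁻¹ * D) := by ring
      _ ≤ _ := by gcongr

theorem kfun_integral_const {p δ : ℝ} (v w : Sph ι) :
    ∫ u : Sph ι, kfun p δ v u ∂(sph ι) = ∫ u : Sph ι, kfun p δ w u ∂(sph ι) := by
  obtain ⟨U, hU⟩ := exists_unitary (v : EC ι) (w : EC ι) (by simp) (by simp)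
  have hw : w = sphMap U v := Subtype.ext hU.symm
  have hemb : MeasurableEmbedding (sphMap U) := by
    refine (continuous_sphMap U).measurableEmbedding fun a b h => ?_
    have h' := congrArg Subtype.val h
    exact Subtype.ext (U.injective h')
  calc ∫ u : Sph ι, kfun p δ v u ∂(sph ι)
      = ∫ u : Sph ι, kfun p δ (sphMap U v) (sphMap U u) ∂(sph ι) := by
        refine integral_congr_ae (Eventually.of_forall fun u => ?_)
        exact (kfun_unitary p δ U v u).symm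
    _ = ∫ u : Sph ι, kfun p δ (sphMap U v) u ∂(sph ι) :=
        (measurePreserving_sphMap U).integral_comp hemb (fun u => kfun p δ (sphMap U v) u)
    _ = _ := by rw [hw]

theorem kfun_le {p δ κ : ℝ} (hp : 0 < p) (hδ : 0 < δ) (hκ : 0 < κ) {v u : Sph ι}
    (h : ‖inner ℂ (v : EC ι) (u : EC ι)‖ ^ 2 < 1 - κ) :
    kfun p δ v u ≤ κ ^ (-(p / 2 + Fintype.card ι)) := by
  unfold kfun
  refine Real.rpow_le_rpow_of_nonpos hκ (by linarith) ?_
  have : 0 ≤ p / 2 + (Fintype.card ι : ℝ) := by positivity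
  linarith

attribute [irreducible] kfun

/-- Two points of the sphere with inner product of modulus close to one have close values. -/
theorem unif {f : C(Sph ι, ℝ)} (hinv : CInv f) {η : ℝ} (hη : 0 < η) :
    ∃ κ : ℝ, 0 < κ ∧ ∀ u v : Sph ι, 1 - κ ≤ ‖inner ℂ (v : EC ι) (u : EC ι)‖ ^ 2 →
      |f v - f u| ≤ η := by
  have huc : UniformContinuous f := CompactSpace.uniformContinuous_of_continuous f.continuous
  obtain ⟨r, hr, h⟩ := Metric.uniformContinuous_iff.1 huc η hη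
  refine ⟨min (1 / 2) (r ^ 2 / 4), by positivity, fun u v huv => ?_⟩
  set z : ℂ := inner ℂ (v : EC ι) (u : EC ι) with hz
  have hz1 : ‖z‖ ≤ 1 := by
    have h := norm_inner_le_norm (𝕜 := ℂ) (v : EC ι) (u : EC ι)
    simpa using h
  have hz2 : 1 / 2 ≤ ‖z‖ ^ 2 := by
    have := min_le_left (1 / 2 : ℝ) (r ^ 2 / 4)
    linarith
  have hz0 : 0 < ‖z‖ := by
    by_contra h0
    have : ‖z‖ = 0 := le_antisymm (not_lt.1 h0) (norm_nonneg _)
    rw [this] at hz2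
    norm_num at hz2
  set c : ℂ := z / ‖z‖ with hc
  have hzC : ((‖z‖ : ℝ) : ℂ) ≠ 0 := by exact_mod_cast hz0.ne'
  have hc1 : ‖c‖ = 1 := by
    rw [hc, norm_div, Complex.norm_real, norm_norm, div_self hz0.ne']
  let w : Sph ι := ⟨c • (v : EC ι), by simp [norm_smul, hc1]⟩
  have hfw : f w = f v := hinv c v w hc1 rfl
  have hd : dist w u < r := by
    have e1 : dist w u = ‖c • (v : EC ι) - (u : EC ι)‖ := by
      rw [Subtype.dist_eq, dist_eq_norm]
    have e2 : ‖c • (v : EC ι) - (u : EC ι)‖ ^ 2 = 2 - 2 * ‖z‖ := by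
      rw [@norm_sub_sq ℂ]
      have e3 : inner ℂ (c • (v : EC ι)) (u : EC ι) = ((‖z‖ : ℝ) : ℂ) := by
        rw [inner_smul_left, ← hz, hc, map_div₀, Complex.conj_ofReal, div_mul_eq_mul_div,
          Complex.conj_mul', div_eq_iff hzC]
        ring
      rw [e3, norm_smul, hc1]
      simp
      ring
    have e4 : 2 - 2 * ‖z‖ ≤ 2 * (1 - ‖z‖ ^ 2) := by nlinarith
    have e5 : 1 - ‖z‖ ^ 2 ≤ r ^ 2 / 4 := by
      have := min_le_right (1 / 2 : ℝ) (r ^ 2 / 4)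
      linarith
    rw [e1]
    refine lt_of_pow_lt_pow_left₀ 2 hr.le ?_
    rw [e2]
    nlinarith
  have := h hd
  rw [Real.dist_eq, hfw] at this
  exact this.le

/-- The kernel with weight `c f`, as a map into the continuous functions. -/
noncomputable def Fm (p : ℝ) {δ : ℝ} (hδ : 0 < δ) (f : C(Sph ι, ℝ)) (c : ℝ) :
    C(Sph ι, C(Sph ι, ℝ)) :=
  ContinuousMap.curry ⟨fun q => c * f q.1 * kfun p δ q.1 q.2,
    (continuous_const.mul (f.continuous.comp continuous_fst)).mul (continuous_kfun hδ)⟩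

theorem Fm_apply (p : ℝ) {δ : ℝ} (hδ : 0 < δ) (f : C(Sph ι, ℝ)) (c : ℝ) (v u : Sph ι) :
    Fm p hδ f c v u = c * f v * kfun p δ v u := rfl

theorem Fm_mem [Nonempty ι] {p : ℝ} (hp : 0 < p) {δ : ℝ} (hδ : 0 < δ) {f : C(Sph ι, ℝ)}
    (hf : ∀ u, 0 < f u) {c : ℝ} (hc : 0 ≤ c) (v : Sph ι) : Fm p hδ f c v ∈ Cn ι p := by
  obtain ⟨c₀, -, hk⟩ := kf_facts (ι := ι) hp
  have h1 : Fm p hδ f c v = (c * f v) • kf p hδ v := by
    ext u
    rw [Fm_apply]
    rfl
  rw [h1]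
  exact Cn_smul hp (hk δ hδ v).1 (mul_nonneg hc (hf v).le)

theorem integrable_Fm (p : ℝ) {δ : ℝ} (hδ : 0 < δ) (f : C(Sph ι, ℝ)) (c : ℝ) :
    Integrable (Fm p hδ f c) (sph ι) :=
  (Fm p hδ f c).continuous.integrable_of_hasCompactSupport (HasCompactSupport.of_compactSpace _)

/-- The averaged function. -/
noncomputable def Gm (p : ℝ) {δ : ℝ} (hδ : 0 < δ) (f : C(Sph ι, ℝ)) (c : ℝ) : C(Sph ι, ℝ) :=
  ⨍ v, Fm p hδ f c v ∂(sph ι)


theorem avg_mem [NeZero (sph ι)] (F : Sph ι → C(Sph ι, ℝ)) (s : Set C(Sph ι, ℝ))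
    (hs : Convex ℝ s) (hsc : IsClosed s)
    (hF : ∀ v, F v ∈ s) (hi : Integrable F (sph ι)) : (⨍ v, F v ∂(sph ι)) ∈ s :=
  hs.average_mem hsc (Eventually.of_forall hF) hi

theorem Gm_mem [Nonempty ι] [NeZero (sph ι)] {p : ℝ} (hp : 0 < p) {δ : ℝ} (hδ : 0 < δ)
    {f : C(Sph ι, ℝ)} (hf : ∀ u, 0 < f u) {c : ℝ} (hc : 0 ≤ c) :
    Gm p hδ f c ∈ closure (Cn ι p) := by
  unfold Gm
  exact avg_mem (fun v => Fm p hδ f c v) _ (Cn_convex hp).closure isClosed_closure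
    (fun v => subset_closure (Fm_mem hp hδ hf hc v)) (integrable_Fm p hδ f c)

theorem Gm_apply (p : ℝ) {δ : ℝ} (hδ : 0 < δ) (f : C(Sph ι, ℝ)) (c : ℝ) (u : Sph ι) :
    Gm p hδ f c u = ((sph ι).real univ)⁻¹ * (c * ∫ v : Sph ι, f v * kfun p δ v u ∂(sph ι)) := by
  have h1 : (∫ v : Sph ι, Fm p hδ f c v ∂(sph ι)) u =
      ∫ v : Sph ι, Fm p hδ f c v u ∂(sph ι) :=
    ContinuousMap.integral_apply (integrable_Fm p hδ f c) u
  have h2 : ∫ v : Sph ι, Fm p hδ f c v u ∂(sph ι) =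
      c * ∫ v : Sph ι, f v * kfun p δ v u ∂(sph ι) := by
    rw [← integral_const_mul]
    refine integral_congr_ae (Eventually.of_forall fun v => ?_)
    show Fm p hδ f c v u = c * (f v * kfun p δ v u)
    rw [Fm_apply, mul_assoc]
  unfold Gm
  rw [average_eq, ContinuousMap.smul_apply, h1, h2, smul_eq_mul]

theorem approx_bound [Nonempty ι] {p : ℝ} (hp : 0 < p) {f : C(Sph ι, ℝ)} {ε κ M δ Z : ℝ}
    (hε : 0 < ε) (hκ : 0 < κ) (hM : ∀ u, |f u| ≤ M) (hδ : 0 < δ)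
    (hu : ∀ u v : Sph ι, 1 - κ ≤ ‖inner ℂ (v : EC ι) (u : EC ι)‖ ^ 2 → |f v - f u| ≤ ε)
    (hZ : ∀ v, ∫ u : Sph ι, kfun p δ v u ∂(sph ι) = Z) (u : Sph ι) :
    |f u * Z - ∫ v : Sph ι, f v * kfun p δ v u ∂(sph ι)| ≤
      ε * Z + 2 * M * κ ^ (-(p / 2 + Fintype.card ι)) * (sph ι).real univ := by
  have hM0 : 0 ≤ M := (abs_nonneg _).trans (hM u)
  have hkc : Continuous fun v : Sph ι => kfun p δ v u :=
    (continuous_kfun (ι := ι) (p := p) hδ).comp (f := fun v : Sph ι => (v, u)) (by fun_prop)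
  have hZu : ∫ v : Sph ι, kfun p δ v u ∂(sph ι) = Z := by
    rw [← hZ u]
    refine integral_congr_ae (Eventually.of_forall fun v => ?_)
    exact kfun_comm p δ v u
  have c1 : Continuous fun v : Sph ι => f u * kfun p δ v u := continuous_const.mul hkc
  have c2 : Continuous fun v : Sph ι => f v * kfun p δ v u := f.continuous.mul hkc
  have c3 : Continuous fun v : Sph ι => (f u - f v) * kfun p δ v u :=
    (continuous_const.sub f.continuous).mul hkc
  have c4 : Continuous fun v : Sph ι => ε * kfun p δ v u := continuous_const.mul hkc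
  have h1 : f u * Z - ∫ v : Sph ι, f v * kfun p δ v u ∂(sph ι) =
      ∫ v : Sph ι, (f u - f v) * kfun p δ v u ∂(sph ι) := by
    rw [← hZu, ← integral_const_mul, ← integral_sub (integrable_cont c1) (integrable_cont c2)]
    refine integral_congr_ae (Eventually.of_forall fun v => ?_)
    show f u * kfun p δ v u - f v * kfun p δ v u = (f u - f v) * kfun p δ v u
    ring
  rw [h1]
  have h2 : ∀ v : Sph ι, |(f u - f v) * kfun p δ v u| ≤
      ε * kfun p δ v u + 2 * M * κ ^ (-(p / 2 + Fintype.card ι)) := by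
    intro v
    have hkp := kfun_pos (p := p) hδ v u
    rw [abs_mul, abs_of_pos hkp]
    by_cases hc : 1 - κ ≤ ‖inner ℂ (v : EC ι) (u : EC ι)‖ ^ 2
    · have h3 := hu u v hc
      rw [abs_sub_comm] at h3
      have : |f u - f v| * kfun p δ v u ≤ ε * kfun p δ v u :=
        mul_le_mul_of_nonneg_right h3 hkp.le
      have h4 : 0 ≤ 2 * M * κ ^ (-(p / 2 + Fintype.card ι)) := by positivity
      linarith
    · have h3 : |f u - f v| ≤ 2 * M := by
        calc |f u - f v| ≤ |f u| + |f v| := abs_sub _ _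
          _ ≤ 2 * M := by linarith [hM u, hM v]
      have h4 : kfun p δ v u ≤ κ ^ (-(p / 2 + Fintype.card ι)) :=
        kfun_le hp hδ hκ (not_le.1 hc)
      have h5 : |f u - f v| * kfun p δ v u ≤
          2 * M * κ ^ (-(p / 2 + Fintype.card ι)) :=
        mul_le_mul h3 h4 hkp.le (by positivity)
      have h6 : 0 ≤ ε * kfun p δ v u := by positivity
      linarith
  calc |∫ v : Sph ι, (f u - f v) * kfun p δ v u ∂(sph ι)|
      ≤ ∫ v : Sph ι, |(f u - f v) * kfun p δ v u| ∂(sph ι) := abs_integral_le_integral_abs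
    _ ≤ ∫ v : Sph ι, (ε * kfun p δ v u +
          2 * M * κ ^ (-(p / 2 + Fintype.card ι))) ∂(sph ι) :=
        integral_mono (integrable_cont c3.abs) (integrable_cont (c4.add continuous_const)) h2
    _ = _ := by
        rw [integral_add (integrable_cont c4) (integrable_const _),
          integral_const_mul, hZu, integral_const, smul_eq_mul]
        ring

theorem approx_pos {ι : Type} [Fintype ι] [Nonempty ι] {p : ℝ} (hp : 0 < p) (f : C(Sph ι, ℝ))
    (hf : ∀ u, 0 < f u) (hinv : CInv f) {ε : ℝ} (hε : 0 < ε) :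
    ∃ (n : ℕ) (B : Fin n → EC ι →ₗ[ℂ] EC ι) (g : C(Sph ι, ℝ)),
      CInv g ∧ (∀ u, |f u - g u| ≤ ε) ∧ ∀ x : EC ι, ∑ i, ‖B i x‖ ^ p = ker p g x := by
  obtain ⟨c₀, hc₀, hk⟩ := kf_facts (ι := ι) hp
  obtain ⟨κ, hκ, hu⟩ := unif hinv (η := ε / 4) (by positivity)
  obtain ⟨M, hM0, hM⟩ : ∃ M : ℝ, 0 < M ∧ ∀ u, |f u| ≤ M :=
    ⟨‖f‖ + 1, by positivity, fun u => (f.norm_coe_le_norm u).trans (by linarith)⟩
  obtain ⟨v₀⟩ : Nonempty (Sph ι) := by
    classical
    exact ⟨⟨EuclideanSpace.single (Classical.arbitrary ι) 1, by simp⟩⟩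
  obtain ⟨L, hL⟩ : ∃ L : ℝ, L =
    2 * M * κ ^ (-(p / 2 + Fintype.card ι)) * (sph ι).real univ := ⟨_, rfl⟩
  have hL0 : 0 ≤ L := by rw [hL]; positivity
  obtain ⟨δ, hδ, hδ1, hδ2⟩ : ∃ δ : ℝ, 0 < δ ∧ δ ≤ 1 ∧ L * δ / c₀ ≤ ε / 4 := by
    refine ⟨min 1 (ε * c₀ / (4 * (L + 1))), by positivity, min_le_left _ _, ?_⟩
    have h1 : min 1 (ε * c₀ / (4 * (L + 1))) ≤ ε * c₀ / (4 * (L + 1)) := min_le_right _ _
    calc L * min 1 (ε * c₀ / (4 * (L + 1))) / c₀ ≤ L * (ε * c₀ / (4 * (L + 1))) / c₀ := by gcongr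
      _ = (L / (L + 1)) * (ε / 4) := by field_simp
      _ ≤ 1 * (ε / 4) := by
        gcongr
        rw [div_le_one (by linarith)]
        linarith
      _ = ε / 4 := one_mul _
  obtain ⟨Z, hZ⟩ : ∃ Z : ℝ, Z = ∫ u : Sph ι, kfun p δ v₀ u ∂(sph ι) := ⟨_, rfl⟩
  have hZc : ∀ v, ∫ u : Sph ι, kfun p δ v u ∂(sph ι) = Z := fun v => by
    rw [hZ]
    exact kfun_integral_const v v₀
  have hcZ : c₀ ≤ δ * Z := by
    rw [hZ]
    exact (hk δ hδ v₀).2 hδ1
  have hZ0 : 0 < Z := by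
    by_contra h
    have : δ * Z ≤ 0 := mul_nonpos_of_nonneg_of_nonpos hδ.le (not_lt.1 h)
    linarith
  have hne : NeZero (sph ι) := ⟨by
    intro h
    have h2 : Z = 0 := by rw [hZ, h, integral_zero_measure]
    exact hZ0.ne' h2⟩
  have hN0 : 0 < (sph ι).real univ := measureReal_univ_pos
  have hc : 0 ≤ (sph ι).real univ / Z := by positivity
  have hav := Gm_mem hp hδ hf hc
  have hfG : ∀ u, |f u - Gm p hδ f ((sph ι).real univ / Z) u| ≤ ε / 2 := by
    intro u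
    have h1 := approx_bound hp (ε := ε / 4) (by positivity) hκ hM hδ hu hZc u
    have h2 : f u - Gm p hδ f ((sph ι).real univ / Z) u =
        Z⁻¹ * (f u * Z - ∫ v : Sph ι, f v * kfun p δ v u ∂(sph ι)) := by
      rw [Gm_apply]
      field_simp
    rw [h2, abs_mul, abs_of_pos (inv_pos.2 hZ0)]
    calc Z⁻¹ * |f u * Z - ∫ v : Sph ι, f v * kfun p δ v u ∂(sph ι)|
        ≤ Z⁻¹ * (ε / 4 * Z + L) := by
          rw [hL]
          gcongr
      _ = ε / 4 + L / Z := by field_simp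
      _ ≤ ε / 4 + L * δ / c₀ := by
          have : L / Z ≤ L * δ / c₀ := by
            rw [div_le_div_iff₀ hZ0 hc₀]
            calc L * c₀ ≤ L * (δ * Z) := by gcongr
              _ = L * δ * Z := by ring
          linarith
      _ ≤ ε / 2 := by linarith
  obtain ⟨g, hg, hgG⟩ := Metric.mem_closure_iff.1 hav (ε / 2) (by positivity)
  obtain ⟨hg0, n, B, hB⟩ := hg
  refine ⟨n, B, g, hg0, fun u => ?_, hB⟩
  have h1 := hfG u
  have h2 : |Gm p hδ f ((sph ι).real univ / Z) u - g u| ≤ ε / 2 := by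
    rw [← Real.dist_eq]
    exact (ContinuousMap.dist_apply_le_dist u).trans hgG.le
  have h3 := abs_sub_le (f u) (Gm p hδ f ((sph ι).real univ / Z) u) (g u)
  linarith

end Pool.Agent.S50X
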