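import Mathlib

open MeasureTheory Set Filter Topology Module
open scoped ENNReal

namespace Pool.Agent.S50X

universe u v

/-- The `k`-th approximation number of a bounded operator: the distance to the operators of rank
at most `k` (for compact operators on Hilbert spaces this is the singular value number `k`,
counted from zero). -/
noncomputable def approxNum {H : Type u} {K : Type v} [NormedAddCommGroup H]
    [InnerProductSpace ℂ H] [NormedAddCommGroup K] [InnerProductSpace ℂ K]
    (T : H →L[ℂ] K) (k : ℕ) : ℝ :=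
  sInf {r : ℝ | ∃ F : H →L[ℂ] K, (F : H →ₗ[ℂ] K).rank ≤ k ∧ r = ‖T - F‖}

variable {H : Type u} {K : Type v} [NormedAddCommGroup H]
    [InnerProductSpace ℂ H] [NormedAddCommGroup K] [InnerProductSpace ℂ K]

theorem approxNum_nonneg (T : H →L[ℂ] K) (k : ℕ) : 0 ≤ approxNum T k := by
  refine Real.sInf_nonneg fun r hr => ?_
  obtain ⟨F, -, rfl⟩ := hr
  exact norm_nonneg _

theorem approxNum_le (T F : H →L[ℂ] K) {k : ℕ} (hF : (F : H →ₗ[ℂ] K).rank ≤ k) :
    approxNum T k ≤ ‖T - F‖ := by
  refine csInf_le ⟨0, ?_⟩ ⟨F, hF, rfl⟩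
  rintro r ⟨F, -, rfl⟩
  exact norm_nonneg _

theorem le_approxNum (T : H →L[ℂ] K) {k : ℕ} {m : ℝ}
    (h : ∀ F : H →L[ℂ] K, (F : H →ₗ[ℂ] K).rank ≤ k → m ≤ ‖T - F‖) : m ≤ approxNum T k := by
  refine le_csInf ⟨_, 0, ?_, rfl⟩ ?_
  · simp
  · rintro r ⟨F, hF, rfl⟩
    exact h F hF

/-- Norm of a finite combination of pairwise orthogonal vectors. -/
theorem norm_sq_sum_of_orth {ι : Type*} (y : ι → K)
    (ho : Pairwise fun i j => inner ℂ (y i) (y j) = 0) (c : ι → ℂ) (A : Finset ι) :
    ‖∑ i ∈ A, c i • y i‖ ^ 2 = ∑ i ∈ A, ‖c i‖ ^ 2 * ‖y i‖ ^ 2 := by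
  classical
  have h1 : (inner ℂ (∑ i ∈ A, c i • y i) (∑ i ∈ A, c i • y i) : ℂ) =
      ∑ i ∈ A, ((‖c i‖ ^ 2 * ‖y i‖ ^ 2 : ℝ) : ℂ) := by
    rw [sum_inner]
    refine Finset.sum_congr rfl fun i hi => ?_
    rw [inner_sum, Finset.sum_eq_single i]
    · rw [inner_smul_left, inner_smul_right, inner_self_eq_norm_sq_to_K]
      have : (starRingEnd ℂ) (c i) * c i = ((‖c i‖ ^ 2 : ℝ) : ℂ) := by
        rw [mul_comm, Complex.mul_conj, Complex.normSq_eq_norm_sq]
      rw [← mul_assoc, this]
      push_cast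
      rfl
    · intro j _ hji
      rw [inner_smul_left, inner_smul_right, ho (Ne.symm hji)]
      simp
    · intro h
      exact absurd hi h
  have h2 := inner_self_eq_norm_sq_to_K (𝕜 := ℂ) (∑ i ∈ A, c i • y i)
  rw [h1] at h2
  have h3 : (((∑ i ∈ A, ‖c i‖ ^ 2 * ‖y i‖ ^ 2 : ℝ)) : ℂ) =
      ((‖∑ i ∈ A, c i • y i‖ ^ 2 : ℝ) : ℂ) := by
    rw [Complex.ofReal_sum, h2]
    simp
  exact_mod_cast h3.symm

/-- An operator which is given by its values on an orthonormal family, these values being
pairwise orthogonal and of norm at most `t`, has norm at most `t`. -/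
theorem opNorm_le_of_orth {ι : Type*} (G : H →L[ℂ] K) (e : ι → H) (he : Orthonormal ℂ e)
    (hG : ∀ x, HasSum (fun i => (inner ℂ (e i) x : ℂ) • G (e i)) (G x))
    (ho : Pairwise fun i j => inner ℂ (G (e i)) (G (e j)) = 0) {t : ℝ} (ht : 0 ≤ t)
    (hb : ∀ i, ‖G (e i)‖ ≤ t) : ‖G‖ ≤ t := by
  refine ContinuousLinearMap.opNorm_le_bound _ ht fun x => ?_
  have h1 : Tendsto (fun A : Finset ι => ‖∑ i ∈ A, (inner ℂ (e i) x : ℂ) • G (e i)‖) atTop
      (𝓝 ‖G x‖) := (hG x).norm
  refine le_of_tendsto h1 (Eventually.of_forall fun A => ?_)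
  have h2 := norm_sq_sum_of_orth (fun i => G (e i)) ho (fun i => (inner ℂ (e i) x : ℂ)) A
  have h3 : ∑ i ∈ A, ‖(inner ℂ (e i) x : ℂ)‖ ^ 2 * ‖G (e i)‖ ^ 2 ≤ t ^ 2 * ‖x‖ ^ 2 := by
    calc ∑ i ∈ A, ‖(inner ℂ (e i) x : ℂ)‖ ^ 2 * ‖G (e i)‖ ^ 2
        ≤ ∑ i ∈ A, ‖(inner ℂ (e i) x : ℂ)‖ ^ 2 * t ^ 2 := by
          refine Finset.sum_le_sum fun i _ => ?_
          have := hb i
          have h0 := norm_nonneg (G (e i))
          gcongr
      _ = t ^ 2 * ∑ i ∈ A, ‖(inner ℂ (e i) x : ℂ)‖ ^ 2 := by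
          rw [Finset.mul_sum]
          exact Finset.sum_congr rfl fun i _ => mul_comm _ _
      _ ≤ t ^ 2 * ‖x‖ ^ 2 := by
          have := he.sum_inner_products_le (x := x) (s := A)
          gcongr
  have h4 : ‖∑ i ∈ A, (inner ℂ (e i) x : ℂ) • G (e i)‖ ^ 2 ≤ (t * ‖x‖) ^ 2 := by
    rw [h2, mul_pow]
    exact h3
  exact (abs_le_of_sq_le_sq' h4 (by positivity)).2 |>.trans le_rfl

/-- Upper bound: if at most `k` of the norms exceed `t` then the `k`-th approximation number is
at most `t`. -/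
theorem approxNum_le_of_card {ι : Type*} (T : H →L[ℂ] K) (e : ι → H) (he : Orthonormal ℂ e)
    (hT : ∀ x, HasSum (fun i => (inner ℂ (e i) x : ℂ) • T (e i)) (T x))
    (ho : Pairwise fun i j => inner ℂ (T (e i)) (T (e j)) = 0) {t : ℝ} (ht : 0 ≤ t)
    (J : Finset ι) (hJ : ∀ i, i ∉ J → ‖T (e i)‖ ≤ t) {k : ℕ} (hk : J.card ≤ k) :
    approxNum T k ≤ t := by
  classical
  let F : H →L[ℂ] K := ∑ i ∈ J, (innerSL ℂ (e i)).smulRight (T (e i))
  have hFapp : ∀ x, F x = ∑ i ∈ J, (inner ℂ (e i) x : ℂ) • T (e i) := by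
    intro x
    simp [F]
  have hrank : (F : H →ₗ[ℂ] K).rank ≤ k := by
    have hsub : LinearMap.range (F : H →ₗ[ℂ] K) ≤
        Submodule.span ℂ ((J.image fun i => T (e i) : Finset K) : Set K) := by
      rintro y ⟨x, rfl⟩
      rw [ContinuousLinearMap.coe_coe, hFapp]
      refine Submodule.sum_mem _ fun i hi => Submodule.smul_mem _ _ (Submodule.subset_span ?_)
      exact Finset.mem_coe.2 (Finset.mem_image_of_mem _ hi)
    calc (F : H →ₗ[ℂ] K).rank ≤ Module.rank ℂ
          (Submodule.span ℂ ((J.image fun i => T (e i) : Finset K) : Set K)) :=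
          Submodule.rank_mono hsub
      _ ≤ ((J.image fun i => T (e i)).card : Cardinal) := rank_span_finset_le _
      _ ≤ (k : Cardinal) := by
          exact_mod_cast (Finset.card_image_le.trans hk)
  refine (approxNum_le T F hrank).trans ?_
  have hFe : ∀ i, (T - F) (e i) = if i ∈ J then 0 else T (e i) := by
    intro i
    rw [sub_apply, hFapp]
    have : ∑ j ∈ J, (inner ℂ (e j) (e i) : ℂ) • T (e j) = if i ∈ J then T (e i) else 0 := by
      rw [← Finset.sum_ite_eq' J i (fun j => T (e j))]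
      refine Finset.sum_congr rfl fun j _ => ?_
      rw [orthonormal_iff_ite.1 he j i]
      split_ifs <;> simp
    rw [this]
    split_ifs <;> simp
  refine opNorm_le_of_orth (T - F) e he ?_ ?_ ht ?_
  · intro x
    have h1 : HasSum (fun i => if i ∈ J then (inner ℂ (e i) x : ℂ) • T (e i) else 0) (F x) := by
      rw [hFapp]
      have := hasSum_sum_of_ne_finset_zero (f := fun i => if i ∈ J then
        (inner ℂ (e i) x : ℂ) • T (e i) else 0) (s := J)
        (L := SummationFilter.unconditional ι) (fun b hb => by simp [hb])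
      convert this using 1
      exact Finset.sum_congr rfl fun i hi => by simp [hi]
    have h2 := (hT x).sub h1
    rw [sub_apply]
    convert h2 using 1
    ext i
    rw [hFe]
    split_ifs <;> simp
  · intro i j hij
    rw [hFe, hFe]
    split_ifs
    · simp
    · simp
    · simp
    · exact ho hij
  · intro i
    rw [hFe]
    split_ifs with h
    · simpa using ht
    · exact hJ i h

/-- Lower bound: if more than `k` of the norms are at least `m` then the `k`-th approximation
number is at least `m`. -/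
theorem le_approxNum_of_card {ι : Type*} (T : H →L[ℂ] K) (e : ι → H) (he : Orthonormal ℂ e)
    (ho : Pairwise fun i j => inner ℂ (T (e i)) (T (e j)) = 0) {m : ℝ} (hm : 0 ≤ m)
    (J : Finset ι) (hJ : ∀ i ∈ J, m ≤ ‖T (e i)‖) {k : ℕ} (hk : k < J.card) :
    m ≤ approxNum T k := by
  classical
  refine le_approxNum T fun F hF => ?_
  -- a unit vector in the span of `e i`, `i ∈ J`, killed by `F`
  let L : (J → ℂ) →ₗ[ℂ] K := ∑ i : J, (LinearMap.proj i).smulRight (F (e i))
  have hLapp : ∀ c : J → ℂ, L c = ∑ i : J, c i • F (e i) := by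
    intro c
    simp [L, LinearMap.sum_apply]
  have hL : LinearMap.range L ≤ LinearMap.range (F : H →ₗ[ℂ] K) := by
    rintro y ⟨c, rfl⟩
    rw [hLapp]
    refine ⟨∑ i : J, c i • e i, ?_⟩
    simp
  have hker : LinearMap.ker L ≠ ⊥ := by
    intro hbot
    have h1 := LinearMap.finrank_range_add_finrank_ker L
    rw [hbot, finrank_bot, add_zero] at h1
    have h2 : finrank ℂ (J → ℂ) = J.card := by simp
    have h3 : (finrank ℂ (LinearMap.range L) : Cardinal) ≤ k := by
      rw [finrank_eq_rank]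
      exact (Submodule.rank_mono hL).trans hF
    have h4 : finrank ℂ (LinearMap.range L) ≤ k := by exact_mod_cast h3
    omega
  obtain ⟨c, hc, hc0⟩ := (Submodule.ne_bot_iff _).1 hker
  rw [LinearMap.mem_ker, hLapp] at hc
  -- extend by zero
  let d : ι → ℂ := fun i => if h : i ∈ J then c ⟨i, h⟩ else 0
  have hd : ∀ (y : ι → K), ∑ i : J, c i • y i = ∑ i ∈ J, d i • y i := by
    intro y
    rw [← Finset.sum_coe_sort J (fun i => d i • y i)]
    refine Finset.sum_congr rfl fun i _ => ?_
    simp [d, i.2]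
  set x : H := ∑ i ∈ J, d i • e i with hx
  have hFx : F x = 0 := by
    rw [hx, map_sum]
    simp only [map_smul]
    rw [← hd (fun i => F (e i))]
    exact hc
  have hxn : ‖x‖ ^ 2 = ∑ i ∈ J, ‖d i‖ ^ 2 := by
    rw [hx, norm_sq_sum_of_orth e (fun i j hij => he.2 hij) d J]
    refine Finset.sum_congr rfl fun i _ => ?_
    rw [he.1 i]
    ring
  have hTn : ‖T x‖ ^ 2 = ∑ i ∈ J, ‖d i‖ ^ 2 * ‖T (e i)‖ ^ 2 := by
    rw [hx, map_sum]
    simp only [map_smul]
    exact norm_sq_sum_of_orth (fun i => T (e i)) ho d J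
  have hxpos : 0 < ‖x‖ := by
    rw [norm_pos_iff]
    intro h0
    apply hc0
    have : ∑ i ∈ J, ‖d i‖ ^ 2 = 0 := by
      rw [← hxn, h0]
      simp
    rw [Finset.sum_eq_zero_iff_of_nonneg (fun i _ => by positivity)] at this
    ext i
    have h5 := this i.1 i.2
    have h6 : d i.1 = c i := by simp [d, i.2]
    rw [h6] at h5
    simpa using h5
  have h7 : m * ‖x‖ ≤ ‖T x‖ := by
    have : (m * ‖x‖) ^ 2 ≤ ‖T x‖ ^ 2 := by
      rw [hTn, mul_pow, hxn, Finset.mul_sum]
      refine Finset.sum_le_sum fun i hi => ?_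
      rw [mul_comm]
      have := hJ i hi
      gcongr
    exact (abs_le_of_sq_le_sq' this (by positivity)).2
  have h8 : ‖T x‖ ≤ ‖T - F‖ * ‖x‖ := by
    have := (T - F).le_opNorm x
    rwa [sub_apply, hFx, sub_zero] at this
  exact le_of_mul_le_mul_right (h7.trans h8) hxpos

/-- The `p`-th powers of the approximation numbers sum to the `p`-th powers of the norms. -/
theorem hasSum_approxNum' {ι : Type*} {p : ℝ} (hp : 0 < p) (T : H →L[ℂ] K) (e : ι → H)
    (he : Orthonormal ℂ e)
    (hT : ∀ x, HasSum (fun i => (inner ℂ (e i) x : ℂ) • T (e i)) (T x))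
    (ho : Pairwise fun i j => inner ℂ (T (e i)) (T (e j)) = 0) {S : ℝ}
    (hS : HasSum (fun i => ‖T (e i)‖ ^ p) S) :
    HasSum (fun k : ℕ => approxNum T k ^ p) S := by
  classical
  -- finiteness of the level sets
  have hfin : ∀ t : ℝ, 0 < t → {i | t < ‖T (e i)‖}.Finite := by
    intro t ht
    have h1 : ∀ᶠ i in cofinite, ‖T (e i)‖ ^ p < t ^ p :=
      hS.summable.tendsto_cofinite_zero.eventually (gt_mem_nhds (by positivity))
    refine Set.Finite.subset h1 fun i hi => ?_
    have hi' : t < ‖T (e i)‖ := hi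
    rw [mem_compl_iff]
    intro hcon
    have hcon' : ‖T (e i)‖ ^ p < t ^ p := hcon
    exact absurd (Real.rpow_le_rpow ht.le hi'.le hp.le) (not_le.2 hcon')
  -- the level sets of the approximation numbers
  have hlev : ∀ t : ℝ, (ht : 0 < t) → {k : ℕ | t < approxNum T k} =
      ((Finset.range (hfin t ht).toFinset.card : Finset ℕ) : Set ℕ) := by
    intro t ht
    ext k
    rw [Finset.coe_range, mem_Iio]
    change t < approxNum T k ↔ _
    constructor
    · intro h
      by_contra hcon
      rw [not_lt] at hcon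
      refine absurd (approxNum_le_of_card T e he hT ho ht.le (hfin t ht).toFinset ?_ hcon)
        (not_le.2 h)
      intro i hi
      simpa using hi
    · intro h
      set J := (hfin t ht).toFinset with hJ
      have hJne : J.Nonempty := Finset.card_pos.1 (by omega)
      set m : ℝ := J.inf' hJne (fun i => ‖T (e i)‖) with hm
      have htm : t < m := by
        rw [hm, Finset.lt_inf'_iff]
        intro i hi
        rw [hJ, Set.Finite.mem_toFinset] at hi
        exact hi
      exact htm.trans_le (le_approxNum_of_card T e he ho (ht.le.trans htm.le) J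
        (fun i hi => Finset.inf'_le _ hi) h)
  let _ : MeasurableSpace ι := ⊤
  have hmeas : ∀ f : ι → ℝ, Measurable f := fun f => measurable_from_top
  have hA := lintegral_rpow_eq_lintegral_meas_lt_mul (Measure.count : Measure ι)
    (f := fun i => ‖T (e i)‖) (Eventually.of_forall fun i => norm_nonneg _)
    (hmeas _).aemeasurable hp
  have hB := lintegral_rpow_eq_lintegral_meas_lt_mul (Measure.count : Measure ℕ)
    (f := fun k => approxNum T k) (Eventually.of_forall fun k => approxNum_nonneg _ _)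
    (measurable_of_countable _).aemeasurable hp
  have hAB : ∫⁻ t in Ioi (0 : ℝ), (Measure.count : Measure ι) {i | t < ‖T (e i)‖} *
        ENNReal.ofReal (t ^ (p - 1)) =
      ∫⁻ t in Ioi (0 : ℝ), (Measure.count : Measure ℕ) {k | t < approxNum T k} *
        ENNReal.ofReal (t ^ (p - 1)) := by
    refine setLIntegral_congr_fun measurableSet_Ioi fun t ht => ?_
    congr 1
    rw [hlev t ht, Measure.count_apply_finset, Finset.card_range]
    rw [Measure.count_apply_finite' (hfin t ht) (by trivial)]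
  rw [lintegral_count' ] at hA
  · rw [lintegral_count'] at hB
    · rw [hAB, ← hB] at hA
      have h1 : ∑' i, ENNReal.ofReal (‖T (e i)‖ ^ p) = ENNReal.ofReal S := by
        rw [← hS.tsum_eq, ENNReal.ofReal_tsum_of_nonneg (fun i => by positivity) hS.summable]
      rw [h1] at hA
      have h2 : ∀ k, 0 ≤ approxNum T k ^ p := fun k =>
        Real.rpow_nonneg (approxNum_nonneg _ _) _
      have h3 : Summable fun k => approxNum T k ^ p := by
        refine (ENNReal.summable_toReal (f := fun k => ENNReal.ofReal (approxNum T k ^ p))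
          ?_).congr fun k => ?_
        · rw [← hA]
          exact ENNReal.ofReal_ne_top
        · rw [ENNReal.toReal_ofReal (h2 k)]
      have h4 : ENNReal.ofReal S = ENNReal.ofReal (∑' k, approxNum T k ^ p) := by
        rw [hA, ENNReal.ofReal_tsum_of_nonneg h2 h3]
      have hS0 : 0 ≤ S := by
        rw [← hS.tsum_eq]
        exact tsum_nonneg fun i => by positivity
      have h5 : S = ∑' k, approxNum T k ^ p :=
        (ENNReal.ofReal_eq_ofReal_iff hS0 (tsum_nonneg h2)).1 h4
      rw [h5]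
      exact h3.hasSum
    · exact measurable_of_countable _
  · exact measurable_from_top

/-- The version for a Hilbert basis. -/
theorem hasSum_approxNum {ι : Type*} {p : ℝ} (hp : 0 < p) (T : H →L[ℂ] K)
    (e : HilbertBasis ι ℂ H)
    (ho : Pairwise fun i j => inner ℂ (T (e i)) (T (e j)) = 0) {S : ℝ}
    (hS : HasSum (fun i => ‖T (e i)‖ ^ p) S) :
    HasSum (fun k : ℕ => approxNum T k ^ p) S := by
  refine hasSum_approxNum' hp T e e.orthonormal (fun x => ?_) ho hS
  have h := (e.hasSum_repr x).mapL T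
  simpa [HilbertBasis.repr_apply_apply] using h

end Pool.Agent.S50X
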