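import Pool.Agent.S50X.Setup

open MeasureTheory Metric Set Filter Topology Module

namespace Pool.Agent.S50X

variable {ι : Type} [Fintype ι]

/-- The functional `f ↦ ker p f x` as a continuous linear map. -/
noncomputable def kerL {p : ℝ} (hp : 0 < p) (x : EC ι) : C(Sph ι, ℝ) →L[ℝ] ℝ :=
  LinearMap.mkContinuous
    { toFun := fun f => ker p f x
      map_add' := fun f g => ker_add hp f g x
      map_smul' := fun c f => by simpa using ker_smul c f x }
    (∫ u, ‖inner ℂ (u : EC ι) x‖ ^ p ∂(sph ι)) (fun f => by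
      show ‖ker p f x‖ ≤ _
      unfold ker
      have hi : Integrable (fun u : Sph ι => ‖inner ℂ (u : EC ι) x‖ ^ p) (sph ι) := by
        have := integrable_kern hp x (1 : C(Sph ι, ℝ))
        simpa using this
      refine (norm_integral_le_integral_norm _).trans ?_
      rw [← integral_mul_const]
      refine integral_mono (integrable_kern hp x f).norm (hi.mul_const _) fun u => ?_
      simp only [norm_mul]
      have h0 : (0 : ℝ) ≤ ‖inner ℂ (u : EC ι) x‖ ^ p := by positivity
      rw [Real.norm_of_nonneg h0]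
      exact mul_le_mul_of_nonneg_left (f.norm_coe_le_norm u) h0)

@[simp] theorem kerL_apply {p : ℝ} (hp : 0 < p) (x : EC ι) (f : C(Sph ι, ℝ)) :
    kerL hp x f = ker p f x := rfl

theorem assembly {p : ℝ} (hp : 0 < p) {Ω : Type*} [TopologicalSpace Ω] [SecondCountableTopology Ω]
    [MeasurableSpace Ω] [OpensMeasurableSpace Ω] (μ : Measure Ω) [IsFiniteMeasure μ]
    (G : Ω → C(Sph ι, ℝ)) (hG : Continuous G)
    (ω₀ : Ω) (hω₀ : ∀ u, 0 < G ω₀ u) (hsupp : ∀ N ∈ 𝓝 ω₀, 0 < μ N)
    (Γ : Ω → EC ι → ℝ) (hΓ : ∀ ω x, Γ ω x = ker p (G ω) x)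
    (hint : ∀ x, Integrable (fun ω => Γ ω x) μ) :
    ∃ (c : ℕ → ℝ) (w : ℕ → Ω) (f : C(Sph ι, ℝ)), (∀ i, 0 ≤ c i) ∧ (∀ u, 0 < f u) ∧
      (∀ u v, (∀ ω, G ω u = G ω v) → f u = f v) ∧
      ∀ x, HasSum (fun i => c i * Γ (w i) x) (∫ ω, Γ ω x ∂μ - ker p f x) := by
  classical
  have : Nonempty Ω := ⟨ω₀⟩
  -- the lower bound at `ω₀`
  obtain ⟨m, hm0, hm⟩ : ∃ m : ℝ, 0 < m ∧ ∀ u, m ≤ G ω₀ u := by
    by_cases hne : Nonempty (Sph ι)
    · obtain ⟨u0, -, hu0⟩ := isCompact_univ.exists_isMinOn (univ_nonempty (α := Sph ι))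
        (G ω₀).continuous.continuousOn
      exact ⟨_, hω₀ u0, fun u => hu0 (mem_univ u)⟩
    · exact ⟨1, one_pos, fun u => absurd ⟨u⟩ hne⟩
  set N : Set Ω := {ω | ‖G ω - G ω₀‖ < m / 2} with hN
  have hNopen : IsOpen N := isOpen_lt (hG.sub continuous_const).norm continuous_const
  have hNmem : N ∈ 𝓝 ω₀ := hNopen.mem_nhds (by simp [hN]; positivity)
  have hNmeas : MeasurableSet N := hNopen.measurableSet
  have hNpos : 0 < μ.real N := by
    rw [measureReal_def]
    exact ENNReal.toReal_pos (hsupp N hNmem).ne' (measure_ne_top _ _)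
  set ε : ℝ := m / 4 * μ.real N / (μ.real univ + 1) with hε
  have hu0 : (0 : ℝ) ≤ μ.real univ := measureReal_nonneg
  have hεpos : 0 < ε := by positivity
  -- the dense sequence
  let w : ℕ → Ω := TopologicalSpace.denseSeq Ω
  have hcov : ∀ ω, ∃ i, ‖G ω - G (w i)‖ < ε := by
    intro ω
    have hopen : IsOpen {ω' | ‖G ω - G ω'‖ < ε} :=
      isOpen_lt (continuous_const.sub hG).norm continuous_const
    obtain ⟨i, hi⟩ := (TopologicalSpace.denseRange_denseSeq Ω).exists_mem_open hopen
      ⟨ω, by simpa using hεpos⟩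
    exact ⟨i, hi⟩
  let s : Ω → ℕ := fun ω => Nat.find (hcov ω)
  have hs : ∀ ω, ‖G ω - G (w (s ω))‖ < ε := fun ω => Nat.find_spec (hcov ω)
  have hsmeas : Measurable s := by
    refine measurable_find hcov fun i => ?_
    exact (isOpen_lt (hG.sub continuous_const).norm continuous_const).measurableSet
  have hGsm : StronglyMeasurable G := hG.stronglyMeasurable
  have hGw : StronglyMeasurable (fun ω => G (w (s ω))) := by
    have h1 : StronglyMeasurable (fun i : ℕ => G (w i)) := StronglyMeasurable.of_discrete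
    exact h1.comp_measurable hsmeas
  have hi1 : IntegrableOn G N μ := by
    refine Measure.integrableOn_of_bounded (M := ‖G ω₀‖ + m / 2) (measure_ne_top _ _)
      hGsm.aestronglyMeasurable ?_
    rw [ae_restrict_iff' hNmeas]
    refine Eventually.of_forall fun ω hω => ?_
    have h1 : ‖G ω‖ ≤ ‖G ω₀‖ + ‖G ω - G ω₀‖ := by
      have := norm_add_le (G ω₀) (G ω - G ω₀)
      simpa using this
    have h2 : ‖G ω - G ω₀‖ < m / 2 := hω
    linarith
  have hi2 : Integrable (fun ω => G ω - G (w (s ω))) μ := by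
    refine Integrable.of_bound (hGsm.sub hGw).aestronglyMeasurable ε ?_
    exact Eventually.of_forall fun ω => (hs ω).le
  set f : C(Sph ι, ℝ) := (∫ ω in N, G ω ∂μ) + ∫ ω in Nᶜ, (G ω - G (w (s ω))) ∂μ with hf
  have hfu : ∀ u, f u = (∫ ω in N, G ω u ∂μ) + ∫ ω in Nᶜ, (G ω u - G (w (s ω)) u) ∂μ := by
    intro u
    rw [hf, ContinuousMap.add_apply, ContinuousMap.integral_apply hi1,
      ContinuousMap.integral_apply hi2.integrableOn]
    rfl
  refine ⟨fun i => μ.real (s ⁻¹' {i} ∩ Nᶜ), w, f, fun i => measureReal_nonneg, ?_, ?_, ?_⟩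
  · -- positivity
    intro u
    rw [hfu]
    have h1 : m / 2 * μ.real N ≤ ∫ ω in N, G ω u ∂μ := by
      have h2 : ∫ ω in N, (m / 2) ∂μ ≤ ∫ ω in N, G ω u ∂μ := by
        refine setIntegral_mono_on (integrable_const _) ?_ hNmeas fun ω hω => ?_
        · exact (ContinuousMap.evalCLM ℝ u).integrable_comp hi1
        · have h3 : ‖G ω - G ω₀‖ < m / 2 := hω
          have h4 := (G ω - G ω₀).norm_coe_le_norm u
          have h5 := hm u
          rw [ContinuousMap.sub_apply, Real.norm_eq_abs, abs_le] at h4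
          linarith [h4.1]
      rw [setIntegral_const] at h2
      simpa [mul_comm] using h2
    have h6 : ‖∫ ω in Nᶜ, (G ω u - G (w (s ω)) u) ∂μ‖ ≤ ε * μ.real univ := by
      refine (norm_setIntegral_le_of_norm_le_const (C := ε) (measure_lt_top _ _) ?_).trans ?_
      · intro ω _
        have h4 := (G ω - G (w (s ω))).norm_coe_le_norm u
        rw [ContinuousMap.sub_apply] at h4
        exact h4.trans (hs ω).le
      · exact mul_le_mul_of_nonneg_left (measureReal_mono (subset_univ _)) hεpos.le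
    have h7 : ε * μ.real univ ≤ m / 4 * μ.real N := by
      rw [hε, div_mul_eq_mul_div, div_le_iff₀ (by positivity)]
      have : 0 ≤ m / 4 * μ.real N := by positivity
      nlinarith
    rw [Real.norm_eq_abs, abs_le] at h6
    have h8 : 0 < m * μ.real N := by positivity
    linarith [h6.1]
  · intro u v huv
    rw [hfu, hfu]
    simp only [huv]
  · intro x
    have hΓm : Integrable (fun ω => Γ (w (s ω)) x) μ := by
      have h1 : Integrable (fun ω => kerL hp x (G ω - G (w (s ω)))) μ :=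
        (kerL hp x).integrable_comp hi2
      refine ((hint x).sub h1).congr (Eventually.of_forall fun ω => ?_)
      simp [hΓ, ker_sub hp]
    have hkf : ker p f x = (∫ ω in N, Γ ω x ∂μ) + ∫ ω in Nᶜ, (Γ ω x - Γ (w (s ω)) x) ∂μ := by
      rw [← kerL_apply hp, hf, map_add, ← ContinuousLinearMap.integral_comp_comm _ hi1,
        ← ContinuousLinearMap.integral_comp_comm _ hi2.integrableOn]
      simp only [map_sub, kerL_apply, ← hΓ]
    have hval : ∫ ω, Γ ω x ∂μ - ker p f x = ∫ ω in Nᶜ, Γ (w (s ω)) x ∂μ := by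
      rw [hkf, ← integral_add_compl hNmeas (hint x),
        integral_sub (hint x).integrableOn hΓm.integrableOn]
      ring
    rw [hval]
    have hun : (⋃ i, s ⁻¹' {i} ∩ Nᶜ) = Nᶜ := by
      ext ω
      simp
    have hsumm := hasSum_integral_iUnion (μ := μ) (f := fun ω => Γ (w (s ω)) x)
      (s := fun i => s ⁻¹' {i} ∩ Nᶜ)
      (fun i => (hsmeas (measurableSet_singleton i)).inter hNmeas.compl)
      (fun i j hij => by
        refine Set.disjoint_left.mpr fun ω h1 h2 => hij ?_
        have h3 : s ω = i := h1.1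
        have h4 : s ω = j := h2.1
        rw [← h3, ← h4])
      (by rw [hun]; exact hΓm.integrableOn)
    rw [hun] at hsumm
    have hfun : (fun i => μ.real (s ⁻¹' {i} ∩ Nᶜ) * Γ (w i) x) =
        fun n => ∫ ω in s ⁻¹' {n} ∩ Nᶜ, Γ (w (s ω)) x ∂μ := by
      funext i
      have h1 : ∀ ω ∈ s ⁻¹' {i} ∩ Nᶜ, Γ (w (s ω)) x = Γ (w i) x := by
        intro ω hω
        have h3 : s ω = i := hω.1
        rw [h3]
      rw [setIntegral_congr_fun ((hsmeas (measurableSet_singleton i)).inter hNmeas.compl) h1,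
        setIntegral_const, smul_eq_mul]
    rw [hfun]
    exact hsumm

end Pool.Agent.S50X
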