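import Pool.Agent.S50X.Setup

open MeasureTheory Metric Set Filter Topology Module
open scoped Pointwise ENNReal NNReal

namespace Pool.Agent.S50X

variable {ι : Type} [Fintype ι]

/-- The action of a unitary map on the unit sphere. -/
noncomputable def sphMap (U : EC ι ≃ₗᵢ[ℂ] EC ι) (u : Sph ι) : Sph ι :=
  ⟨U (u : EC ι), by simp⟩

theorem continuous_sphMap (U : EC ι ≃ₗᵢ[ℂ] EC ι) : Continuous (sphMap U) := by
  unfold sphMap
  exact (U.continuous.comp continuous_subtype_val).subtype_mk _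

/-- A unitary map as a real linear isometry. -/
noncomputable def realIso (U : EC ι ≃ₗᵢ[ℂ] EC ι) : EC ι ≃ₗᵢ[ℝ] EC ι where
  toLinearEquiv := U.toLinearEquiv.restrictScalars ℝ
  norm_map' := fun x => by simp

theorem unitary_rsmul (U : EC ι ≃ₗᵢ[ℂ] EC ι) (r : ℝ) (x : EC ι) : U (r • x) = r • U x :=
  (realIso U).map_smul r x

theorem measurePreserving_unitary (U : EC ι ≃ₗᵢ[ℂ] EC ι) :
    MeasurePreserving U (volume : Measure (EC ι)) volume :=
  (realIso U).measurePreserving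

theorem measurePreserving_sphMap (U : EC ι ≃ₗᵢ[ℂ] EC ι) :
    MeasurePreserving (sphMap U) (sph ι) (sph ι) := by
  refine ⟨(continuous_sphMap U).measurable, ?_⟩
  ext s hs
  rw [Measure.map_apply (continuous_sphMap U).measurable hs]
  unfold sph
  rw [Measure.toSphere_apply' _ hs,
    Measure.toSphere_apply' _ ((continuous_sphMap U).measurable hs)]
  congr 1
  have h : Ioo (0 : ℝ) 1 • ((fun u : Sph ι => (u : EC ι)) '' (sphMap U ⁻¹' s)) =
      U ⁻¹' (Ioo (0 : ℝ) 1 • ((fun u : Sph ι => (u : EC ι)) '' s)) := by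
    ext x
    simp only [mem_preimage, Set.mem_smul]
    constructor
    · rintro ⟨r, hr, y, ⟨u, hu, rfl⟩, rfl⟩
      exact ⟨r, hr, _, ⟨sphMap U u, hu, rfl⟩, by simp [sphMap, unitary_rsmul]⟩
    · rintro ⟨r, hr, y, ⟨u, hu, rfl⟩, h⟩
      refine ⟨r, hr, U.symm (u : EC ι), ⟨⟨U.symm (u : EC ι), by simp⟩, ?_, rfl⟩, ?_⟩
      · simpa [sphMap] using hu
      · apply U.injective
        simpa [unitary_rsmul] using h
  exact (congrArg _ h).trans ((measurePreserving_unitary U).measure_preimage_emb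
    U.toHomeomorph.measurableEmbedding _)

theorem lintegral_polar (f : EC ι → ℝ≥0∞) (hf : Measurable f) [Nonempty ι] :
    ∫⁻ x, f x = ∫⁻ u : Sph ι, (∫⁻ r in Ioi (0 : ℝ),
      ENNReal.ofReal (r ^ (finrank ℝ (EC ι) - 1)) * f (r • (u : EC ι))) ∂(sph ι) := by
  have hm : Measurable fun y : Sph ι × Ioi (0 : ℝ) => f ((y.2 : ℝ) • (y.1 : EC ι)) := by
    fun_prop
  calc
    ∫⁻ x, f x = ∫⁻ x in ({0}ᶜ : Set (EC ι)), f x := by
      rw [restrict_compl_singleton]
    _ = ∫⁻ x : ({0}ᶜ : Set (EC ι)), f x ∂((volume : Measure (EC ι)).comap (↑)) := by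
      rw [lintegral_subtype_comap (measurableSet_singleton _).compl]
    _ = ∫⁻ y, f ((y.2 : ℝ) • (y.1 : EC ι)) ∂((sph ι).prod
        (Measure.volumeIoiPow (finrank ℝ (EC ι) - 1))) := by
      have := (volume : Measure (EC ι)).measurePreserving_homeomorphUnitSphereProd.lintegral_comp hm
      unfold sph
      rw [← this]
      refine lintegral_congr fun x => ?_
      congr 1
      have h := congrArg Subtype.val ((homeomorphUnitSphereProd (EC ι)).symm_apply_apply x)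
      rw [homeomorphUnitSphereProd_symm_apply_coe] at h
      exact h.symm
    _ = ∫⁻ u : Sph ι, (∫⁻ r : Ioi (0 : ℝ), f ((r : ℝ) • (u : EC ι))
        ∂(Measure.volumeIoiPow (finrank ℝ (EC ι) - 1))) ∂(sph ι) :=
      lintegral_prod _ hm.aemeasurable
    _ = _ := by
      refine lintegral_congr fun u => ?_
      have hg : Measurable fun r : ℝ => f (r • (u : EC ι)) := by fun_prop
      unfold Measure.volumeIoiPow
      rw [lintegral_withDensity_eq_lintegral_mul _ (by fun_prop) (by fun_prop)]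
      simp only [Pi.mul_apply]
      rw [lintegral_subtype_comap measurableSet_Ioi
        (fun r : ℝ => ENNReal.ofReal (r ^ (finrank ℝ (EC ι) - 1)) * f (r • (u : EC ι)))]

theorem radial {p : ℝ} (hp : 0 < p) {c : ℝ} (hc : 0 < c) {n : ℕ} (hn : 0 < n) :
    ∫⁻ r in Ioi (0 : ℝ), ENNReal.ofReal (r ^ (2 * n - 1)) *
      ENNReal.ofReal (r ^ p * Real.exp (-(c * r ^ 2))) =
      ENNReal.ofReal (Real.Gamma (p / 2 + n) / 2 * c ^ (-(p / 2 + n))) := by
  have hn1 : (1 : ℝ) ≤ n := by exact_mod_cast hn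
  have hs : (-1 : ℝ) < p + 2 * n - 1 := by linarith
  have hint := integrableOn_rpow_mul_exp_neg_mul_rpow (p := 2) hs (by norm_num) hc
  have hval := _root_.integral_rpow_mul_exp_neg_mul_rpow (p := 2) (by norm_num) hs hc
  have e1 : ∀ r ∈ Ioi (0 : ℝ), ENNReal.ofReal (r ^ (2 * n - 1)) *
      ENNReal.ofReal (r ^ p * Real.exp (-(c * r ^ 2))) =
      ENNReal.ofReal (r ^ (p + 2 * n - 1) * Real.exp (-c * r ^ (2 : ℝ))) := by
    intro r hr
    have hr0 : 0 < r := hr
    rw [← ENNReal.ofReal_mul (by positivity)]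
    congr 1
    have e2 : r ^ (p + 2 * n - 1) = r ^ p * r ^ (2 * n - 1) := by
      rw [← Real.rpow_natCast r (2 * n - 1), ← Real.rpow_add hr0]
      congr 1
      rw [Nat.cast_sub (by omega)]
      push_cast
      ring
    have e3 : -c * r ^ (2 : ℝ) = -(c * r ^ 2) := by
      rw [Real.rpow_two]
      ring
    rw [e2, e3]
    ring
  rw [setLIntegral_congr_fun measurableSet_Ioi e1, ← ofReal_integral_eq_lintegral_ofReal hint]
  · rw [hval]
    congr 1
    have e4 : (p + 2 * n - 1 + 1) / 2 = p / 2 + n := by ring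
    have e5 : -(p + 2 * n - 1 + 1) / 2 = -(p / 2 + n) := by ring
    rw [e4, e5]
    ring
  · refine (ae_restrict_iff' measurableSet_Ioi).2 (Eventually.of_forall fun r hr => ?_)
    have hr0 : 0 < r := hr
    positivity

theorem finrank_EC : finrank ℝ (EC ι) = 2 * Fintype.card ι := by
  rw [finrank_real_of_complex, finrank_euclideanSpace]

/-- The constant of the radial integral. -/
noncomputable def kc (ι : Type) [Fintype ι] (p : ℝ) : ℝ :=
  Real.Gamma (p / 2 + Fintype.card ι) / 2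

theorem kc_pos {p : ℝ} (hp : 0 < p) : 0 < kc ι p := by
  unfold kc
  have : 0 < Real.Gamma (p / 2 + Fintype.card ι) := Real.Gamma_pos_of_pos (by positivity)
  positivity

theorem gauss_polar [Nonempty ι] {p : ℝ} (hp : 0 < p) (A : EC ι →L[ℂ] EC ι)
    (hA : Function.Injective A) (x : EC ι) :
    ∫⁻ y : EC ι, ENNReal.ofReal (‖inner ℂ y x‖ ^ p * Real.exp (-‖A y‖ ^ 2)) =
      ENNReal.ofReal (kc ι p) * ∫⁻ u : Sph ι, ENNReal.ofReal (‖inner ℂ (u : EC ι) x‖ ^ p *
        (‖A (u : EC ι)‖ ^ 2) ^ (-(p / 2 + Fintype.card ι))) ∂(sph ι) := by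
  have hcont : Continuous fun y : EC ι => ‖inner ℂ y x‖ ^ p * Real.exp (-‖A y‖ ^ 2) := by
    have h1 : Continuous fun y : EC ι => ‖inner ℂ y x‖ := by fun_prop
    have h2 : Continuous fun y : EC ι => ‖inner ℂ y x‖ ^ p :=
      h1.rpow_const (fun _ => Or.inr hp.le)
    exact h2.mul (by fun_prop)
  rw [lintegral_polar _ (by fun_prop), ← lintegral_const_mul']
  swap
  · exact ENNReal.ofReal_ne_top
  refine lintegral_congr fun u => ?_
  have hu : ‖(u : EC ι)‖ = 1 := by simp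
  have hu0 : (u : EC ι) ≠ 0 := by
    intro h
    rw [h, norm_zero] at hu
    exact zero_ne_one hu
  have hc : 0 < ‖A (u : EC ι)‖ ^ 2 := by
    have : A (u : EC ι) ≠ 0 := fun h => hu0 (hA (by simpa using h))
    positivity
  have e1 : ∀ r ∈ Ioi (0 : ℝ), ENNReal.ofReal (r ^ (finrank ℝ (EC ι) - 1)) *
      ENNReal.ofReal (‖inner ℂ (r • (u : EC ι)) x‖ ^ p *
        Real.exp (-‖A (r • (u : EC ι))‖ ^ 2)) =
      ENNReal.ofReal (‖inner ℂ (u : EC ι) x‖ ^ p) *
      (ENNReal.ofReal (r ^ (2 * Fintype.card ι - 1)) *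
      ENNReal.ofReal (r ^ p * Real.exp (-(‖A (u : EC ι)‖ ^ 2 * r ^ 2)))) := by
    intro r hr
    have hr0 : 0 < r := hr
    have e2 : ‖inner ℂ (r • (u : EC ι)) x‖ = r * ‖inner ℂ (u : EC ι) x‖ := by
      rw [show r • (u : EC ι) = (r : ℂ) • (u : EC ι) from (Complex.coe_smul r _).symm,
        inner_smul_left, norm_mul]
      simp [abs_of_pos hr0]
    have e3 : ‖A (r • (u : EC ι))‖ = r * ‖A (u : EC ι)‖ := by
      rw [show r • (u : EC ι) = (r : ℂ) • (u : EC ι) from (Complex.coe_smul r _).symm,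
        map_smul, norm_smul]
      simp [abs_of_pos hr0]
    rw [e2, e3, finrank_EC, Real.mul_rpow hr0.le (norm_nonneg _),
      ← ENNReal.ofReal_mul (by positivity), ← ENNReal.ofReal_mul (by positivity),
      ← ENNReal.ofReal_mul (by positivity)]
    congr 1
    have e4 : -(r * ‖A (u : EC ι)‖) ^ 2 = -(‖A (u : EC ι)‖ ^ 2 * r ^ 2) := by ring
    rw [e4]
    ring
  rw [setLIntegral_congr_fun measurableSet_Ioi e1, lintegral_const_mul' _ _ ENNReal.ofReal_ne_top,
    radial hp hc Fintype.card_pos, ← ENNReal.ofReal_mul (by positivity),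
    ← ENNReal.ofReal_mul (kc_pos hp).le]
  congr 1
  unfold kc
  ring

/-- The map `a (1 - P) + b P`, `P` the orthogonal projection on `W`. -/
noncomputable def Bop (W : Submodule ℂ (EC ι)) (a b : ℝ) : EC ι →L[ℂ] EC ι :=
  (a : ℂ) • (ContinuousLinearMap.id ℂ (EC ι) - W.starProjection) + (b : ℂ) • W.starProjection

theorem Bop_apply (W : Submodule ℂ (EC ι)) (a b : ℝ) (x : EC ι) :
    Bop W a b x = (a : ℂ) • (x - W.starProjection x) + (b : ℂ) • W.starProjection x := rfl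

theorem proj_proj (W : Submodule ℂ (EC ι)) (x : EC ι) :
    W.starProjection (W.starProjection x) = W.starProjection x :=
  Submodule.starProjection_eq_self_iff.2 (W.starProjection_apply_mem x)

theorem norm_Bop (W : Submodule ℂ (EC ι)) (a b : ℝ) (x : EC ι) :
    ‖Bop W a b x‖ ^ 2 = a ^ 2 * ‖x - W.starProjection x‖ ^ 2 + b ^ 2 * ‖W.starProjection x‖ ^ 2 := by
  have h0 : inner ℂ (x - W.starProjection x) (W.starProjection x) = 0 :=
    Submodule.starProjection_inner_eq_zero _ _ (W.starProjection_apply_mem x)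
  rw [Bop_apply]
  have h1 : inner ℂ ((a : ℂ) • (x - W.starProjection x)) ((b : ℂ) • W.starProjection x) = 0 := by
    rw [inner_smul_left, inner_smul_right, h0]
    simp
  have h2 := norm_add_sq_eq_norm_sq_add_norm_sq_of_inner_eq_zero _ _ h1
  rw [← pow_two, ← pow_two, ← pow_two] at h2
  rw [h2, norm_smul, norm_smul]
  simp [mul_pow]

theorem inner_Bop (W : Submodule ℂ (EC ι)) (a b : ℝ) (x y : EC ι) :
    inner ℂ (Bop W a b x) y = inner ℂ x (Bop W a b y) := by
  have h := W.inner_starProjection_left_eq_right x y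
  simp only [Bop_apply, inner_add_left, inner_add_right, inner_smul_left, inner_smul_right,
    inner_sub_left, inner_sub_right, h, Complex.conj_ofReal]

theorem Bop_inv (W : Submodule ℂ (EC ι)) {a b : ℝ} (ha : a ≠ 0) (hb : b ≠ 0) (x : EC ι) :
    Bop W a⁻¹ b⁻¹ (Bop W a b x) = x := by
  have ha' : (a : ℂ) ≠ 0 := by exact_mod_cast ha
  have hb' : (b : ℂ) ≠ 0 := by exact_mod_cast hb
  simp only [Bop_apply, map_add, map_smul, map_sub, proj_proj, sub_self, smul_zero, zero_add]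
  push_cast
  rw [add_sub_cancel_right, smul_smul, smul_smul, mul_inv_cancel₀ ha', mul_inv_cancel₀ hb',
    one_smul, one_smul, sub_add_cancel]

theorem det_Bop (W : Submodule ℂ (EC ι)) (a b : ℝ) :
    LinearMap.det (Bop W a b : EC ι →ₗ[ℂ] EC ι) =
      (a : ℂ) ^ (Fintype.card ι - finrank ℂ W) * (b : ℂ) ^ finrank ℂ W := by
  have he : W ≤ W.comap (Bop W a b : EC ι →ₗ[ℂ] EC ι) := by
    intro x hx
    have hx' : W.starProjection x = x := Submodule.starProjection_eq_self_iff.2 hx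
    simp only [Submodule.mem_comap, ContinuousLinearMap.coe_coe, Bop_apply, hx', sub_self,
      smul_zero, zero_add]
    exact W.smul_mem _ hx
  rw [LinearMap.det_eq_det_mul_det W _ he]
  have h1 : (Bop W a b : EC ι →ₗ[ℂ] EC ι).restrict he = (b : ℂ) • LinearMap.id := by
    ext ⟨x, hx⟩
    have hx' : W.starProjection x = x := Submodule.starProjection_eq_self_iff.2 hx
    simp [LinearMap.restrict_apply, Bop_apply, hx']
  have h2 : W.mapQ W (Bop W a b : EC ι →ₗ[ℂ] EC ι) he = (a : ℂ) • LinearMap.id := by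
    apply LinearMap.ext
    intro y
    obtain ⟨x, rfl⟩ := Submodule.Quotient.mk_surjective W y
    rw [Submodule.mapQ_apply, LinearMap.smul_apply, LinearMap.id_apply,
      ← Submodule.Quotient.mk_smul, Submodule.Quotient.eq]
    have : (Bop W a b : EC ι →ₗ[ℂ] EC ι) x - (a : ℂ) • x =
        ((b : ℂ) - (a : ℂ)) • W.starProjection x := by
      simp only [ContinuousLinearMap.coe_coe, Bop_apply, smul_sub, sub_smul]
      abel
    rw [this]
    exact W.smul_mem _ (W.starProjection_apply_mem x)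
  have h3 : finrank ℂ (EC ι ⧸ W) = Fintype.card ι - finrank ℂ W := by
    have := W.finrank_quotient_add_finrank
    rw [finrank_euclideanSpace] at this
    omega
  rw [h1, h2, LinearMap.det_smul, LinearMap.det_smul, LinearMap.det_id, LinearMap.det_id, h3,
    mul_one, mul_one, mul_comm]

theorem det_Bop_real (W : Submodule ℂ (EC ι)) (a b : ℝ) :
    LinearMap.det ((Bop W a b : EC ι →ₗ[ℂ] EC ι).restrictScalars ℝ) =
      (a ^ (Fintype.card ι - finrank ℂ W) * b ^ finrank ℂ W) ^ 2 := by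
  rw [LinearMap.det_restrictScalars, det_Bop, Algebra.norm_complex_apply, Complex.normSq_eq_norm_sq]
  rw [norm_mul, norm_pow, norm_pow, Complex.norm_real, Complex.norm_real, mul_pow, mul_pow]
  simp only [Real.norm_eq_abs, ← pow_mul, mul_comm _ 2]
  simp [pow_mul]

theorem lintegral_Bop [Nonempty ι] (W : Submodule ℂ (EC ι)) {a b : ℝ} (ha : 0 < a) (hb : 0 < b)
    (f : EC ι → ℝ≥0∞) :
    ENNReal.ofReal ((a ^ (Fintype.card ι - finrank ℂ W) * b ^ finrank ℂ W) ^ 2) *
      ∫⁻ y : EC ι, f (Bop W a b y) = ∫⁻ y : EC ι, f y := by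
  set D : ℝ := (a ^ (Fintype.card ι - finrank ℂ W) * b ^ finrank ℂ W) ^ 2 with hD
  have hD0 : 0 < D := by positivity
  set g : EC ι →ₗ[ℝ] EC ι := (Bop W a b : EC ι →ₗ[ℂ] EC ι).restrictScalars ℝ with hg
  have hdet : LinearMap.det g = D := det_Bop_real W a b
  have h := Measure.map_linearMap_addHaar_eq_smul_addHaar (volume : Measure (EC ι)) (f := g)
    (by rw [hdet]; exact hD0.ne')
  have hemb : MeasurableEmbedding g := by
    have hne : LinearMap.det g ≠ 0 := by rw [hdet]; exact hD0.ne'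
    have : (g : EC ι → EC ι) =
        ((LinearMap.equivOfDetNeZero g hne).toContinuousLinearEquiv : EC ι → EC ι) := by
      ext x
      rfl
    rw [this]
    exact ((LinearMap.equivOfDetNeZero g hne).toContinuousLinearEquiv).toHomeomorph.measurableEmbedding
  have h1 : ∫⁻ y : EC ι, f (Bop W a b y) = ∫⁻ y, f y ∂((volume : Measure (EC ι)).map g) :=
    (hemb.lintegral_map f).symm
  rw [h1, h, lintegral_smul_measure, hdet, smul_eq_mul, ← mul_assoc,
    ← ENNReal.ofReal_mul hD0.le, abs_of_pos (inv_pos.2 hD0), mul_inv_cancel₀ hD0.ne',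
    ENNReal.ofReal_one, one_mul]

theorem exists_unitary (e y : EC ι) (he : ‖e‖ = 1) (hy : ‖y‖ = 1) :
    ∃ U : EC ι ≃ₗᵢ[ℂ] EC ι, U e = y := by
  have hmem : e ∈ Submodule.span ℂ {e} := Submodule.mem_span_singleton_self e
  let L : (Submodule.span ℂ {e}) →ₗᵢ[ℂ] EC ι :=
    (Submodule.span ℂ {y}).subtypeₗᵢ.comp
      ((LinearIsometryEquiv.toSpanUnitSingleton (𝕜 := ℂ) y hy).toLinearIsometry.comp
        (LinearIsometryEquiv.toSpanUnitSingleton (𝕜 := ℂ) e he).symm.toLinearIsometry)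
  refine ⟨L.extend.toLinearIsometryEquiv rfl, ?_⟩
  rw [LinearIsometry.toLinearIsometryEquiv_apply]
  have h1 := L.extend_apply ⟨e, hmem⟩
  have h2 : (LinearIsometryEquiv.toSpanUnitSingleton (𝕜 := ℂ) e he).symm ⟨e, hmem⟩ = 1 := by
    rw [LinearIsometryEquiv.symm_apply_eq, LinearIsometryEquiv.toSpanUnitSingleton_apply]
    simp
  change L.extend e = _ at h1
  rw [h1]
  simp [L, h2]

instance isOpenPosMeasure_sph : (sph ι).IsOpenPosMeasure := by
  unfold sph
  infer_instance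

/-- The average of `|⟨u, y⟩| ^ p` over the sphere. -/
noncomputable def JJ (p : ℝ) (y : EC ι) : ℝ := ∫ u : Sph ι, ‖inner ℂ (u : EC ι) y‖ ^ p ∂(sph ι)

theorem JJ_unitary (p : ℝ) (U : EC ι ≃ₗᵢ[ℂ] EC ι) (y : EC ι) : JJ p (U y) = JJ p y := by
  unfold JJ
  have hemb : MeasurableEmbedding (sphMap U) := by
    refine (continuous_sphMap U).measurableEmbedding fun u v h => ?_
    have h' := congrArg Subtype.val h
    exact Subtype.ext (U.injective h')
  rw [← (measurePreserving_sphMap U).integral_comp hemb]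
  refine integral_congr_ae (Eventually.of_forall fun u => ?_)
  simp [sphMap]

theorem JJ_smul {p : ℝ} {c : ℝ} (hc : 0 ≤ c) (y : EC ι) :
    JJ p ((c : ℂ) • y) = c ^ p * JJ p y := by
  unfold JJ
  rw [← integral_const_mul]
  refine integral_congr_ae (Eventually.of_forall fun u => ?_)
  simp only [inner_smul_right, norm_mul, Complex.norm_real, Real.norm_eq_abs, abs_of_nonneg hc]
  rw [Real.mul_rpow hc (norm_nonneg _)]

theorem JJ_eq {p : ℝ} (hp : 0 < p) {e : EC ι} (he : ‖e‖ = 1) (y : EC ι) :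
    JJ p y = ‖y‖ ^ p * JJ p e := by
  by_cases hy : y = 0
  · subst hy
    simp [JJ, Real.zero_rpow hp.ne']
  · have hn : 0 < ‖y‖ := norm_pos_iff.2 hy
    have h1 : ‖((‖y‖⁻¹ : ℝ) : ℂ) • y‖ = 1 := by
      rw [norm_smul, Complex.norm_real, norm_inv, norm_norm, inv_mul_cancel₀ hn.ne']
    obtain ⟨U, hU⟩ := exists_unitary e _ he h1
    have h2 : y = ((‖y‖ : ℝ) : ℂ) • U e := by
      rw [hU, smul_smul, ← Complex.ofReal_mul, mul_inv_cancel₀ hn.ne', Complex.ofReal_one, one_smul]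
    conv_lhs => rw [h2]
    rw [JJ_smul hn.le, JJ_unitary]

theorem JJ_pos {p : ℝ} (hp : 0 < p) {e : EC ι} (he : ‖e‖ = 1) : 0 < JJ p e := by
  unfold JJ
  refine Continuous.integral_pos_of_hasCompactSupport_nonneg_nonzero
    (x := (⟨e, by simpa using he⟩ : Sph ι)) (continuous_kern hp e)
    (HasCompactSupport.of_compactSpace _) (fun u => by positivity) ?_
  have : ‖inner ℂ e e‖ = 1 := by
    rw [inner_self_eq_norm_sq_to_K, he]
    simp
  simp [he]

theorem integrable_cont {f : Sph ι → ℝ} (hf : Continuous f) : Integrable f (sph ι) :=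
  hf.integrable_of_hasCompactSupport (HasCompactSupport.of_compactSpace _)

theorem integral_Bop [Nonempty ι] {p : ℝ} (hp : 0 < p) (W : Submodule ℂ (EC ι)) {a b : ℝ}
    (ha : 0 < a) (hb : 0 < b) (x : EC ι) :
    ∫ u : Sph ι, ‖inner ℂ (u : EC ι) x‖ ^ p *
      (‖Bop W a⁻¹ b⁻¹ (u : EC ι)‖ ^ 2) ^ (-(p / 2 + Fintype.card ι)) ∂(sph ι) =
      (a ^ (Fintype.card ι - finrank ℂ W) * b ^ finrank ℂ W) ^ 2 * JJ p (Bop W a b x) := by
  have hinj : Function.Injective (Bop W a⁻¹ b⁻¹) := by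
    intro y z h
    have h1 := Bop_inv W (inv_ne_zero ha.ne') (inv_ne_zero hb.ne') y
    have h2 := Bop_inv W (inv_ne_zero ha.ne') (inv_ne_zero hb.ne') z
    rw [← h1, h, h2]
  have g1 := gauss_polar hp (Bop W a⁻¹ b⁻¹) hinj x
  have g2 := gauss_polar hp (ContinuousLinearMap.id ℂ (EC ι)) Function.injective_id (Bop W a b x)
  have g3 := lintegral_Bop W ha hb
    (fun y => ENNReal.ofReal (‖inner ℂ y x‖ ^ p * Real.exp (-‖Bop W a⁻¹ b⁻¹ y‖ ^ 2)))
  simp only [Bop_inv W ha.ne' hb.ne', inner_Bop] at g3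
  simp only [ContinuousLinearMap.id_apply] at g2
  rw [g2, g1] at g3
  have hK : ENNReal.ofReal (kc ι p) ≠ 0 := by
    rw [ne_eq, ENNReal.ofReal_eq_zero, not_le]
    exact kc_pos hp
  rw [← mul_assoc, mul_comm (ENNReal.ofReal _) (ENNReal.ofReal (kc ι p)), mul_assoc,
    ENNReal.mul_right_inj hK ENNReal.ofReal_ne_top] at g3
  have hcpos : ∀ u : Sph ι, 0 < ‖Bop W a⁻¹ b⁻¹ (u : EC ι)‖ ^ 2 := by
    intro u
    have hu : ‖(u : EC ι)‖ = 1 := by simp
    have hu0 : (u : EC ι) ≠ 0 := by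
      intro h
      rw [h, norm_zero] at hu
      exact zero_ne_one hu
    have : Bop W a⁻¹ b⁻¹ (u : EC ι) ≠ 0 := fun h => hu0 (hinj (by simpa using h))
    positivity
  have hc1 : Continuous fun u : Sph ι => ‖inner ℂ (u : EC ι) x‖ ^ p *
      (‖Bop W a⁻¹ b⁻¹ (u : EC ι)‖ ^ 2) ^ (-(p / 2 + Fintype.card ι)) := by
    refine (continuous_kern hp x).mul ?_
    have : Continuous fun u : Sph ι => ‖Bop W a⁻¹ b⁻¹ (u : EC ι)‖ ^ 2 := by fun_prop
    exact this.rpow_const (fun u => Or.inl (hcpos u).ne')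
  have hc2 : Continuous fun u : Sph ι => ‖inner ℂ (u : EC ι) (Bop W a b x)‖ ^ p :=
    continuous_kern hp _
  have e1 : ∫⁻ u : Sph ι, ENNReal.ofReal (‖inner ℂ (u : EC ι) (Bop W a b x)‖ ^ p *
      (‖(u : EC ι)‖ ^ 2) ^ (-(p / 2 + Fintype.card ι))) ∂(sph ι) =
      ENNReal.ofReal (JJ p (Bop W a b x)) := by
    unfold JJ
    rw [ofReal_integral_eq_lintegral_ofReal (integrable_cont hc2)
      (Eventually.of_forall fun u => by positivity)]
    refine lintegral_congr fun u => ?_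
    simp
  have e2 := ofReal_integral_eq_lintegral_ofReal (integrable_cont hc1)
      (Eventually.of_forall fun u => by positivity)
  rw [e1, ← e2, ← ENNReal.ofReal_mul (by positivity)] at g3
  have hJ : 0 ≤ JJ p (Bop W a b x) := by
    unfold JJ
    exact integral_nonneg fun u => by positivity
  have h0 : 0 ≤ ∫ u : Sph ι, ‖inner ℂ (u : EC ι) x‖ ^ p *
      (‖Bop W a⁻¹ b⁻¹ (u : EC ι)‖ ^ 2) ^ (-(p / 2 + Fintype.card ι)) ∂(sph ι) :=
    integral_nonneg fun u => by positivity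
  exact ((ENNReal.ofReal_eq_ofReal_iff (by positivity) h0).1 g3).symm

theorem spectral {ι : Type} [Fintype ι] [Nonempty ι] {p : ℝ} (hp : 0 < p) :
    ∃ C : ℝ, 0 < C ∧ ∀ (W : Submodule ℂ (EC ι)) (t₁ t₂ : ℝ), 0 < t₁ → 0 < t₂ → ∀ x : EC ι,
      (t₁ * ‖x - W.starProjection x‖ ^ 2 + t₂ * ‖W.starProjection x‖ ^ 2) ^ (p / 2) =
        C * (t₁ ^ (Fintype.card ι - Module.finrank ℂ W) * t₂ ^ Module.finrank ℂ W)⁻¹ *
        ∫ u : Sph ι, ‖inner ℂ (u : EC ι) x‖ ^ p *
          (t₁⁻¹ * ‖(u : EC ι) - W.starProjection (u : EC ι)‖ ^ 2 +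
            t₂⁻¹ * ‖W.starProjection (u : EC ι)‖ ^ 2) ^ (-(p / 2 + Fintype.card ι)) ∂(sph ι) := by
  classical
  obtain ⟨e, he⟩ : ∃ e : EC ι, ‖e‖ = 1 :=
    ⟨EuclideanSpace.single (Classical.arbitrary ι) 1, by simp⟩
  have hJ := JJ_pos hp he
  refine ⟨(JJ p e)⁻¹, inv_pos.2 hJ, fun W t₁ t₂ h1 h2 x => ?_⟩
  have hs1 : Real.sqrt t₁ ^ 2 = t₁ := Real.sq_sqrt h1.le
  have hs2 : Real.sqrt t₂ ^ 2 = t₂ := Real.sq_sqrt h2.le
  have key := integral_Bop hp W (Real.sqrt_pos.2 h1) (Real.sqrt_pos.2 h2) x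
  simp only [norm_Bop, inv_pow, hs1, hs2] at key
  rw [key, JJ_eq hp he (Bop W (Real.sqrt t₁) (Real.sqrt t₂) x)]
  have e1 : t₁ * ‖x - W.starProjection x‖ ^ 2 + t₂ * ‖W.starProjection x‖ ^ 2 =
      ‖Bop W (Real.sqrt t₁) (Real.sqrt t₂) x‖ ^ 2 := by
    rw [norm_Bop, hs1, hs2]
  have e2 : (‖Bop W (Real.sqrt t₁) (Real.sqrt t₂) x‖ ^ 2) ^ (p / 2) =
      ‖Bop W (Real.sqrt t₁) (Real.sqrt t₂) x‖ ^ p := by
    rw [← Real.rpow_two, ← Real.rpow_mul (norm_nonneg _)]
    congr 1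
    ring
  have e3 : (Real.sqrt t₁ ^ (Fintype.card ι - finrank ℂ W) * Real.sqrt t₂ ^ finrank ℂ W) ^ 2 =
      t₁ ^ (Fintype.card ι - finrank ℂ W) * t₂ ^ finrank ℂ W := by
    rw [mul_pow, ← pow_mul, ← pow_mul, mul_comm _ 2, mul_comm _ 2, pow_mul, pow_mul, hs1, hs2]
  rw [e1, e2, e3]
  have hD : t₁ ^ (Fintype.card ι - finrank ℂ W) * t₂ ^ finrank ℂ W ≠ 0 := by positivity
  field_simp

end Pool.Agent.S50X
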