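import Pool.Agent.S50X.BlockD
import Pool.Agent.S50X.Spectral
import Pool.Agent.S50X.MatK

open MeasureTheory Metric Set Filter Topology Module

namespace Pool.Agent.S50X

variable {n : ℕ}

/-- Algebra of the kernel. -/
theorem kernel_alg {β E a τ : ℝ} (ha : 0 ≤ a) (haE : a < E) (hτ : |1 - 2 * τ| ≤ 1) :
    ((E - a) ^ n * (E + a) ^ n)⁻¹ * ((E - a)⁻¹ * (1 - τ) + (E + a)⁻¹ * τ) ^ (-(β + 2 * n)) =
      rr β n E a (1 - 2 * τ) := by
  have h1 : 0 < E - a := by linarith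
  have h2 : 0 < E + a := by linarith
  have h3 := base_pos ha haE hτ
  have h4 := sq_pos' ha haE
  have h5 : (E - a)⁻¹ * (1 - τ) + (E + a)⁻¹ * τ = (E + a * (1 - 2 * τ)) / (E ^ 2 - a ^ 2) := by
    have : E ^ 2 - a ^ 2 = (E - a) * (E + a) := by ring
    rw [this]
    field_simp
    ring
  have h6 : (E - a) ^ n * (E + a) ^ n = (E ^ 2 - a ^ 2) ^ (n : ℝ) := by
    rw [Real.rpow_natCast, ← mul_pow]
    ring_nf
  rw [h5, h6, Real.div_rpow h3.le h4.le, ← Real.rpow_neg h4.le, div_eq_mul_inv,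
    ← Real.rpow_neg h4.le, rr]
  have h7 : β + n = -n + - -(β + 2 * n) := by ring
  rw [h7, Real.rpow_add h4]
  ring

theorem ellipsoid (hn : 0 < n) {β : ℝ} (hβ : 0 < β) : ∃ C : ℝ, 0 < C ∧
    ∀ (x : EC (Fin n × Fin 2)) (g : EC (Fin 2)) (E a : ℝ), 0 ≤ a → a < E →
      ((E - a) * (‖x‖ ^ 2 * ‖g‖ ^ 2) + 2 * a * ‖mulE x g‖ ^ 2) ^ β =
        C * ∫ u : Sph (Fin n × Fin 2), ‖inner ℂ (u : EC (Fin n × Fin 2)) x‖ ^ (2 * β) *
          (‖g‖ ^ (2 * β) * rr β n E a (sg u g)) ∂(sph (Fin n × Fin 2)) := by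
  have : NeZero n := ⟨hn.ne'⟩
  obtain ⟨C, hC, hS⟩ := spectral (ι := Fin n × Fin 2) (p := 2 * β) (by positivity)
  refine ⟨C, hC, fun x g E a ha haE => ?_⟩
  by_cases hg : g = 0
  · subst hg
    have h0 : (0 : ℝ) ^ (2 * β) = 0 := Real.zero_rpow (by positivity)
    have h1 : mulE x 0 = 0 := by simp [mulE]
    simp [h0, h1, Real.zero_rpow hβ.ne']
  have hg2 : 0 < ‖g‖ ^ 2 := by positivity
  have h1 : 0 < E - a := by linarith
  have h2 : 0 < E + a := by linarith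
  have key := hS (LinearMap.range (outer n g)) (E - a) (E + a) h1 h2 x
  have hcard : Fintype.card (Fin n × Fin 2) = 2 * n := by simp [mul_comm]
  rw [norm_sub_starProj hg, norm_starProj hg, finrank_outer hg, hcard] at key
  have hpow : ‖g‖ ^ (2 * β) = (‖g‖ ^ 2) ^ β := by
    rw [Real.rpow_mul (norm_nonneg g), Real.rpow_two]
  have hl : ((E - a) * (‖x‖ ^ 2 * ‖g‖ ^ 2) + 2 * a * ‖mulE x g‖ ^ 2) ^ β =
      ‖g‖ ^ (2 * β) * ((E - a) * (‖x‖ ^ 2 - ‖mulE x g‖ ^ 2 / ‖g‖ ^ 2) +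
        (E + a) * (‖mulE x g‖ ^ 2 / ‖g‖ ^ 2)) ^ (2 * β / 2) := by
    have h3 : ‖mulE x g‖ ^ 2 / ‖g‖ ^ 2 ≤ ‖x‖ ^ 2 := by
      rw [div_le_iff₀ hg2]
      exact mulE_le x g
    have h4 : 0 ≤ ‖mulE x g‖ ^ 2 / ‖g‖ ^ 2 := by positivity
    rw [hpow, mul_div_cancel_left₀ β two_ne_zero, ← Real.mul_rpow hg2.le]
    · congr 1
      field_simp
      ring
    · have := mul_nonneg h1.le (sub_nonneg.mpr h3)
      have := mul_nonneg h2.le h4
      linarith
  rw [hl, key]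
  have hi : ∀ u : Sph (Fin n × Fin 2),
      ‖inner ℂ (u : EC (Fin n × Fin 2)) x‖ ^ (2 * β) *
        ((E - a)⁻¹ * ‖(u : EC (Fin n × Fin 2)) -
            (LinearMap.range (outer n g)).starProjection (u : EC (Fin n × Fin 2))‖ ^ 2 +
          (E + a)⁻¹ * ‖(LinearMap.range (outer n g)).starProjection
            (u : EC (Fin n × Fin 2))‖ ^ 2) ^ (-(2 * β / 2 + ((2 * n : ℕ) : ℝ))) =
      (‖g‖ ^ (2 * β))⁻¹ * ((E - a) ^ n * (E + a) ^ n) *
        (‖inner ℂ (u : EC (Fin n × Fin 2)) x‖ ^ (2 * β) *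
          (‖g‖ ^ (2 * β) * rr β n E a (sg u g))) := by
    intro u
    rw [norm_sub_starProj hg, norm_starProj hg, norm_sph, one_pow]
    have h5 : -(2 * β / 2 + ((2 * n : ℕ) : ℝ)) = -(β + 2 * n) := by
      push_cast
      ring
    rw [h5]
    have h6 := kernel_alg (n := n) (β := β) (E := E) (a := a)
      (τ := ‖mulE (u : EC (Fin n × Fin 2)) g‖ ^ 2 / ‖g‖ ^ 2) ha haE (sg_abs u g)
    have h7 : sg u g = 1 - 2 * (‖mulE (u : EC (Fin n × Fin 2)) g‖ ^ 2 / ‖g‖ ^ 2) := rfl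
    rw [h7, ← h6]
    have h8 : 0 < ‖g‖ ^ (2 * β) := by positivity
    field_simp
  simp_rw [hi]
  rw [integral_const_mul]
  have h8 : 0 < ‖g‖ ^ (2 * β) := by positivity
  have h9 : 2 * n - n = n := by omega
  rw [h9]
  field_simp

theorem abs_rr_le {β m E a s : ℝ} (hβ : 0 < β) (hm : 1 ≤ m) (ha : 0 ≤ a) (haE : a < E)
    (hs : |s| ≤ 1) : |rr β m E a s| ≤ mm β m E a := by
  have hm0 : 0 < m := by linarith
  have hE : 0 < E := lt_of_le_of_lt ha haE
  have h1 := sq_pos' ha haE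
  have h2 := base_pos ha haE hs
  have h3 := base_ge (E := E) ha hs
  have h4 : 0 < E - a := by linarith
  have p1 : (E ^ 2 - a ^ 2) ^ (β + m) ≤ E ^ (2 * (β + m)) := by
    rw [Real.rpow_mul hE.le]
    refine Real.rpow_le_rpow h1.le ?_ (by positivity)
    rw [Real.rpow_two]
    nlinarith [sq_nonneg a]
  have p3 : (E + a * s) ^ (-(β + 2 * m)) ≤ (E - a) ^ (-(β + 2 * m)) :=
    Real.rpow_le_rpow_of_nonpos h4 h3 (by linarith)
  have q1 : 0 ≤ (E ^ 2 - a ^ 2) ^ (β + m) := by positivity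
  have q3 : 0 ≤ (E + a * s) ^ (-(β + 2 * m)) := by positivity
  unfold rr mm
  rw [abs_of_nonneg (by positivity)]
  have a1 := mul_le_mul p1 p3 q3 (by positivity)
  have a2 : 0 ≤ 2 * (β + m) * E ^ 2 * (E ^ (2 * (β + m - 1)) * (E - a) ^ (-(β + 2 * m))) := by
    positivity
  have a3 : 0 ≤ (β + 2 * m) * E * (E ^ (2 * (β + m)) * (E - a) ^ (-(β + 2 * m + 1))) := by
    positivity
  linarith

/-- The derivative of the Gaussian averages, as a hypothesis. -/
def GaussDeriv (β : ℝ) : Prop := ∃ K : ℝ, 0 < K ∧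
  ∀ (n : ℕ) (x : Matrix (Fin n) (Fin 2) ℂ) (E A : ℝ),
  0 ≤ A → A < E → HasDerivAt (fun l : ℝ => l * ∫ g : EC (Fin 2),
    ((E - l * A) * (hsK x * ‖g‖ ^ 2) + 2 * l * A * ‖Matrix.toEuclideanLin x g‖ ^ 2) ^ β *
      Real.exp (-‖g‖ ^ 2)) (K * ((E * hsK x + A * gapK x) ^ β + (E * hsK x - A * gapK x) ^ β)) 1

theorem hs_mat (x : EC (Fin n × Fin 2)) : hsK (mat x) = ‖x‖ ^ 2 := by
  rw [EuclideanSpace.norm_sq_eq, Fintype.sum_prod_type]
  rfl

theorem block_spectral (hn : 0 < n) {β : ℝ} (hβ : 0 < β) (hβ1 : β < 1) (hG : GaussDeriv β) :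
    ∃ c : ℝ, 0 < c ∧ ∀ (ω : Om) (x : EC (Fin n × Fin 2)),
      (ω.1.1 * ‖x‖ ^ 2 + ω.1.2 * gapK (mat x)) ^ β +
        (ω.1.1 * ‖x‖ ^ 2 - ω.1.2 * gapK (mat x)) ^ β =
        ker (2 * β) (densC hn hβ hβ1 c ω) x := by
  have hm : (1 : ℝ) ≤ n := by exact_mod_cast hn
  obtain ⟨C, hC, hell⟩ := ellipsoid hn hβ
  obtain ⟨K, hK, hder⟩ := hG
  refine ⟨C / K, by positivity, fun ω x => ?_⟩
  obtain ⟨⟨E, A⟩, hA, hAE⟩ := ω
  simp only at hA hAE ⊢
  have hE : 0 < E := lt_of_le_of_lt hA hAE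
  set A' : ℝ := (A + E) / 2 with hA'
  have hA1 : A < A' := by rw [hA']; linarith
  have hA2 : A' < E := by rw [hA']; linarith
  have hA0 : 0 ≤ A' := by linarith
  set s : Set ℝ := {l | 0 < l ∧ l < 2 ∧ l * A < A'} with hs'
  have hsopen : IsOpen s := by
    have h1 : IsOpen {l : ℝ | 0 < l} := isOpen_lt continuous_const continuous_id
    have h2 : IsOpen {l : ℝ | l < 2} := isOpen_lt continuous_id continuous_const
    have h3 : IsOpen {l : ℝ | l * A < A'} :=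
      isOpen_lt (continuous_id.mul continuous_const) continuous_const
    exact h1.inter (h2.inter h3)
  have hs1 : s ∈ 𝓝 (1 : ℝ) := hsopen.mem_nhds ⟨one_pos, one_lt_two, by simpa using hA1⟩
  set ν : Measure (EC (Fin 2) × Sph (Fin n × Fin 2)) :=
    (volume : Measure (EC (Fin 2))).prod (sph (Fin n × Fin 2)) with hν
  let N : EC (Fin 2) × Sph (Fin n × Fin 2) → ℝ := fun z =>
    ‖inner ℂ (z.2 : EC (Fin n × Fin 2)) x‖ ^ (2 * β)
  have hNc : Continuous fun u : Sph (Fin n × Fin 2) =>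
      ‖inner ℂ (u : EC (Fin n × Fin 2)) x‖ ^ (2 * β) := continuous_kern (by positivity) x
  have hNm : Measurable N := hNc.measurable.comp measurable_snd
  have hN0 : ∀ z, 0 ≤ N z := fun z => by positivity
  have hNle : ∀ z, N z ≤ ‖x‖ ^ (2 * β) := fun z => by
    refine Real.rpow_le_rpow (norm_nonneg _) ?_ (by positivity)
    have := norm_inner_le_norm (𝕜 := ℂ) (z.2 : EC (Fin n × Fin 2)) x
    rwa [norm_sph, one_mul] at this
  have hwm : Measurable fun z : EC (Fin 2) × Sph (Fin n × Fin 2) => wt β z.1 :=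
    (continuous_wt hβ).measurable.comp measurable_fst
  let F : ℝ → EC (Fin 2) × Sph (Fin n × Fin 2) → ℝ := fun l z =>
    N z * (wt β z.1 * (l * rr β n E (l * A) (sg z.2 z.1)))
  let F' : ℝ → EC (Fin 2) × Sph (Fin n × Fin 2) → ℝ := fun l z =>
    N z * (wt β z.1 * dd β n E (l * A) (sg z.2 z.1))
  have hFm : ∀ l, Measurable (F l) := fun l =>
    hNm.mul (hwm.mul (((measurable_rr β n E (l * A)).comp measurable_sg).const_mul l))
  have hFm' : ∀ l, Measurable (F' l) := fun l =>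
    hNm.mul (hwm.mul ((measurable_dd β n E (l * A)).comp measurable_sg))
  have hwi : Integrable (fun z : EC (Fin 2) × Sph (Fin n × Fin 2) => wt β z.1) ν :=
    (integrable_wt hβ hβ1).comp_fst _
  have hin : ∀ l ∈ s, 0 ≤ l * A ∧ l * A < E ∧ mm β n E (l * A) ≤ mm β n E A' := by
    intro l hl
    have h1 : 0 ≤ l * A := mul_nonneg hl.1.le hA
    exact ⟨h1, hl.2.2.trans hA2, mm_mono hβ hm h1 hl.2.2.le hA2⟩
  have hmm0 : 0 ≤ mm β n E A' := (abs_nonneg _).trans (abs_dd_le (s := 0) hβ hm hA0 hA2 (by simp))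
  let bd : EC (Fin 2) × Sph (Fin n × Fin 2) → ℝ := fun z =>
    ‖x‖ ^ (2 * β) * (wt β z.1 * (2 * mm β n E A'))
  have hbdi : Integrable bd ν := (hwi.mul_const _).const_mul _
  have hFb : ∀ l ∈ s, ∀ z, ‖F l z‖ ≤ bd z := by
    intro l hl z
    obtain ⟨h1, h2, h3⟩ := hin l hl
    have h4 : |l * rr β n E (l * A) (sg z.2 z.1)| ≤ 2 * mm β n E A' := by
      rw [abs_mul, abs_of_pos hl.1]
      exact mul_le_mul hl.2.1.le ((abs_rr_le hβ hm h1 h2 (sg_abs _ _)).trans h3) (abs_nonneg _)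
        two_pos.le
    show ‖N z * (wt β z.1 * _)‖ ≤ _
    rw [norm_mul, norm_mul, Real.norm_of_nonneg (hN0 z), Real.norm_of_nonneg (wt_nonneg β _)]
    exact mul_le_mul (hNle z) (mul_le_mul_of_nonneg_left h4 (wt_nonneg β _))
      (mul_nonneg (wt_nonneg β _) (norm_nonneg _)) (by positivity)
  have hFb' : ∀ l ∈ s, ∀ z, ‖F' l z‖ ≤ bd z := by
    intro l hl z
    obtain ⟨h1, h2, h3⟩ := hin l hl
    have h4 : |dd β n E (l * A) (sg z.2 z.1)| ≤ 2 * mm β n E A' := by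
      have := (abs_dd_le hβ hm h1 h2 (sg_abs z.2 z.1)).trans h3
      linarith
    show ‖N z * (wt β z.1 * _)‖ ≤ _
    rw [norm_mul, norm_mul, Real.norm_of_nonneg (hN0 z), Real.norm_of_nonneg (wt_nonneg β _)]
    exact mul_le_mul (hNle z) (mul_le_mul_of_nonneg_left h4 (wt_nonneg β _))
      (mul_nonneg (wt_nonneg β _) (norm_nonneg _)) (by positivity)
  have hFi : ∀ l ∈ s, Integrable (F l) ν := fun l hl =>
    hbdi.mono' (hFm l).aestronglyMeasurable (Eventually.of_forall (hFb l hl))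
  have hFi' : ∀ l ∈ s, Integrable (F' l) ν := fun l hl =>
    hbdi.mono' (hFm' l).aestronglyMeasurable (Eventually.of_forall (hFb' l hl))
  have hd := (hasDerivAt_integral_of_dominated_loc_of_deriv_le (μ := ν) (F := F) (F' := F')
    (x₀ := 1) (s := s) (bound := bd) hs1
    (Eventually.of_forall fun l => (hFm l).aestronglyMeasurable)
    (hFi 1 (mem_of_mem_nhds hs1)) (hFm' 1).aestronglyMeasurable
    (Eventually.of_forall fun z l hl => hFb' l hl z) hbdi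
    (Eventually.of_forall fun z l hl => by
      obtain ⟨h1, h2, h3⟩ := hin l hl
      have := hasDerivAt_rr (β := β) (m := n) h1 h2 (sg_abs z.2 z.1)
      exact (this.const_mul (wt β z.1)).const_mul (N z))).2
  have hint : ∀ l ∈ s, l * ∫ g : EC (Fin 2),
      ((E - l * A) * (hsK (mat x) * ‖g‖ ^ 2) +
        2 * l * A * ‖Matrix.toEuclideanLin (mat x) g‖ ^ 2) ^ β * Real.exp (-‖g‖ ^ 2) =
      C * ∫ z, F l z ∂ν := by
    intro l hl
    obtain ⟨h1, h2, h3⟩ := hin l hl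
    rw [hν, integral_prod _ (hFi l hl), ← integral_const_mul, ← integral_const_mul]
    refine integral_congr_ae (Eventually.of_forall fun g => ?_)
    simp only
    have h4 := hell x g E (l * A) h1 h2
    have h5 : (E - l * A) * (hsK (mat x) * ‖g‖ ^ 2) +
        2 * l * A * ‖Matrix.toEuclideanLin (mat x) g‖ ^ 2 =
        (E - l * A) * (‖x‖ ^ 2 * ‖g‖ ^ 2) + 2 * (l * A) * ‖mulE x g‖ ^ 2 := by
      rw [hs_mat]
      unfold mulE
      ring
    rw [h5, h4, mul_assoc, mul_left_comm, ← integral_mul_const, ← integral_const_mul]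
    congr 1
    refine integral_congr_ae (Eventually.of_forall fun u => ?_)
    simp only [F, N, wt]
    ring
  have hd2 : HasDerivAt (fun l : ℝ => l * ∫ g : EC (Fin 2),
      ((E - l * A) * (hsK (mat x) * ‖g‖ ^ 2) +
        2 * l * A * ‖Matrix.toEuclideanLin (mat x) g‖ ^ 2) ^ β * Real.exp (-‖g‖ ^ 2))
      (C * ∫ z, F' 1 z ∂ν) 1 := by
    refine (hd.const_mul C).congr_of_eventuallyEq ?_
    filter_upwards [hs1] with l hl
    exact hint l hl
  have heq := (hder n (mat x) E A hA hAE).unique hd2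
  rw [hs_mat] at heq
  have hval : ∫ z, F' 1 z ∂ν = ∫ u : Sph (Fin n × Fin 2),
      ‖inner ℂ (u : EC (Fin n × Fin 2)) x‖ ^ (2 * β) *
        ∫ g, wt β g * dd β n E A (sg u g) ∂(volume : Measure (EC (Fin 2))) ∂(sph (Fin n × Fin 2)) := by
    rw [hν, integral_prod_symm _ (hFi' 1 (mem_of_mem_nhds hs1))]
    refine integral_congr_ae (Eventually.of_forall fun u => ?_)
    simp only [F', N, one_mul]
    rw [integral_const_mul]
  have hfin : ker (2 * β) (densC hn hβ hβ1 (C / K) ⟨(E, A), hA, hAE⟩) x =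
      C / K * ∫ z, F' 1 z ∂ν := by
    rw [hval, ← integral_const_mul, ker]
    refine integral_congr_ae (Eventually.of_forall fun u => ?_)
    simp only [densC_apply, dens]
    ring
  rw [hfin]
  field_simp
  linarith

end Pool.Agent.S50X
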