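import Mathlib

open Set Filter Topology

namespace Pool.Agent.S50X

/-- The density (up to a constant) of an ellipsoidal norm with the eigenvalues `E - a`, `E + a`. -/
noncomputable def rr (β m E a s : ℝ) : ℝ :=
  (E ^ 2 - a ^ 2) ^ (β + m) * (E + a * s) ^ (-(β + 2 * m))

/-- The derivative of `l * rr β m E (l * A) s`. -/
noncomputable def dd (β m E a s : ℝ) : ℝ :=
  (E ^ 2 - a ^ 2) ^ (β + m) * (E + a * s) ^ (-(β + 2 * m)) -
    2 * (β + m) * a ^ 2 * ((E ^ 2 - a ^ 2) ^ (β + m - 1) * (E + a * s) ^ (-(β + 2 * m))) -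
    (β + 2 * m) * (a * s) * ((E ^ 2 - a ^ 2) ^ (β + m) * (E + a * s) ^ (-(β + 2 * m + 1)))

theorem base_pos {E a s : ℝ} (ha : 0 ≤ a) (haE : a < E) (hs : |s| ≤ 1) : 0 < E + a * s := by
  have := (abs_le.mp hs).1
  nlinarith

theorem base_ge {E a s : ℝ} (ha : 0 ≤ a) (hs : |s| ≤ 1) : E - a ≤ E + a * s := by
  have := (abs_le.mp hs).1
  nlinarith

theorem sq_pos' {E a : ℝ} (ha : 0 ≤ a) (haE : a < E) : 0 < E ^ 2 - a ^ 2 := by nlinarith

theorem hasDerivAt_rr {β m E A l s : ℝ} (hA : 0 ≤ l * A) (hAE : l * A < E) (hs : |s| ≤ 1) :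
    HasDerivAt (fun l => l * rr β m E (l * A) s) (dd β m E (l * A) s) l := by
  have h1 := sq_pos' hA hAE
  have h2 := base_pos hA hAE hs
  have e1 : HasDerivAt (fun l : ℝ => E ^ 2 - (l * A) ^ 2) (-(2 * (l * A) * A)) l := by
    have := ((((hasDerivAt_id l).mul_const A).pow 2)).const_sub (E ^ 2)
    convert! this using 1
    simp
  have e2 : HasDerivAt (fun l : ℝ => E + (l * A) * s) (A * s) l := by
    have := (((hasDerivAt_id l).mul_const A).mul_const s).const_add E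
    convert! this using 1
    simp
  have e3 := e1.rpow_const (p := β + m) (Or.inl h1.ne')
  have e4 := e2.rpow_const (p := -(β + 2 * m)) (Or.inl h2.ne')
  have e5 := (hasDerivAt_id l).mul (e3.mul e4)
  convert! e5 using 1
  unfold dd
  simp only [id, Pi.mul_apply]
  have e7 : -(β + 2 * m) - 1 = -(β + 2 * m + 1) := by ring
  rw [e7]
  ring

/-- A bound for `dd`. -/
noncomputable def mm (β m E a : ℝ) : ℝ :=
  E ^ (2 * (β + m)) * (E - a) ^ (-(β + 2 * m)) +
    2 * (β + m) * E ^ 2 * (E ^ (2 * (β + m - 1)) * (E - a) ^ (-(β + 2 * m))) +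
    (β + 2 * m) * E * (E ^ (2 * (β + m)) * (E - a) ^ (-(β + 2 * m + 1)))

theorem abs_dd_le {β m E a s : ℝ} (hβ : 0 < β) (hm : 1 ≤ m) (ha : 0 ≤ a) (haE : a < E)
    (hs : |s| ≤ 1) : |dd β m E a s| ≤ mm β m E a := by
  have hm0 : 0 < m := by linarith
  have hbm : 0 ≤ β + m - 1 := by linarith
  have hE : 0 < E := lt_of_le_of_lt ha haE
  have h1 := sq_pos' ha haE
  have h2 := base_pos ha haE hs
  have h3 := base_ge (E := E) ha hs
  have h4 : 0 < E - a := by linarith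
  have p1 : (E ^ 2 - a ^ 2) ^ (β + m) ≤ E ^ (2 * (β + m)) := by
    rw [Real.rpow_mul hE.le]
    refine Real.rpow_le_rpow h1.le ?_ (by positivity)
    rw [Real.rpow_two]
    nlinarith [sq_nonneg a]
  have p2 : (E ^ 2 - a ^ 2) ^ (β + m - 1) ≤ E ^ (2 * (β + m - 1)) := by
    rw [Real.rpow_mul hE.le]
    refine Real.rpow_le_rpow h1.le ?_ (by positivity)
    rw [Real.rpow_two]
    nlinarith [sq_nonneg a]
  have p3 : (E + a * s) ^ (-(β + 2 * m)) ≤ (E - a) ^ (-(β + 2 * m)) :=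
    Real.rpow_le_rpow_of_nonpos h4 h3 (by linarith)
  have p4 : (E + a * s) ^ (-(β + 2 * m + 1)) ≤ (E - a) ^ (-(β + 2 * m + 1)) :=
    Real.rpow_le_rpow_of_nonpos h4 h3 (by linarith)
  have q1 : 0 ≤ (E ^ 2 - a ^ 2) ^ (β + m) := by positivity
  have q2 : 0 ≤ (E ^ 2 - a ^ 2) ^ (β + m - 1) := by positivity
  have q3 : 0 ≤ (E + a * s) ^ (-(β + 2 * m)) := by positivity
  have q4 : 0 ≤ (E + a * s) ^ (-(β + 2 * m + 1)) := by positivity
  have a1 : |(E ^ 2 - a ^ 2) ^ (β + m) * (E + a * s) ^ (-(β + 2 * m))| ≤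
      E ^ (2 * (β + m)) * (E - a) ^ (-(β + 2 * m)) := by
    rw [abs_of_nonneg (by positivity)]
    exact mul_le_mul p1 p3 q3 (by positivity)
  have a2 : |2 * (β + m) * a ^ 2 *
      ((E ^ 2 - a ^ 2) ^ (β + m - 1) * (E + a * s) ^ (-(β + 2 * m)))| ≤
      2 * (β + m) * E ^ 2 * (E ^ (2 * (β + m - 1)) * (E - a) ^ (-(β + 2 * m))) := by
    rw [abs_of_nonneg (by positivity)]
    refine mul_le_mul ?_ (mul_le_mul p2 p3 q3 (by positivity)) (by positivity) (by positivity)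
    refine mul_le_mul_of_nonneg_left ?_ (by positivity)
    nlinarith
  have a3 : |(β + 2 * m) * (a * s) *
      ((E ^ 2 - a ^ 2) ^ (β + m) * (E + a * s) ^ (-(β + 2 * m + 1)))| ≤
      (β + 2 * m) * E * (E ^ (2 * (β + m)) * (E - a) ^ (-(β + 2 * m + 1))) := by
    rw [abs_mul, abs_mul, abs_mul, abs_of_nonneg (by positivity : (0 : ℝ) ≤ β + 2 * m),
      abs_of_nonneg ha, abs_of_nonneg (by positivity :
        0 ≤ (E ^ 2 - a ^ 2) ^ (β + m) * (E + a * s) ^ (-(β + 2 * m + 1)))]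
    refine mul_le_mul ?_ (mul_le_mul p1 p4 q4 (by positivity)) (by positivity) (by positivity)
    refine mul_le_mul_of_nonneg_left ?_ (by positivity)
    have : a * |s| ≤ a * 1 := mul_le_mul_of_nonneg_left hs ha
    linarith
  unfold dd mm
  refine (abs_sub _ _).trans ?_
  refine add_le_add ((abs_sub _ _).trans (add_le_add a1 a2)) a3

theorem mm_mono {β m E a b : ℝ} (hβ : 0 < β) (hm : 1 ≤ m) (ha : 0 ≤ a) (hab : a ≤ b)
    (hbE : b < E) : mm β m E a ≤ mm β m E b := by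
  have hm0 : 0 < m := by linarith
  have hE : 0 < E := by linarith
  have h4 : 0 < E - b := by linarith
  have p3 : (E - a) ^ (-(β + 2 * m)) ≤ (E - b) ^ (-(β + 2 * m)) :=
    Real.rpow_le_rpow_of_nonpos h4 (by linarith) (by linarith)
  have p4 : (E - a) ^ (-(β + 2 * m + 1)) ≤ (E - b) ^ (-(β + 2 * m + 1)) :=
    Real.rpow_le_rpow_of_nonpos h4 (by linarith) (by linarith)
  unfold mm
  gcongr

theorem dd_zero {β m E s : ℝ} (hE : 0 < E) : dd β m E 0 s = E ^ β := by
  unfold dd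
  simp only [ne_eq, OfNat.ofNat_ne_zero, not_false_eq_true, zero_pow, sub_zero, zero_mul, add_zero,
    mul_zero]
  rw [← Real.rpow_natCast, ← Real.rpow_mul hE.le, ← Real.rpow_add hE]
  congr 1
  push_cast
  ring

/-- The parameter region. -/
abbrev Om : Type := {w : ℝ × ℝ // 0 ≤ w.2 ∧ w.2 < w.1}

theorem continuous_dd {X : Type*} [TopologicalSpace X] (β m : ℝ) {w : X → Om} {t : X → ℝ}
    (hw : Continuous w) (ht : Continuous t) (h : ∀ x, |t x| ≤ 1) :
    Continuous fun x => dd β m (w x).1.1 (w x).1.2 (t x) := by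
  have h1 : ∀ x, 0 < (w x).1.1 ^ 2 - (w x).1.2 ^ 2 := fun x => sq_pos' (w x).2.1 (w x).2.2
  have h2 : ∀ x, 0 < (w x).1.1 + (w x).1.2 * t x := fun x => base_pos (w x).2.1 (w x).2.2 (h x)
  have d1 : Continuous fun x => (w x).1.1 := continuous_fst.comp (continuous_subtype_val.comp hw)
  have d2 : Continuous fun x => (w x).1.2 := continuous_snd.comp (continuous_subtype_val.comp hw)
  have c1 : Continuous fun x => (w x).1.1 ^ 2 - (w x).1.2 ^ 2 := (d1.pow 2).sub (d2.pow 2)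
  have c2 : Continuous fun x => (w x).1.1 + (w x).1.2 * t x := d1.add (d2.mul ht)
  have c3 := c1.rpow_const (p := β + m) (fun z => Or.inl (h1 z).ne')
  have c4 := c1.rpow_const (p := β + m - 1) (fun z => Or.inl (h1 z).ne')
  have c5 := c2.rpow_const (p := -(β + 2 * m)) (fun z => Or.inl (h2 z).ne')
  have c6 := c2.rpow_const (p := -(β + 2 * m + 1)) (fun z => Or.inl (h2 z).ne')
  unfold dd
  exact ((c3.mul c5).sub ((continuous_const.mul (d2.pow 2)).mul (c4.mul c5))).sub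
    ((continuous_const.mul (d2.mul ht)).mul (c3.mul c6))

theorem continuous_mm (β m : ℝ) : Continuous fun z : Om => mm β m z.1.1 z.1.2 := by
  have h1 : ∀ z : Om, 0 < z.1.1 := fun z => lt_of_le_of_lt z.2.1 z.2.2
  have h2 : ∀ z : Om, 0 < z.1.1 - z.1.2 := fun z => by linarith [z.2.2]
  have c1 : Continuous fun z : Om => z.1.1 := by fun_prop
  have c2 : Continuous fun z : Om => z.1.1 - z.1.2 := by fun_prop
  have c3 := c1.rpow_const (p := 2 * (β + m)) (fun z => Or.inl (h1 z).ne')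
  have c4 := c1.rpow_const (p := 2 * (β + m - 1)) (fun z => Or.inl (h1 z).ne')
  have c5 := c2.rpow_const (p := -(β + 2 * m)) (fun z => Or.inl (h2 z).ne')
  have c6 := c2.rpow_const (p := -(β + 2 * m + 1)) (fun z => Or.inl (h2 z).ne')
  unfold mm
  fun_prop

end Pool.Agent.S50X
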