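import Pool.Agent.S50X.Proj
import Pool.Agent.S50X.Dens

open MeasureTheory Metric Set Filter Topology Module

namespace Pool.Agent.S50X

variable {n : ℕ}

/-- The parameter in `[-1, 1]` of a point of the sphere and a vector of `EC (Fin 2)`. -/
noncomputable def sg (u : Sph (Fin n × Fin 2)) (g : EC (Fin 2)) : ℝ :=
  1 - 2 * (‖mulE (u : EC (Fin n × Fin 2)) g‖ ^ 2 / ‖g‖ ^ 2)

theorem norm_sph (u : Sph (Fin n × Fin 2)) : ‖(u : EC (Fin n × Fin 2))‖ = 1 := by
  simp

theorem sg_abs (u : Sph (Fin n × Fin 2)) (g : EC (Fin 2)) : |sg u g| ≤ 1 := by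
  have h0 : 0 ≤ ‖mulE (u : EC (Fin n × Fin 2)) g‖ ^ 2 / ‖g‖ ^ 2 := by positivity
  have h1 : ‖mulE (u : EC (Fin n × Fin 2)) g‖ ^ 2 / ‖g‖ ^ 2 ≤ 1 := by
    refine div_le_one_of_le₀ ?_ (by positivity)
    have := mulE_le (u : EC (Fin n × Fin 2)) g
    rwa [norm_sph, one_pow, one_mul] at this
  unfold sg
  rw [abs_le]
  constructor <;> linarith

theorem continuous_mulE {X : Type*} [TopologicalSpace X] {f : X → EC (Fin n × Fin 2)}
    {g : X → EC (Fin 2)} (hf : Continuous f) (hg : Continuous g) :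
    Continuous fun z => mulE (f z) (g z) := by
  have h : (fun z => mulE (f z) (g z)) =
      fun z => WithLp.toLp 2 fun i => f z (i, 0) * g z 0 + f z (i, 1) * g z 1 := by
    funext z
    ext i
    exact mulE_apply _ _ i
  rw [h]
  refine (PiLp.continuous_toLp 2 _).comp ?_
  fun_prop

theorem continuous_sg (g : EC (Fin 2)) : Continuous fun u : Sph (Fin n × Fin 2) => sg u g := by
  have h : Continuous fun u : Sph (Fin n × Fin 2) => mulE (u : EC (Fin n × Fin 2)) g :=
    continuous_mulE continuous_subtype_val continuous_const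
  exact continuous_const.sub (continuous_const.mul ((h.norm.pow 2).div_const _))

theorem measurable_sg : Measurable fun z : EC (Fin 2) × Sph (Fin n × Fin 2) => sg z.2 z.1 := by
  have h : Continuous fun z : EC (Fin 2) × Sph (Fin n × Fin 2) =>
      mulE (z.2 : EC (Fin n × Fin 2)) z.1 :=
    continuous_mulE (continuous_subtype_val.comp continuous_snd) continuous_fst
  have h1 : Measurable fun z : EC (Fin 2) × Sph (Fin n × Fin 2) =>
      ‖mulE (z.2 : EC (Fin n × Fin 2)) z.1‖ ^ 2 := (h.norm.pow 2).measurable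
  have h2 : Measurable fun z : EC (Fin 2) × Sph (Fin n × Fin 2) => ‖z.1‖ ^ 2 :=
    (continuous_fst.norm.pow 2).measurable
  exact measurable_const.sub ((h1.div h2).const_mul 2)

theorem measurable_sg' (u : Sph (Fin n × Fin 2)) : Measurable fun g : EC (Fin 2) => sg u g := by
  have h : Continuous fun g : EC (Fin 2) => mulE (u : EC (Fin n × Fin 2)) g :=
    continuous_mulE continuous_const continuous_id
  have h1 : Measurable fun g : EC (Fin 2) => ‖mulE (u : EC (Fin n × Fin 2)) g‖ ^ 2 :=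
    (h.norm.pow 2).measurable
  have h2 : Measurable fun g : EC (Fin 2) => ‖g‖ ^ 2 := (continuous_id.norm.pow 2).measurable
  exact measurable_const.sub ((h1.div h2).const_mul 2)

/-- The weight on `EC (Fin 2)`. -/
noncomputable def wt (β : ℝ) (g : EC (Fin 2)) : ℝ := ‖g‖ ^ (2 * β) * Real.exp (-‖g‖ ^ 2)

theorem wt_nonneg (β : ℝ) (g : EC (Fin 2)) : 0 ≤ wt β g := by
  unfold wt
  positivity

theorem continuous_wt {β : ℝ} (hβ : 0 < β) : Continuous (wt β) := by
  unfold wt
  have : Continuous fun g : EC (Fin 2) => ‖g‖ ^ (2 * β) :=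
    continuous_norm.rpow_const (fun _ => Or.inr (by positivity))
  fun_prop

theorem integrable_gaussB {b : ℝ} (hb : 0 < b) :
    Integrable (fun g : EC (Fin 2) => Real.exp (-b * ‖g‖ ^ 2)) := by
  have h := GaussianFourier.integrable_cexp_neg_mul_sq_norm_add (V := EC (Fin 2))
    (b := (b : ℂ)) (by simpa using hb) 0 0
  have h2 := h.re
  refine h2.congr (Eventually.of_forall fun g => ?_)
  simp only [add_zero, inner_zero_left, Complex.ofReal_zero, mul_zero]
  have : (-(b : ℂ) * (‖g‖ : ℂ) ^ 2) = ((-b * ‖g‖ ^ 2 : ℝ) : ℂ) := by push_cast; ring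
  simp only [this]
  show (Complex.exp _).re = _
  rw [← Complex.ofReal_exp, Complex.ofReal_re]

theorem integrable_wt {β : ℝ} (hβ : 0 < β) (hβ1 : β < 1) : Integrable (wt β) := by
  have h1 := (integrable_gaussB (b := 1 / 2) (by norm_num)).const_mul 3
  refine h1.mono' (continuous_wt hβ).aestronglyMeasurable (Eventually.of_forall fun g => ?_)
  rw [Real.norm_of_nonneg (wt_nonneg β g)]
  unfold wt
  have h2 : ‖g‖ ^ (2 * β) ≤ 1 + ‖g‖ ^ 2 := by
    rcases le_total ‖g‖ 1 with h | h
    · have : ‖g‖ ^ (2 * β) ≤ 1 := Real.rpow_le_one (norm_nonneg g) h (by positivity)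
      nlinarith [sq_nonneg ‖g‖]
    · have : ‖g‖ ^ (2 * β) ≤ ‖g‖ ^ (2 : ℝ) := Real.rpow_le_rpow_of_exponent_le h (by linarith)
      rw [Real.rpow_two] at this
      linarith
  have h3 : 1 + ‖g‖ ^ 2 ≤ 3 * Real.exp (1 / 2 * ‖g‖ ^ 2) := by
    have := Real.add_one_le_exp (1 / 2 * ‖g‖ ^ 2)
    nlinarith [sq_nonneg ‖g‖]
  have h4 : Real.exp (-‖g‖ ^ 2) * Real.exp (1 / 2 * ‖g‖ ^ 2) = Real.exp (-(1 / 2) * ‖g‖ ^ 2) := by
    rw [← Real.exp_add]
    congr 1
    ring
  calc ‖g‖ ^ (2 * β) * Real.exp (-‖g‖ ^ 2) ≤ 3 * Real.exp (1 / 2 * ‖g‖ ^ 2) * Real.exp (-‖g‖ ^ 2) :=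
        mul_le_mul_of_nonneg_right (h2.trans h3) (Real.exp_pos _).le
    _ = 3 * Real.exp (-(1 / 2) * ‖g‖ ^ 2) := by rw [← h4]; ring

theorem integral_wt_pos {β : ℝ} (hβ : 0 < β) (hβ1 : β < 1) : 0 < ∫ g, wt β g := by
  have hsupp : 0 < volume (Function.support (wt β)) := by
    have hopen : IsOpen (Function.support (wt β)) := by
      rw [Function.support]
      exact isOpen_ne_fun (continuous_wt hβ) continuous_const
    refine hopen.measure_pos volume ⟨WithLp.toLp 2 fun _ => 1, ?_⟩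
    have hne : (WithLp.toLp 2 fun _ : Fin 2 => (1 : ℂ)) ≠ 0 := by
      intro h
      have := congrArg (fun v : EC (Fin 2) => v 0) h
      simp at this
    have : 0 < ‖(WithLp.toLp 2 fun _ : Fin 2 => (1 : ℂ))‖ := norm_pos_iff.mpr hne
    show wt β _ ≠ 0
    unfold wt
    positivity
  rw [integral_pos_iff_support_of_nonneg (wt_nonneg β) (integrable_wt hβ hβ1)]
  exact hsupp

/-- The density of a noncommutative block. -/
noncomputable def dens (β c : ℝ) (ω : Om) (u : Sph (Fin n × Fin 2)) : ℝ :=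
  c * ∫ g, wt β g * dd β n ω.1.1 ω.1.2 (sg u g)

theorem measurable_dd (β m E a : ℝ) : Measurable (dd β m E a) := by
  unfold dd
  have h1 : Measurable fun s : ℝ => (E + a * s) ^ (-(β + 2 * m)) :=
    (measurable_const.add (measurable_id.const_mul a)).pow_const _
  have h2 : Measurable fun s : ℝ => (E + a * s) ^ (-(β + 2 * m + 1)) :=
    (measurable_const.add (measurable_id.const_mul a)).pow_const _
  fun_prop

theorem measurable_rr (β m E a : ℝ) : Measurable (rr β m E a) := by
  unfold rr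
  have h1 : Measurable fun s : ℝ => (E + a * s) ^ (-(β + 2 * m)) :=
    (measurable_const.add (measurable_id.const_mul a)).pow_const _
  fun_prop

theorem continuous_dens (hn : 0 < n) {β : ℝ} (hβ : 0 < β) (hβ1 : β < 1) (c : ℝ) :
    Continuous fun z : Om × Sph (Fin n × Fin 2) => dens β c z.1 z.2 := by
  unfold dens
  have hm : (1 : ℝ) ≤ n := by exact_mod_cast hn
  refine continuous_const.mul ?_
  rw [continuous_iff_continuousAt]
  intro z₀
  have hev : ∀ᶠ z : Om × Sph (Fin n × Fin 2) in 𝓝 z₀,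
      mm β n z.1.1.1 z.1.1.2 < mm β n z₀.1.1.1 z₀.1.1.2 + 1 := by
    have hc : Continuous fun z : Om × Sph (Fin n × Fin 2) => mm β n z.1.1.1 z.1.1.2 :=
      (continuous_mm β n).comp continuous_fst
    exact hc.continuousAt.eventually_lt_const (by linarith)
  refine continuousAt_of_dominated
    (bound := fun g => wt β g * (mm β n z₀.1.1.1 z₀.1.1.2 + 1)) ?_ ?_ ?_ ?_
  · refine Eventually.of_forall fun z => ?_
    exact ((continuous_wt hβ).measurable.mul ((measurable_dd _ _ _ _).comp (measurable_sg' z.2))).aestronglyMeasurable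
  · filter_upwards [hev] with z hz
    refine Eventually.of_forall fun g => ?_
    rw [norm_mul, Real.norm_of_nonneg (wt_nonneg β g)]
    refine mul_le_mul_of_nonneg_left ?_ (wt_nonneg β g)
    exact (abs_dd_le hβ hm z.1.2.1 z.1.2.2 (sg_abs z.2 g)).trans hz.le
  · exact (integrable_wt hβ hβ1).mul_const _
  · refine Eventually.of_forall fun g => Continuous.continuousAt ?_
    exact continuous_const.mul (continuous_dd β n continuous_fst
      ((continuous_sg g).comp continuous_snd) fun z => sg_abs z.2 g)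

/-- `dens` as a continuous family of continuous functions. -/
noncomputable def densC (hn : 0 < n) {β : ℝ} (hβ : 0 < β) (hβ1 : β < 1) (c : ℝ) :
    C(Om, C(Sph (Fin n × Fin 2), ℝ)) :=
  ContinuousMap.curry ⟨fun z => dens β c z.1 z.2, continuous_dens hn hβ hβ1 c⟩

theorem densC_apply (hn : 0 < n) {β : ℝ} (hβ : 0 < β) (hβ1 : β < 1) (c : ℝ) (ω : Om)
    (u : Sph (Fin n × Fin 2)) : densC hn hβ hβ1 c ω u = dens β c ω u := rfl

theorem dens_pos {β : ℝ} (hβ : 0 < β) (hβ1 : β < 1) {c : ℝ} (hc : 0 < c) (ω : Om)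
    (h0 : ω.1.2 = 0) (u : Sph (Fin n × Fin 2)) : 0 < dens β c ω u := by
  have hE : 0 < ω.1.1 := lt_of_le_of_lt ω.2.1 ω.2.2
  unfold dens
  rw [h0]
  simp only [dd_zero hE]
  rw [integral_mul_const]
  have := integral_wt_pos hβ hβ1
  positivity

theorem dens_inv {β c : ℝ} (ω : Om) (a : ℂ) (u v : Sph (Fin n × Fin 2)) (ha : ‖a‖ = 1)
    (hv : (v : EC (Fin n × Fin 2)) = a • (u : EC (Fin n × Fin 2))) :
    dens β c ω v = dens β c ω u := by
  have h : ∀ g, sg v g = sg u g := by
    intro g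
    unfold sg
    have h1 : mulE (v : EC (Fin n × Fin 2)) g = a • mulE (u : EC (Fin n × Fin 2)) g := by
      ext i
      rw [mulE_apply, hv]
      simp only [PiLp.smul_apply, smul_eq_mul]
      rw [mulE_apply]
      ring
    rw [h1, norm_smul, ha, one_mul]
  unfold dens
  simp only [h]

end Pool.Agent.S50X
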