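import Pool.Agent.S50X.Block

open MeasureTheory Set Filter Topology Module
open scoped ENNReal Matrix

namespace Pool.Agent.S50X

/-- The second part of the target space of one block: copies of `ℂ²`. -/
abbrev FC (n : ℕ) : Type := PiLp 2 (fun _ : Fin n × Fin 2 => EC (Fin 2))

/-- The target space of one block. -/
abbrev FB (n : ℕ) : Type := WithLp 2 (EC (Fin n) × FC n)

variable {n : ℕ}

/-- The second part of one block. -/
noncomputable def blkC (b : EC (Fin n × Fin 2)) : EC (Fin 2) →L[ℂ] FC n :=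
  ((PiLp.continuousLinearEquiv 2 ℂ
    (fun _ : Fin n × Fin 2 => EC (Fin 2))).symm : _ →L[ℂ] FC n) ∘L
    ContinuousLinearMap.pi (fun k => b k • ContinuousLinearMap.id ℂ (EC (Fin 2)))

/-- One block: the column with entries `√c x` and `b k` times the identity. -/
noncomputable def blk (c : ℝ) (b : EC (Fin n × Fin 2)) (x : Matrix (Fin n) (Fin 2) ℂ) :
    EC (Fin 2) →L[ℂ] FB n :=
  ((WithLp.prodContinuousLinearEquiv 2 ℂ (EC (Fin n)) (FC n)).symm : _ →L[ℂ] FB n) ∘L
    (ContinuousLinearMap.prod (((√c : ℝ) : ℂ) • toOp x) (blkC b))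

theorem blkC_apply (b : EC (Fin n × Fin 2)) (e : EC (Fin 2)) (k : Fin n × Fin 2) :
    blkC b e k = b k • e := rfl

theorem blk_fst (c : ℝ) (b : EC (Fin n × Fin 2)) (x : Matrix (Fin n) (Fin 2) ℂ)
    (e : EC (Fin 2)) : (blk c b x e).fst = ((√c : ℝ) : ℂ) • toOp x e := rfl

theorem blk_snd (c : ℝ) (b : EC (Fin n × Fin 2)) (x : Matrix (Fin n) (Fin 2) ℂ)
    (e : EC (Fin 2)) : (blk c b x e).snd = blkC b e := rfl

theorem blkC_add (b b' : EC (Fin n × Fin 2)) (e : EC (Fin 2)) :
    blkC (b + b') e = blkC b e + blkC b' e := by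
  ext k : 1
  rw [PiLp.add_apply, blkC_apply, blkC_apply, blkC_apply]
  simp [add_smul]

theorem blkC_smul (r : ℂ) (b : EC (Fin n × Fin 2)) (e : EC (Fin 2)) :
    blkC (r • b) e = r • blkC b e := by
  ext k : 1
  rw [PiLp.smul_apply, blkC_apply, blkC_apply]
  simp [mul_smul]

theorem blk_eq (c : ℝ) (b : EC (Fin n × Fin 2)) (x : Matrix (Fin n) (Fin 2) ℂ)
    (e : EC (Fin 2)) :
    blk c b x e = WithLp.toLp 2 (((√c : ℝ) : ℂ) • toOp x e, blkC b e) := rfl

theorem blk_add (c : ℝ) (b b' : EC (Fin n × Fin 2)) (x x' : Matrix (Fin n) (Fin 2) ℂ)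
    (e : EC (Fin 2)) : blk c (b + b') (x + x') e = blk c b x e + blk c b' x' e := by
  rw [blk_eq, blk_eq, blk_eq, toOp_add, blkC_add, smul_add, ← WithLp.toLp_add]
  rfl

theorem blk_smul (c : ℝ) (r : ℂ) (b : EC (Fin n × Fin 2)) (x : Matrix (Fin n) (Fin 2) ℂ)
    (e : EC (Fin 2)) : blk c (r • b) (r • x) e = r • blk c b x e := by
  rw [blk_eq, blk_eq, toOp_smul, blkC_smul, smul_comm, ← WithLp.toLp_smul]
  rfl

theorem inner_blkC (b : EC (Fin n × Fin 2)) (e e' : EC (Fin 2)) :
    inner ℂ (blkC b e) (blkC b e') = ((‖b‖ ^ 2 : ℝ) : ℂ) * inner ℂ e e' := by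
  rw [PiLp.inner_apply, EuclideanSpace.norm_sq_eq, Complex.ofReal_sum, Finset.sum_mul]
  refine Finset.sum_congr rfl fun k _ => ?_
  rw [blkC_apply, blkC_apply, inner_smul_left, inner_smul_right, ← mul_assoc]
  congr 1
  rw [mul_comm, Complex.mul_conj, Complex.normSq_eq_norm_sq]

theorem inner_blk {c : ℝ} (hc : 0 ≤ c) (b : EC (Fin n × Fin 2))
    (x : Matrix (Fin n) (Fin 2) ℂ) (e e' : EC (Fin 2)) :
    inner ℂ (blk c b x e) (blk c b x e') =
      (c : ℂ) * inner ℂ (toOp x e) (toOp x e') + ((‖b‖ ^ 2 : ℝ) : ℂ) * inner ℂ e e' := by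
  have h1 : inner ℂ (blk c b x e) (blk c b x e') =
      inner ℂ (((√c : ℝ) : ℂ) • toOp x e) (((√c : ℝ) : ℂ) • toOp x e') +
        inner ℂ (blkC b e) (blkC b e') := WithLp.prod_inner_apply _ _
  rw [h1, inner_blkC]
  congr 1
  rw [inner_smul_left, inner_smul_right, ← mul_assoc]
  congr 1
  rw [Complex.conj_ofReal, ← Complex.ofReal_mul, Real.mul_self_sqrt hc]

theorem inner_blk_eigen {c : ℝ} (hc : 0 ≤ c) (b : EC (Fin n × Fin 2))
    (x : Matrix (Fin n) (Fin 2) ℂ) (i j : Fin 2) :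
    inner ℂ (blk c b x ((Matrix.isHermitian_conjTranspose_mul_self x).eigenvectorBasis i))
      (blk c b x ((Matrix.isHermitian_conjTranspose_mul_self x).eigenvectorBasis j)) =
      if i = j then
        ((c * (Matrix.isHermitian_conjTranspose_mul_self x).eigenvalues j + ‖b‖ ^ 2 : ℝ) : ℂ)
      else 0 := by
  rw [inner_blk hc, inner_eigenvectorBasis, orthonormal_iff_ite.1
    (Matrix.isHermitian_conjTranspose_mul_self x).eigenvectorBasis.orthonormal]
  split_ifs <;> simp

theorem norm_blk_eigen {c : ℝ} (hc : 0 ≤ c) (b : EC (Fin n × Fin 2))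
    (x : Matrix (Fin n) (Fin 2) ℂ) (j : Fin 2) :
    ‖blk c b x ((Matrix.isHermitian_conjTranspose_mul_self x).eigenvectorBasis j)‖ ^ 2 =
      c * (Matrix.isHermitian_conjTranspose_mul_self x).eigenvalues j + ‖b‖ ^ 2 := by
  have h := inner_blk_eigen hc b x j j
  rw [inner_self_eq_norm_sq_to_K] at h
  simp only [if_true] at h
  exact Complex.ofReal_injective (by simpa using h)

theorem opNorm_blk_le {c : ℝ} (hc : 0 ≤ c) (b : EC (Fin n × Fin 2))
    (x : Matrix (Fin n) (Fin 2) ℂ) {t : ℝ} (ht : 0 ≤ t)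
    (h : ∀ j, c * (Matrix.isHermitian_conjTranspose_mul_self x).eigenvalues j + ‖b‖ ^ 2 ≤
      t ^ 2) : ‖blk c b x‖ ≤ t := by
  set v := (Matrix.isHermitian_conjTranspose_mul_self x).eigenvectorBasis with hv
  refine opNorm_le_of_orth (blk c b x) v v.orthonormal ?_ ?_ ht ?_
  · intro e
    have h1 := hasSum_fintype (fun i => (inner ℂ (v i) e : ℂ) • blk c b x (v i))
    have h2 : ∑ i, (inner ℂ (v i) e : ℂ) • blk c b x (v i) = blk c b x e := by
      conv_rhs => rw [← v.sum_repr e]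
      rw [map_sum]
      exact Finset.sum_congr rfl fun i _ => by rw [map_smul, v.repr_apply_apply]
    rwa [h2] at h1
  · intro i j hij
    rw [inner_blk_eigen hc, if_neg hij]
  · intro i
    have h1 := norm_blk_eigen hc b x i
    have h2 : ‖blk c b x (v i)‖ ^ 2 ≤ t ^ 2 := by
      rw [h1]
      exact h i
    exact (abs_le_of_sq_le_sq' h2 ht).2

/-- The block operator on an arbitrary infinite-dimensional Hilbert space. -/
theorem exists_block {p : ℝ} (hp : 0 < p) (c : ℕ → ℝ) (hc : ∀ i, 0 ≤ c i)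
    (B : ℕ → Matrix (Fin n) (Fin 2) ℂ →ₗ[ℂ] EC (Fin n × Fin 2))
    (Φ : Matrix (Fin n) (Fin 2) ℂ → ℝ)
    (h : ∀ x, HasSum (fun i => ∑ j,
      (c i * (Matrix.isHermitian_conjTranspose_mul_self x).eigenvalues j + ‖B i x‖ ^ 2) ^
        (p / 2)) (Φ x))
    (H : Type*) [NormedAddCommGroup H] [InnerProductSpace ℂ H] [CompleteSpace H]
    (hH : ¬ FiniteDimensional ℂ H) :
    ∃ T : Matrix (Fin n) (Fin 2) ℂ →ₗ[ℂ] (H →L[ℂ] H),
      ∀ x, HasSum (fun k : ℕ => approxNum (T x) k ^ p) (Φ x) := by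
  classical
  have hnn : ∀ x i j, 0 ≤ c i * (Matrix.isHermitian_conjTranspose_mul_self x).eigenvalues j +
      ‖B i x‖ ^ 2 := fun x i j => by
    have := eigenvalues_nonneg' x j
    have := hc i
    positivity
  have hΦ : ∀ x i j, (c i * (Matrix.isHermitian_conjTranspose_mul_self x).eigenvalues j +
      ‖B i x‖ ^ 2) ^ (p / 2) ≤ Φ x := by
    intro x i j
    refine le_trans ?_ (le_hasSum (h x) i fun i' _ => Finset.sum_nonneg fun j' _ =>
      Real.rpow_nonneg (hnn x i' j') _)
    exact Finset.single_le_sum (f := fun j => (c i *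
      (Matrix.isHermitian_conjTranspose_mul_self x).eigenvalues j + ‖B i x‖ ^ 2) ^ (p / 2))
      (fun j' _ => Real.rpow_nonneg (hnn x i j') _) (Finset.mem_univ j)
  have hΦ0 : ∀ x, 0 ≤ Φ x := fun x =>
    (Real.rpow_nonneg (hnn x 0 0) _).trans (hΦ x 0 0)
  have hM0 : ∀ x, 0 ≤ Φ x ^ (1 / p) := fun x => Real.rpow_nonneg (hΦ0 x) _
  have hM : ∀ x i, ‖blk (c i) (B i x) x‖ ≤ Φ x ^ (1 / p) := by
    intro x i
    refine opNorm_blk_le (hc i) _ x (hM0 x) fun j => ?_
    have h1 : c i * (Matrix.isHermitian_conjTranspose_mul_self x).eigenvalues j +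
        ‖B i x‖ ^ 2 = ((c i * (Matrix.isHermitian_conjTranspose_mul_self x).eigenvalues j +
        ‖B i x‖ ^ 2) ^ (p / 2)) ^ (2 / p) := by
      rw [← Real.rpow_mul (hnn x i j)]
      have : p / 2 * (2 / p) = 1 := by field_simp
      rw [this, Real.rpow_one]
    have h2 : (Φ x ^ (1 / p)) ^ 2 = Φ x ^ (2 / p) := by
      rw [← Real.rpow_natCast, ← Real.rpow_mul (hΦ0 x)]
      congr 1
      push_cast
      ring
    rw [h1, h2]
    exact Real.rpow_le_rpow (Real.rpow_nonneg (hnn x i j) _) (hΦ x i j) (by positivity)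
  obtain ⟨U⟩ := exists_isometry H hH (EC (Fin 2))
  obtain ⟨V⟩ := exists_isometry H hH (FB n)
  set U' : L2 (EC (Fin 2)) →L[ℂ] H := U.toContinuousLinearMap with hU'
  set V' : L2 (FB n) →L[ℂ] H := V.toContinuousLinearMap with hV'
  let D : Matrix (Fin n) (Fin 2) ℂ → (L2 (EC (Fin 2)) →L[ℂ] L2 (FB n)) := fun x =>
    dsum (fun i => blk (c i) (B i x) x) (Φ x ^ (1 / p)) (hM x)
  have hD : ∀ x f i, (D x f : ℕ → FB n) i = blk (c i) (B i x) x (f i) := fun x f i => rfl
  let T : Matrix (Fin n) (Fin 2) ℂ →ₗ[ℂ] (H →L[ℂ] H) :=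
    { toFun := fun x => V' ∘L (D x) ∘L (ContinuousLinearMap.adjoint U')
      map_add' := fun x y => by
        ext g
        simp only [ContinuousLinearMap.comp_apply, add_apply]
        rw [← map_add]
        congr 1
        ext i : 2
        rw [hD, map_add]
        exact blk_add _ _ _ _ _ _
      map_smul' := fun r x => by
        ext g
        simp only [ContinuousLinearMap.comp_apply, smul_apply, RingHom.id_apply]
        rw [← map_smul]
        congr 1
        ext i : 2
        rw [hD, map_smul]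
        exact blk_smul _ _ _ _ _ }
  have hTapp : ∀ x g, T x g = V (D x (ContinuousLinearMap.adjoint U' g)) := fun x g => rfl
  have hUU : ∀ z, ContinuousLinearMap.adjoint U' (U z) = z := by
    intro z
    refine ext_inner_left ℂ fun w => ?_
    rw [ContinuousLinearMap.adjoint_inner_right]
    exact U.inner_map_map w z
  refine ⟨T, fun x => ?_⟩
  set v := (Matrix.isHermitian_conjTranspose_mul_self x).eigenvectorBasis with hv
  set bb := blockBasis v with hbb
  have hTU : ∀ q, T x (U (bb q)) = V (lp.single 2 q.1 (blk (c q.1) (B q.1 x) x (v q.2))) := by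
    intro q
    rw [hTapp, hUU, hbb, blockBasis_apply]
    congr 1
    exact dsum_single _ _ _ _ _
  have hnorm : ∀ q, ‖T x (U (bb q))‖ ^ p =
      (c q.1 * (Matrix.isHermitian_conjTranspose_mul_self x).eigenvalues q.2 +
        ‖B q.1 x‖ ^ 2) ^ (p / 2) := by
    intro q
    rw [hTU, V.norm_map, lp.norm_single (by norm_num), ← norm_blk_eigen (hc q.1) (B q.1 x) x q.2,
      rpow_half_sq (norm_nonneg _)]
  refine hasSum_approxNum' hp (T x) (fun q => U (bb q)) (bb.orthonormal.comp_linearIsometry U)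
    ?_ ?_ ?_
  · intro g
    have h1 := (bb.hasSum_repr (ContinuousLinearMap.adjoint U' g)).mapL (V' ∘L (D x))
    have h2 : (V' ∘L (D x)) (ContinuousLinearMap.adjoint U' g) = T x g := rfl
    rw [h2] at h1
    have h3 : (fun q => (inner ℂ (U (bb q)) g : ℂ) • T x (U (bb q))) =
        fun q => (V' ∘L (D x)) (bb.repr (ContinuousLinearMap.adjoint U' g) q • bb q) := by
      funext q
      rw [map_smul, HilbertBasis.repr_apply_apply, ContinuousLinearMap.adjoint_inner_right,
        hTapp, hUU]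
      rfl
    rw [h3]
    exact h1
  · intro q q' hqq
    rw [hTU, hTU, V.inner_map_map, inner_single_single]
    split_ifs with h1
    · obtain ⟨i, k⟩ := q
      obtain ⟨i', k'⟩ := q'
      simp only at h1
      subst h1
      have h2 : k ≠ k' := fun hk => hqq (by rw [hk])
      simp only
      rw [inner_blk_eigen (hc i), if_neg h2]
    · rfl
  · simp only [hnorm]
    set f : ℕ × Fin 2 → ℝ := fun q =>
      (c q.1 * (Matrix.isHermitian_conjTranspose_mul_self x).eigenvalues q.2 +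
        ‖B q.1 x‖ ^ 2) ^ (p / 2) with hf
    have hf0 : 0 ≤ f := fun q => Real.rpow_nonneg (hnn x q.1 q.2) _
    have hts : ∀ i, ∑' j, f (i, j) = ∑ j, f (i, j) := fun i => tsum_fintype _
    have hsum : Summable f := by
      rw [summable_prod_of_nonneg hf0]
      refine ⟨fun i => (hasSum_fintype _).summable, ?_⟩
      simp only [hts]
      exact (h x).summable
    have h3 : ∑' q, f q = Φ x := by
      rw [hsum.tsum_prod]
      simp only [hts]
      exact (h x).tsum_eq
    rw [← h3]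
    exact hsum.hasSum

end Pool.Agent.S50X
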