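import Pool.Agent.S50X.Gauss
import Pool.Agent.S50X.MatK
import Pool.Agent.S50X.MatK

open MeasureTheory Metric Set Filter Topology Module
open scoped Matrix MatrixOrder ComplexOrder

namespace Pool.Agent.S50X

theorem norm_sq_toEuclideanLinK {n : ℕ} (B : Matrix (Fin n) (Fin 2) ℂ) (g : EC (Fin 2)) :
    ((‖Matrix.toEuclideanLin B g‖ ^ 2 : ℝ) : ℂ) = star g.ofLp ⬝ᵥ ((Bᴴ * B) *ᵥ g.ofLp) := by
  rw [← Matrix.mulVec_mulVec, Matrix.dotProduct_mulVec, ← Matrix.star_mulVec]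
  have h := EuclideanSpace.norm_sq_eq (Matrix.toEuclideanLin B g)
  rw [h]
  simp only [Matrix.ofLp_toEuclideanLin_apply, dotProduct, Pi.star_apply, Complex.ofReal_sum,
    Complex.ofReal_pow, RCLike.star_def]
  refine Finset.sum_congr rfl fun i _ => ?_
  rw [← Complex.conj_mul']

theorem trace_gramK {n : ℕ} (x : Matrix (Fin n) (Fin 2) ℂ) : (xᴴ * x).trace = (hsK x : ℂ) := by
  simp only [Matrix.trace, Matrix.diag_apply, Matrix.mul_apply, Matrix.conjTranspose_apply,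
    hsK, Complex.ofReal_sum, Complex.ofReal_pow, ← Complex.conj_mul', RCLike.star_def]
  rw [Finset.sum_comm]

theorem exists_square {n : ℕ} (x : Matrix (Fin n) (Fin 2) ℂ) :
    ∃ s : Matrix (Fin 2) (Fin 2) ℂ, sᴴ * s = xᴴ * x ∧ hs s = hsK x ∧ gap s = gapK x ∧
      ∀ g : EC (Fin 2), ‖Matrix.toEuclideanLin s g‖ = ‖Matrix.toEuclideanLin x g‖ := by
  obtain ⟨s, hs'⟩ := CStarAlgebra.nonneg_iff_eq_star_mul_self.mp
    (Matrix.posSemidef_conjTranspose_mul_self x).nonneg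
  rw [Matrix.star_eq_conjTranspose] at hs'
  have h1 : hs s = hsK x := by
    have h := trace_gram s
    rw [← hs', trace_gramK] at h
    exact_mod_cast h.symm
  have h2 : ((xᴴ * x).det).re = ‖s.det‖ ^ 2 := by
    rw [hs', det_gram, Complex.ofReal_re]
  refine ⟨s, hs'.symm, h1, ?_, fun g => ?_⟩
  · unfold gap gapK
    rw [h1, h2]
  · have e1 := norm_sq_toEuclideanLin s g
    have e2 := norm_sq_toEuclideanLinK x g
    rw [← hs', ← e2] at e1
    have e3 : ‖Matrix.toEuclideanLin s g‖ ^ 2 = ‖Matrix.toEuclideanLin x g‖ ^ 2 := by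
      exact_mod_cast e1
    exact (sq_eq_sq₀ (norm_nonneg _) (norm_nonneg _)).mp e3

theorem gapK_nonneg {n : ℕ} (x : Matrix (Fin n) (Fin 2) ℂ) : 0 ≤ gapK x := Real.sqrt_nonneg _

theorem hsK_nonneg {n : ℕ} (x : Matrix (Fin n) (Fin 2) ℂ) : 0 ≤ hsK x := by
  unfold hsK
  positivity

theorem gapK_le {n : ℕ} (x : Matrix (Fin n) (Fin 2) ℂ) : gapK x ≤ hsK x := by
  obtain ⟨s, -, h1, h2, -⟩ := exists_square x
  rw [← h1, ← h2]
  exact gap_le s

theorem sum_eig_aux {M : Matrix (Fin 2) (Fin 2) ℂ} (hM : M.IsHermitian) {R D : ℝ}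
    (ht : M.trace = (R : ℂ)) (hd : M.det = (D : ℂ)) (φ : ℝ → ℝ) :
    ∑ j, φ (hM.eigenvalues j) =
      φ ((R + √(R ^ 2 - 4 * D)) / 2) + φ ((R - √(R ^ 2 - 4 * D)) / 2) := by
  have h1 : hM.eigenvalues 0 + hM.eigenvalues 1 = R := by
    have h := hM.trace_eq_sum_eigenvalues
    rw [ht, Fin.sum_univ_two] at h
    have h' : ((hM.eigenvalues 0 + hM.eigenvalues 1 : ℝ) : ℂ) = (R : ℂ) := by
      rw [h]
      push_cast
      rfl
    exact_mod_cast h'
  have h2 : hM.eigenvalues 0 * hM.eigenvalues 1 = D := by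
    have h := hM.det_eq_prod_eigenvalues
    rw [hd, Fin.prod_univ_two] at h
    have h' : ((hM.eigenvalues 0 * hM.eigenvalues 1 : ℝ) : ℂ) = (D : ℂ) := by
      rw [h]
      push_cast
      rfl
    exact_mod_cast h'
  have h3 : √(R ^ 2 - 4 * D) = |hM.eigenvalues 0 - hM.eigenvalues 1| := by
    rw [← Real.sqrt_sq_eq_abs]
    congr 1
    rw [← h1, ← h2]
    ring
  rw [h3, Fin.sum_univ_two]
  rcases le_total (hM.eigenvalues 0) (hM.eigenvalues 1) with h | h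
  · rw [abs_of_nonpos (by linarith)]
    have e1 : (R + -(hM.eigenvalues 0 - hM.eigenvalues 1)) / 2 = hM.eigenvalues 1 := by linarith
    have e2 : (R - -(hM.eigenvalues 0 - hM.eigenvalues 1)) / 2 = hM.eigenvalues 0 := by linarith
    rw [e1, e2, add_comm]
  · rw [abs_of_nonneg (by linarith)]
    have e1 : (R + (hM.eigenvalues 0 - hM.eigenvalues 1)) / 2 = hM.eigenvalues 0 := by linarith
    have e2 : (R - (hM.eigenvalues 0 - hM.eigenvalues 1)) / 2 = hM.eigenvalues 1 := by linarith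
    rw [e1, e2]

theorem sum_eigK {n : ℕ} (x : Matrix (Fin n) (Fin 2) ℂ) (φ : ℝ → ℝ) :
    ∑ j, φ ((Matrix.isHermitian_conjTranspose_mul_self x).eigenvalues j) =
      φ ((hsK x + gapK x) / 2) + φ ((hsK x - gapK x) / 2) := by
  obtain ⟨s, h0, -, -, -⟩ := exists_square x
  have hd : (xᴴ * x).det = ((((xᴴ * x).det).re : ℝ) : ℂ) := by
    rw [← h0, det_gram, Complex.ofReal_re]
  exact sum_eig_aux _ (trace_gramK x) hd φ

theorem gauss_derivK {β : ℝ} (h0 : 0 < β) (h1 : β < 1) : ∃ K : ℝ, 0 < K ∧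
    ∀ (n : ℕ) (x : Matrix (Fin n) (Fin 2) ℂ) (E A : ℝ), 0 ≤ A → A < E →
      HasDerivAt (fun l : ℝ => l * ∫ g : EC (Fin 2),
        ((E - l * A) * (hsK x * ‖g‖ ^ 2) + 2 * l * A * ‖Matrix.toEuclideanLin x g‖ ^ 2) ^ β *
          Real.exp (-‖g‖ ^ 2))
        (K * ((E * hsK x + A * gapK x) ^ β + (E * hsK x - A * gapK x) ^ β)) 1 := by
  obtain ⟨K, hK, h⟩ := gauss_deriv h0 h1
  refine ⟨K, hK, fun n x E A hA hAE => ?_⟩
  obtain ⟨s, -, e1, e2, e3⟩ := exists_square x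
  have := h s E A hA hAE
  simpa only [e1, e2, e3] using this

end Pool.Agent.S50X
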