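import Pool.Agent.S50X.Setup

open MeasureTheory Metric Set Filter Topology Module

namespace Pool.Agent.S50X

variable {ι : Type} [Fintype ι]

instance [Nonempty ι] : Nonempty (Sph ι) := by
  haveI : Nontrivial (EC ι) := inferInstance
  obtain ⟨x, hx⟩ := exists_norm_eq (EC ι) (zero_le_one (α := ℝ))
  exact ⟨⟨x, by simpa using hx⟩⟩

/-- The approximation property that is used to build countable decompositions. -/
def HasApprox (ι : Type) [Fintype ι] (p : ℝ) : Prop :=
  ∀ (f : C(Sph ι, ℝ)), (∀ u, 0 < f u) → CInv f → ∀ ε : ℝ, 0 < ε →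
    ∃ (n : ℕ) (B : Fin n → EC ι →ₗ[ℂ] EC ι) (g : C(Sph ι, ℝ)),
      CInv g ∧ (∀ u, |f u - g u| ≤ ε) ∧ ∀ x : EC ι, ∑ i, ‖B i x‖ ^ p = ker p g x

theorem CInv.sub {f g : C(Sph ι, ℝ)} (hf : CInv f) (hg : CInv g) : CInv (f - g) := by
  intro c u v hc hv
  simp [hf c u v hc hv, hg c u v hc hv]

theorem CInv.smul {f : C(Sph ι, ℝ)} (a : ℝ) (hf : CInv f) : CInv (a • f) := by
  intro c u v hc hv
  simp [hf c u v hc hv]

theorem exists_quarter [Nonempty ι] {p : ℝ} (h : HasApprox ι p)
    (f : C(Sph ι, ℝ)) (hf : ∀ u, 0 < f u) (hinv : CInv f) :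
    ∃ (n : ℕ) (B : Fin n → EC ι →ₗ[ℂ] EC ι) (g : C(Sph ι, ℝ)),
      CInv g ∧ (∀ u, f u / 4 ≤ g u) ∧ (∀ u, g u ≤ 3 / 4 * f u) ∧
        ∀ x : EC ι, ∑ i, ‖B i x‖ ^ p = ker p g x := by
  obtain ⟨u0, -, hu0⟩ := isCompact_univ.exists_isMinOn (univ_nonempty (α := Sph ι))
    f.continuous.continuousOn
  have hm : ∀ u, f u0 ≤ f u := fun u => hu0 (mem_univ u)
  obtain ⟨n, B, g, hg, hfg, hB⟩ := h ((1 / 2 : ℝ) • f)
    (fun u => by have := hf u; simp only [ContinuousMap.coe_smul, Pi.smul_apply, smul_eq_mul]; positivity)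
    (hinv.smul _) (f u0 / 4) (by have := hf u0; positivity)
  refine ⟨n, B, g, hg, fun u => ?_, fun u => ?_, hB⟩
  · have h1 := hfg u
    simp only [ContinuousMap.coe_smul, Pi.smul_apply, smul_eq_mul] at h1
    have h2 := (abs_le.mp h1).2
    have h3 := hm u
    linarith
  · have h1 := hfg u
    simp only [ContinuousMap.coe_smul, Pi.smul_apply, smul_eq_mul] at h1
    have h2 := (abs_le.mp h1).1
    have h3 := hm u
    linarith

theorem countable_decomp [Nonempty ι] {p : ℝ} (hp : 0 < p) (h : HasApprox ι p)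
    (f : C(Sph ι, ℝ)) (hf : ∀ u, 0 < f u) (hinv : CInv f) :
    ∃ (n : ℕ → ℕ) (B : (Σ k : ℕ, Fin (n k)) → EC ι →ₗ[ℂ] EC ι),
      ∀ x : EC ι, HasSum (fun i => ‖B i x‖ ^ p) (ker p f x) := by
  classical
  let P : Type := {f : C(Sph ι, ℝ) // (∀ u, 0 < f u) ∧ CInv f}
  choose N B g hg hg1 hg2 hB using fun f : P => exists_quarter h f.1 f.2.1 f.2.2
  let nxt : P → P := fun f => ⟨f.1 - g f, fun u => by
    have h1 := hg2 f u
    have h2 := f.2.1 u
    simp only [ContinuousMap.coe_sub, Pi.sub_apply]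
    linarith, f.2.2.sub (hg f)⟩
  let F : ℕ → P := fun k => nxt^[k] ⟨f, hf, hinv⟩
  have hF0 : F 0 = ⟨f, hf, hinv⟩ := rfl
  have hFs : ∀ k, (F (k + 1)).1 = (F k).1 - g (F k) := by
    intro k
    show (nxt^[k + 1] _).1 = _
    rw [Function.iterate_succ_apply']
  have hbd : ∀ k u, (F k).1 u ≤ (3 / 4 : ℝ) ^ k * f u := by
    intro k
    induction k with
    | zero => intro u; simp [hF0]
    | succ k ih =>
      intro u
      rw [hFs]
      have h1 := hg1 (F k) u
      have h2 := ih u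
      simp only [ContinuousMap.coe_sub, Pi.sub_apply]
      rw [pow_succ]
      nlinarith
  have hsum : ∀ k x, ∑ j ∈ Finset.range k, ker p (g (F j)) x = ker p f x - ker p (F k).1 x := by
    intro k x
    induction k with
    | zero => simp [hF0]
    | succ k ih =>
      rw [Finset.sum_range_succ, ih, hFs, ker_sub hp]
      ring
  have hgpos : ∀ (f : P) x, 0 ≤ ker p (g f) x := by
    intro f x
    rw [← hB]
    positivity
  have hsum' : ∀ x, HasSum (fun k => ker p (g (F k)) x) (ker p f x) := by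
    intro x
    rw [hasSum_iff_tendsto_nat_of_nonneg (fun k => hgpos _ x)]
    have h1 : Tendsto (fun k => ker p (F k).1 x) atTop (𝓝 0) := by
      have h2 : Tendsto (fun k : ℕ => (3 / 4 : ℝ) ^ k * ker p f x) atTop (𝓝 0) := by
        have := (tendsto_pow_atTop_nhds_zero_of_lt_one (by norm_num : (0 : ℝ) ≤ 3 / 4)
          (by norm_num)).mul_const (ker p f x)
        simpa using this
      refine squeeze_zero (fun k => ?_) (fun k => ?_) h2
      · have h3 : ker p (0 : C(Sph ι, ℝ)) x ≤ ker p (F k).1 x :=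
          ker_mono hp (fun u => ((F k).2.1 u).le) x
        have h4 : ker p (0 : C(Sph ι, ℝ)) x = 0 := by simp [ker]
        rwa [h4] at h3
      · rw [← ker_smul]
        refine ker_mono hp (fun u => ?_) x
        simpa using hbd k u
    have h5 : Tendsto (fun k => ker p f x - ker p (F k).1 x) atTop (𝓝 (ker p f x - 0)) :=
      tendsto_const_nhds.sub h1
    rw [sub_zero] at h5
    refine h5.congr fun k => (hsum k x).symm
  refine ⟨fun k => N (F k), fun i => B (F i.1) i.2, fun x => ?_⟩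
  have hfib : ∀ k, HasSum (fun c : Fin (N (F k)) => ‖B (F k) c x‖ ^ p) (ker p (g (F k)) x) := by
    intro k
    rw [← hB]
    exact hasSum_fintype _
  refine HasSum.sigma_of_hasSum (hsum' x) hfib ?_
  rw [summable_sigma_of_nonneg (fun i => by positivity)]
  refine ⟨fun k => (hfib k).summable, ?_⟩
  refine (hsum' x).summable.congr fun k => ?_
  exact (hfib k).tsum_eq.symm

end Pool.Agent.S50X
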