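import Pool.Agent.S50X.Block2
import Pool.Agent.S50X.Gauss2
import Pool.Agent.S50X.Ker
import Pool.Agent.S50X.Assembly

open MeasureTheory Metric Set Filter Topology Module

namespace Pool.Agent.S50X

variable {n : ℕ}

/-- The mixing measures, as a hypothesis. -/
def PowMix (α β : ℝ) : Prop := ∃ (ν : Measure ℝ) (C : ℝ), IsProbabilityMeasure ν ∧
  ν (Set.Iic 0) = 0 ∧ 0 < C ∧ ∀ y₁ y₂ : ℝ, 0 ≤ y₁ → 0 ≤ y₂ →
    Integrable (fun s : ℝ × ℝ => (s.1 * y₁ + s.2 * y₂) ^ β) (ν.prod ν) ∧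
      ∫ s, (s.1 * y₁ + s.2 * y₂) ^ β ∂(ν.prod ν) = C * (y₁ ^ α + y₂ ^ α) ^ (β / α)

/-- The open positive quadrant. -/
abbrev Qd : Type := {s : ℝ × ℝ // 0 < s.1 ∧ 0 < s.2}

theorem measurableSet_Qd : MeasurableSet {s : ℝ × ℝ | 0 < s.1 ∧ 0 < s.2} :=
  (measurableSet_lt measurable_const measurable_fst).inter
    (measurableSet_lt measurable_const measurable_snd)

/-- The parameters `E = (s + t) / 2`, `A = |s - t| / 2`. -/
noncomputable def qom (s : Qd) : Om := ⟨((s.1.1 + s.1.2) / 2, |s.1.1 - s.1.2| / 2), by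
  have h1 := s.2.1
  have h2 := s.2.2
  refine ⟨by positivity, ?_⟩
  show |s.1.1 - s.1.2| / 2 < (s.1.1 + s.1.2) / 2
  have : |s.1.1 - s.1.2| < s.1.1 + s.1.2 := by
    rw [abs_lt]
    constructor <;> linarith
  linarith⟩

theorem continuous_qom : Continuous qom := by
  unfold qom
  refine Continuous.subtype_mk ?_ _
  fun_prop

/-- The larger eigenvalue of `x* x`. -/
noncomputable def yp (x : Matrix (Fin n) (Fin 2) ℂ) : ℝ := (hsK x + gapK x) / 2

/-- The smaller eigenvalue of `x* x`. -/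
noncomputable def ym (x : Matrix (Fin n) (Fin 2) ℂ) : ℝ := (hsK x - gapK x) / 2

theorem yp_nonneg (x : Matrix (Fin n) (Fin 2) ℂ) : 0 ≤ yp x := by
  have h1 := hsK_nonneg x
  have h2 := gapK_nonneg x
  unfold yp
  positivity

theorem ym_nonneg (x : Matrix (Fin n) (Fin 2) ℂ) : 0 ≤ ym x := by
  have h2 := gapK_le x
  unfold ym
  linarith

theorem base_symm (x : Matrix (Fin n) (Fin 2) ℂ) (s : Qd) (φ : ℝ → ℝ) :
    φ ((qom s).1.1 * hsK x + (qom s).1.2 * gapK x) + φ ((qom s).1.1 * hsK x - (qom s).1.2 * gapK x) =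
      φ (s.1.1 * yp x + s.1.2 * ym x) + φ (s.1.1 * ym x + s.1.2 * yp x) := by
  unfold qom yp ym
  simp only
  rcases le_total s.1.1 s.1.2 with h | h
  · rw [abs_of_nonpos (by linarith), add_comm]
    congr 1 <;> congr 1 <;> ring
  · rw [abs_of_nonneg (by linarith)]
    congr 1 <;> congr 1 <;> ring

theorem ae_quadrant {ν : Measure ℝ} [IsProbabilityMeasure ν] (h0 : ν (Iic 0) = 0) :
    ∀ᵐ s ∂(ν.prod ν), 0 < s.1 ∧ 0 < s.2 := by
  have h1 : ∀ᵐ s ∂ν, 0 < s := by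
    rw [ae_iff]
    simpa [Iic, not_lt] using h0
  have h2 := (Measure.quasiMeasurePreserving_fst (μ := ν) (ν := ν)).ae h1
  have h3 := (Measure.quasiMeasurePreserving_snd (μ := ν) (ν := ν)).ae h1
  filter_upwards [h2, h3] with s h4 h5 using ⟨h4, h5⟩

theorem exists_cont_decomp (hn : 0 < n) {α β : ℝ} (hβ : 0 < β) (hβ1 : β < 1)
    (hG : GaussDeriv β) (hM : PowMix α β) :
    ∃ (C : ℝ) (c : ℕ → ℝ) (w : ℕ → Om) (f : C(Sph (Fin n × Fin 2), ℝ)), 0 < C ∧ (∀ i, 0 ≤ c i) ∧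
      (∀ u, 0 < f u) ∧ CInv f ∧ ∀ x : EC (Fin n × Fin 2),
      HasSum (fun i => c i * (((w i).1.1 * hsK (mat x) + (w i).1.2 * gapK (mat x)) ^ β +
          ((w i).1.1 * hsK (mat x) - (w i).1.2 * gapK (mat x)) ^ β))
        (C * (yp (mat x) ^ α + ym (mat x) ^ α) ^ (β / α) - ker (2 * β) f x) := by
  obtain ⟨ν, C₀, hν, h0, hC₀, hmix⟩ := hM
  obtain ⟨c, hc, hspec⟩ := block_spectral hn hβ hβ1 hG
  set S : Set (ℝ × ℝ) := {s : ℝ × ℝ | 0 < s.1 ∧ 0 < s.2} with hS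
  let μ : Measure Qd := (ν.prod ν).comap (Subtype.val : Qd → ℝ × ℝ)
  have hae := ae_quadrant h0
  have hres : (ν.prod ν).restrict S = ν.prod ν := by
    rw [Measure.restrict_eq_self_of_ae_mem]
    exact hae
  have hmeas : MeasurableSet S := measurableSet_Qd
  let G : Qd → C(Sph (Fin n × Fin 2), ℝ) := fun s => densC hn hβ hβ1 c (qom s)
  have hGc : Continuous G := (densC hn hβ hβ1 c).continuous.comp continuous_qom
  let Γ : Qd → EC (Fin n × Fin 2) → ℝ := fun s x =>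
    ((qom s).1.1 * hsK (mat x) + (qom s).1.2 * gapK (mat x)) ^ β +
      ((qom s).1.1 * hsK (mat x) - (qom s).1.2 * gapK (mat x)) ^ β
  have hΓ : ∀ s x, Γ s x = ker (2 * β) (G s) x := by
    intro s x
    show _ = ker (2 * β) (densC hn hβ hβ1 c (qom s)) x
    rw [← hspec, ← hs_mat]
  -- the integral
  have hΓ2 : ∀ s x, Γ s x = (s.1.1 * yp (mat x) + s.1.2 * ym (mat x)) ^ β +
      (s.1.1 * ym (mat x) + s.1.2 * yp (mat x)) ^ β := fun s x =>
    base_symm (mat x) s (fun t => t ^ β)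
  have hI : ∀ x, Integrable (fun s => Γ s x) μ := by
    intro x
    have h1 := (hmix _ _ (yp_nonneg (mat x)) (ym_nonneg (mat x))).1
    have h2 := (hmix _ _ (ym_nonneg (mat x)) (yp_nonneg (mat x))).1
    have h3 := h1.add h2
    rw [← hres, ← map_comap_subtype_coe hmeas,
      (MeasurableEmbedding.subtype_coe hmeas).integrable_map_iff] at h3
    refine h3.congr (Eventually.of_forall fun s => ?_)
    exact (hΓ2 s x).symm
  have hval : ∀ x, ∫ s, Γ s x ∂μ =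
      2 * C₀ * (yp (mat x) ^ α + ym (mat x) ^ α) ^ (β / α) := by
    intro x
    have h1 := hmix _ _ (yp_nonneg (mat x)) (ym_nonneg (mat x))
    have h2 := hmix _ _ (ym_nonneg (mat x)) (yp_nonneg (mat x))
    have h3 : ∫ s, Γ s x ∂μ = ∫ s in S, ((s.1 * yp (mat x) + s.2 * ym (mat x)) ^ β +
        (s.1 * ym (mat x) + s.2 * yp (mat x)) ^ β) ∂(ν.prod ν) := by
      rw [← integral_subtype_comap hmeas (fun s : ℝ × ℝ =>
        (s.1 * yp (mat x) + s.2 * ym (mat x)) ^ β + (s.1 * ym (mat x) + s.2 * yp (mat x)) ^ β)]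
      refine integral_congr_ae (Eventually.of_forall fun s => hΓ2 s x)
    rw [h3, hres, integral_add h1.1 h2.1, h1.2, h2.2, add_comm (ym (mat x) ^ α)]
    ring
  -- the support point
  obtain ⟨s₀, hs₀, hsupp₀⟩ : ∃ s₀ : ℝ, 0 < s₀ ∧ ∀ N ∈ 𝓝 s₀, 0 < ν N := by
    have h1 : ν (Ioi 0) ≠ 0 := by
      have h2 : ν (Iic (0 : ℝ)) + ν (Ioi 0) = 1 := by
        rw [← compl_Iic]
        exact prob_add_prob_compl measurableSet_Iic
      rw [h0, zero_add] at h2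
      rw [h2]
      exact one_ne_zero
    obtain ⟨s₀, hs₀, h⟩ := exists_mem_forall_mem_nhdsWithin_pos_measure h1
    refine ⟨s₀, hs₀, fun N hN => h N (mem_nhdsWithin_of_mem_nhds hN)⟩
  let ω₀ : Qd := ⟨(s₀, s₀), hs₀, hs₀⟩
  have hω₀ : ∀ u, 0 < G ω₀ u := by
    intro u
    refine dens_pos hβ hβ1 hc _ ?_ u
    simp [ω₀, qom]
  have hsupp : ∀ N ∈ 𝓝 ω₀, 0 < μ N := by
    intro N hN
    obtain ⟨U, hU, hUN⟩ := mem_nhds_subtype _ _ _ |>.mp hN
    obtain ⟨V₁, hV₁, V₂, hV₂, hV⟩ := mem_nhds_prod_iff.mp hU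
    have h1 : 0 < ν (V₁ ∩ Ioi 0) := hsupp₀ _ (inter_mem hV₁ (Ioi_mem_nhds hs₀))
    have h2 : 0 < ν (V₂ ∩ Ioi 0) := hsupp₀ _ (inter_mem hV₂ (Ioi_mem_nhds hs₀))
    have h3 : μ N = (ν.prod ν) (Subtype.val '' N) :=
      (MeasurableEmbedding.subtype_coe hmeas).comap_apply _ _
    rw [h3]
    refine lt_of_lt_of_le (ENNReal.mul_pos h1.ne' h2.ne') ?_
    rw [← Measure.prod_prod]
    refine measure_mono ?_
    rintro ⟨a, b⟩ ⟨⟨ha1, ha2⟩, hb1, hb2⟩
    exact ⟨⟨(a, b), ha2, hb2⟩, hUN (hV ⟨ha1, hb1⟩), rfl⟩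
  obtain ⟨c', w, f, hc', hf, hinv, hsum⟩ := assembly (p := 2 * β) (by positivity) μ G hGc ω₀ hω₀
    hsupp Γ hΓ hI
  refine ⟨2 * C₀, c', fun i => qom (w i), f, by positivity, hc', hf, ?_, fun x => ?_⟩
  · intro a u v ha hv
    exact (hinv v u fun s => dens_inv _ a u v ha hv)
  · have := hsum x
    rwa [hval] at this

end Pool.Agent.S50X
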