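import Pool.Agent.S50X.Decomp

open MeasureTheory Metric Set Filter Topology Module

namespace Pool.Agent.S50X

variable {n : ℕ}

/-- The vector of a matrix. -/
noncomputable def vec : Matrix (Fin n) (Fin 2) ℂ →ₗ[ℂ] EC (Fin n × Fin 2) where
  toFun x := WithLp.toLp 2 fun ij => x ij.1 ij.2
  map_add' x y := by
    ext ij
    simp
  map_smul' c x := by
    ext ij
    simp

theorem mat_vec (x : Matrix (Fin n) (Fin 2) ℂ) : mat (vec x) = x := by
  ext i j
  rfl

theorem norm_vec (x : Matrix (Fin n) (Fin 2) ℂ) : ‖vec x‖ ^ 2 = hsK x := by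
  rw [← hs_mat, mat_vec]

/-- The eigenvalues of `x* x`. -/
noncomputable abbrev eig (x : Matrix (Fin n) (Fin 2) ℂ) (j : Fin 2) : ℝ :=
  (Matrix.isHermitian_conjTranspose_mul_self x).eigenvalues j

theorem exists_decomp (hn : 0 < n) {p q : ℝ} (hp : 0 < p) (hpq : p < q) (hq : q < 2)
    (hA : HasApprox (Fin n × Fin 2) p) (hM : PowMix (q / 2) (p / 2)) (hG : GaussDeriv (p / 2)) :
    ∃ (c : ℕ → ℝ) (B : ℕ → Matrix (Fin n) (Fin 2) ℂ →ₗ[ℂ] EC (Fin n × Fin 2)),
      (∀ i, 0 ≤ c i) ∧ ∀ x : Matrix (Fin n) (Fin 2) ℂ,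
        HasSum (fun i => ∑ j, (c i * eig x j + ‖B i x‖ ^ 2) ^ (p / 2))
          ((∑ j, eig x j ^ (q / 2)) ^ (p / q)) := by
  have hβ : 0 < p / 2 := by positivity
  have hβ1 : p / 2 < 1 := by linarith
  obtain ⟨C, c', w, f, hC, hc', hf, hinv, hsum⟩ :=
    exists_cont_decomp (α := q / 2) hn hβ hβ1 hG hM
  have : NeZero n := ⟨hn.ne'⟩
  obtain ⟨N, B', hB'⟩ := countable_decomp hp hA f hf hinv
  have h2p : 2 * (p / 2) = p := by ring
  rw [h2p] at hsum
  have hab : p / 2 / (q / 2) = p / q := by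
    have : 0 < q := hp.trans hpq
    field_simp
  rw [hab] at hsum
  let J : Type := ℕ ⊕ (Σ k : ℕ, Fin (N k))
  let κ : ℕ → ℝ := fun i => (c' i / C) ^ (1 / (p / 2))
  let lam : ℝ := (1 / (2 * C)) ^ (1 / p)
  have hκ : ∀ i, 0 ≤ κ i := fun i => Real.rpow_nonneg (div_nonneg (hc' i) hC.le) _
  have hκβ : ∀ i, κ i ^ (p / 2) = c' i / C := fun i => by
    show ((c' i / C) ^ (1 / (p / 2))) ^ (p / 2) = _
    rw [← Real.rpow_mul (div_nonneg (hc' i) hC.le), one_div_mul_cancel hβ.ne', Real.rpow_one]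
  have hlam : 0 < lam := by
    show 0 < (1 / (2 * C)) ^ (1 / p)
    positivity
  have hlamp : lam ^ p = 1 / (2 * C) := by
    show ((1 / (2 * C)) ^ (1 / p)) ^ p = _
    rw [← Real.rpow_mul (by positivity), one_div_mul_cancel hp.ne', Real.rpow_one]
  let cJ : J → ℝ := Sum.elim (fun i => κ i * (2 * (w i).1.2)) (fun _ => 0)
  let BJ : J → Matrix (Fin n) (Fin 2) ℂ →ₗ[ℂ] EC (Fin n × Fin 2) := Sum.elim
    (fun i => ((√(κ i * ((w i).1.1 - (w i).1.2)) : ℝ) : ℂ) • vec)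
    (fun j => ((lam : ℝ) : ℂ) • (B' j ∘ₗ vec))
  have hcJ : ∀ j, 0 ≤ cJ j := by
    rintro (i | j)
    · have h1 := (w i).2.1
      have h2 := hκ i
      show 0 ≤ κ i * (2 * (w i).1.2)
      positivity
    · exact le_refl _
  have hJ : ∀ x : Matrix (Fin n) (Fin 2) ℂ,
      HasSum (fun a : J => ∑ j, (cJ a * eig x j + ‖BJ a x‖ ^ 2) ^ (p / 2))
        ((∑ j, eig x j ^ (q / 2)) ^ (p / q)) := by
    intro x
    have hsx := hsum (vec x)
    rw [mat_vec] at hsx
    have hBx := hB' (vec x)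
    have e1 : ((fun a : J => ∑ j, (cJ a * eig x j + ‖BJ a x‖ ^ 2) ^ (p / 2)) ∘ Sum.inl) =
        fun i => C⁻¹ * (c' i * (((w i).1.1 * hsK x + (w i).1.2 * gapK x) ^ (p / 2) +
          ((w i).1.1 * hsK x - (w i).1.2 * gapK x) ^ (p / 2))) := by
      funext i
      have h1 := (w i).2.1
      have h2 := (w i).2.2
      have h3 := hκ i
      have h4 : 0 ≤ κ i * ((w i).1.1 - (w i).1.2) := mul_nonneg h3 (by linarith)
      have h5 : ‖BJ (Sum.inl i) x‖ ^ 2 = κ i * ((w i).1.1 - (w i).1.2) * hsK x := by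
        show ‖((√(κ i * ((w i).1.1 - (w i).1.2)) : ℝ) : ℂ) • vec x‖ ^ 2 = _
        rw [norm_smul, mul_pow, norm_vec, Complex.norm_real, Real.norm_of_nonneg
          (Real.sqrt_nonneg _), Real.sq_sqrt h4]
      have h6 := sum_eigK x (fun t => (κ i * (2 * (w i).1.2) * t +
        κ i * ((w i).1.1 - (w i).1.2) * hsK x) ^ (p / 2))
      show ∑ j, (κ i * (2 * (w i).1.2) * eig x j + ‖BJ (Sum.inl i) x‖ ^ 2) ^ (p / 2) = _
      rw [h5]
      refine h6.trans ?_
      have g1 := hsK_nonneg x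
      have g2 := gapK_nonneg x
      have g3 := gapK_le x
      have h7 : κ i * (2 * (w i).1.2) * ((hsK x + gapK x) / 2) +
          κ i * ((w i).1.1 - (w i).1.2) * hsK x =
          κ i * ((w i).1.1 * hsK x + (w i).1.2 * gapK x) := by ring
      have h8 : κ i * (2 * (w i).1.2) * ((hsK x - gapK x) / 2) +
          κ i * ((w i).1.1 - (w i).1.2) * hsK x =
          κ i * ((w i).1.1 * hsK x - (w i).1.2 * gapK x) := by ring
      have h9 : 0 ≤ (w i).1.1 * hsK x + (w i).1.2 * gapK x := by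
        have : 0 ≤ (w i).1.1 := h1.trans h2.le
        positivity
      have h10 : 0 ≤ (w i).1.1 * hsK x - (w i).1.2 * gapK x := by
        nlinarith [mul_nonneg h1 (sub_nonneg.mpr g3), mul_nonneg (sub_nonneg.mpr h2.le) g1]
      simp only [h7, h8]
      rw [Real.mul_rpow h3 h9, Real.mul_rpow h3 h10, hκβ]
      ring
    have e2 : ((fun a : J => ∑ j, (cJ a * eig x j + ‖BJ a x‖ ^ 2) ^ (p / 2)) ∘ Sum.inr) =
        fun j => C⁻¹ * ‖B' j (vec x)‖ ^ p := by
      funext a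
      have h5 : ‖BJ (Sum.inr a) x‖ ^ 2 = (lam * ‖B' a (vec x)‖) ^ 2 := by
        show ‖((lam : ℝ) : ℂ) • B' a (vec x)‖ ^ 2 = _
        rw [norm_smul, Complex.norm_real, Real.norm_of_nonneg hlam.le]
      show ∑ j, (0 * eig x j + ‖BJ (Sum.inr a) x‖ ^ 2) ^ (p / 2) = _
      rw [h5]
      simp only [zero_mul, zero_add, Finset.sum_const, Finset.card_univ, Fintype.card_fin,
        nsmul_eq_mul]
      rw [← Real.rpow_natCast (lam * ‖B' a (vec x)‖) 2, ← Real.rpow_mul (by positivity)]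
      have h6 : ((2 : ℕ) : ℝ) * (p / 2) = p := by
        push_cast
        ring
      rw [h6, Real.mul_rpow hlam.le (norm_nonneg _), hlamp]
      push_cast
      field_simp
    have h1 : HasSum ((fun a : J => ∑ j, (cJ a * eig x j + ‖BJ a x‖ ^ 2) ^ (p / 2)) ∘ Sum.inl)
        (C⁻¹ * (C * (yp x ^ (q / 2) + ym x ^ (q / 2)) ^ (p / q) - ker p f (vec x))) := by
      rw [e1]
      exact hsx.mul_left _
    have h2 : HasSum ((fun a : J => ∑ j, (cJ a * eig x j + ‖BJ a x‖ ^ 2) ^ (p / 2)) ∘ Sum.inr)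
        (C⁻¹ * ker p f (vec x)) := by
      rw [e2]
      exact hBx.mul_left _
    have h3 := h1.sum h2
    have h4 : ∑ j, eig x j ^ (q / 2) = yp x ^ (q / 2) + ym x ^ (q / 2) :=
      sum_eigK x (fun t => t ^ (q / 2))
    rw [h4]
    convert! h3 using 1
    field_simp
    ring
  obtain ⟨e⟩ : Nonempty (ℕ ≃ J) := nonempty_equiv_of_countable
  refine ⟨fun i => cJ (e i), fun i => BJ (e i), fun i => hcJ _, fun x => ?_⟩
  exact (e.hasSum_iff (f := fun a : J => ∑ j, (cJ a * eig x j + ‖BJ a x‖ ^ 2) ^ (p / 2))).mpr (hJ x)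

end Pool.Agent.S50X
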