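import Pool.Agent.S50X.Mat

open MeasureTheory Metric Set Filter Topology Module
open scoped Matrix MatrixOrder ComplexOrder

namespace Pool.Agent.S50X

/-! ### Algebra of `2 × 2` matrices -/

theorem hs_nonneg (x : Matrix (Fin 2) (Fin 2) ℂ) : 0 ≤ hs x := by
  unfold hs
  positivity

theorem two_det_le (x : Matrix (Fin 2) (Fin 2) ℂ) : 2 * ‖x.det‖ ≤ hs x := by
  rw [Matrix.det_fin_two]
  have h1 : ‖x 0 0 * x 1 1 - x 0 1 * x 1 0‖ ≤ ‖x 0 0‖ * ‖x 1 1‖ + ‖x 0 1‖ * ‖x 1 0‖ := by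
    refine (norm_sub_le _ _).trans ?_
    rw [norm_mul, norm_mul]
  have h2 : hs x = ‖x 0 0‖ ^ 2 + ‖x 0 1‖ ^ 2 + (‖x 1 0‖ ^ 2 + ‖x 1 1‖ ^ 2) := by
    simp [hs, Fin.sum_univ_two]
  rw [h2]
  nlinarith [sq_nonneg (‖x 0 0‖ - ‖x 1 1‖), sq_nonneg (‖x 0 1‖ - ‖x 1 0‖)]

theorem gap_nonneg (x : Matrix (Fin 2) (Fin 2) ℂ) : 0 ≤ gap x := Real.sqrt_nonneg _

theorem gap_sq (x : Matrix (Fin 2) (Fin 2) ℂ) :
    gap x ^ 2 = hs x ^ 2 - 4 * ‖x.det‖ ^ 2 := by
  unfold gap
  rw [Real.sq_sqrt]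
  have h1 := two_det_le x
  have h2 : 0 ≤ ‖x.det‖ := norm_nonneg _
  nlinarith [hs_nonneg x]

theorem gap_le (x : Matrix (Fin 2) (Fin 2) ℂ) : gap x ≤ hs x := by
  have h1 := gap_sq x
  have h2 : 0 ≤ ‖x.det‖ ^ 2 := by positivity
  exact (sq_le_sq₀ (gap_nonneg x) (hs_nonneg x)).mp (by linarith)

theorem trace_gram (x : Matrix (Fin 2) (Fin 2) ℂ) : (xᴴ * x).trace = (hs x : ℂ) := by
  simp only [Matrix.trace_fin_two, Matrix.mul_apply, Fin.sum_univ_two, Matrix.conjTranspose_apply,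
    hs, Complex.ofReal_add, Complex.ofReal_pow, ← Complex.mul_conj', RCLike.star_def]
  ring

theorem det_gram (x : Matrix (Fin 2) (Fin 2) ℂ) : (xᴴ * x).det = ((‖x.det‖ ^ 2 : ℝ) : ℂ) := by
  rw [Matrix.det_mul, Matrix.det_conjTranspose, Complex.ofReal_pow, ← Complex.conj_mul']
  rfl

theorem sum_eig (x : Matrix (Fin 2) (Fin 2) ℂ) (φ : ℝ → ℝ) :
    ∑ j, φ ((Matrix.isHermitian_conjTranspose_mul_self x).eigenvalues j) =
      φ ((hs x + gap x) / 2) + φ ((hs x - gap x) / 2) := by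
  set hH := Matrix.isHermitian_conjTranspose_mul_self x with hHdef
  have h1 : hH.eigenvalues 0 + hH.eigenvalues 1 = hs x := by
    have h := hH.trace_eq_sum_eigenvalues
    rw [trace_gram, Fin.sum_univ_two] at h
    have h' : ((hH.eigenvalues 0 + hH.eigenvalues 1 : ℝ) : ℂ) = (hs x : ℂ) := by
      rw [h]
      push_cast
      rfl
    exact_mod_cast h'
  have h2 : hH.eigenvalues 0 * hH.eigenvalues 1 = ‖x.det‖ ^ 2 := by
    have h := hH.det_eq_prod_eigenvalues
    rw [det_gram, Fin.prod_univ_two] at h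
    have h' : ((hH.eigenvalues 0 * hH.eigenvalues 1 : ℝ) : ℂ) = ((‖x.det‖ ^ 2 : ℝ) : ℂ) := by
      rw [h]
      push_cast
      rfl
    exact_mod_cast h'
  have h3 : gap x = |hH.eigenvalues 0 - hH.eigenvalues 1| := by
    unfold gap
    rw [← Real.sqrt_sq_eq_abs]
    congr 1
    rw [← h1, ← h2]
    ring
  rw [Fin.sum_univ_two]
  rcases le_total (hH.eigenvalues 0) (hH.eigenvalues 1) with h | h
  · rw [abs_of_nonpos (by linarith)] at h3
    have e1 : hH.eigenvalues 0 = (hs x - gap x) / 2 := by linarith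
    have e2 : hH.eigenvalues 1 = (hs x + gap x) / 2 := by linarith
    rw [e1, e2, add_comm]
  · rw [abs_of_nonneg (by linarith)] at h3
    have e1 : hH.eigenvalues 0 = (hs x + gap x) / 2 := by linarith
    have e2 : hH.eigenvalues 1 = (hs x - gap x) / 2 := by linarith
    rw [e1, e2]

/-! ### The Gaussian integral of a quadratic form -/

theorem norm_sq_toEuclideanLin (B : Matrix (Fin 2) (Fin 2) ℂ) (g : EC (Fin 2)) :
    ((‖Matrix.toEuclideanLin B g‖ ^ 2 : ℝ) : ℂ) = star g.ofLp ⬝ᵥ ((Bᴴ * B) *ᵥ g.ofLp) := by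
  rw [← Matrix.mulVec_mulVec, Matrix.dotProduct_mulVec, ← Matrix.star_mulVec]
  have h := EuclideanSpace.norm_sq_eq (Matrix.toEuclideanLin B g)
  rw [h]
  simp only [Matrix.ofLp_toEuclideanLin_apply, dotProduct, Pi.star_apply, Complex.ofReal_sum,
    Complex.ofReal_pow, RCLike.star_def]
  refine Finset.sum_congr rfl fun i _ => ?_
  rw [← Complex.conj_mul']

theorem gauss_exp (x : Matrix (Fin 2) (Fin 2) ℂ) {a c : ℝ} (ha : 0 < a) (hc : 0 ≤ c) :
    ∫ g : EC (Fin 2), Real.exp (-(a * ‖g‖ ^ 2 + c * ‖Matrix.toEuclideanLin x g‖ ^ 2)) =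
      (∫ g : EC (Fin 2), Real.exp (-‖g‖ ^ 2)) /
        ((a + c * ((hs x + gap x) / 2)) * (a + c * ((hs x - gap x) / 2))) := by
  set M : Matrix (Fin 2) (Fin 2) ℂ := (a : ℂ) • 1 + (c : ℂ) • (xᴴ * x) with hM
  have hMp : M.PosSemidef := by
    refine Matrix.PosSemidef.add ?_ ?_
    · exact Matrix.PosSemidef.one.smul (by exact_mod_cast ha.le)
    · exact (Matrix.posSemidef_conjTranspose_mul_self x).smul (by exact_mod_cast hc)
  obtain ⟨B, hB⟩ := CStarAlgebra.nonneg_iff_eq_star_mul_self.mp hMp.nonneg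
  rw [Matrix.star_eq_conjTranspose] at hB
  have hnorm : ∀ g : EC (Fin 2), ‖Matrix.toEuclideanLin B g‖ ^ 2 =
      a * ‖g‖ ^ 2 + c * ‖Matrix.toEuclideanLin x g‖ ^ 2 := by
    intro g
    have h1 := norm_sq_toEuclideanLin B g
    have h2 := norm_sq_toEuclideanLin x g
    have h3 : ((‖g‖ ^ 2 : ℝ) : ℂ) = star g.ofLp ⬝ᵥ g.ofLp := by
      have := norm_sq_toEuclideanLin 1 g
      simpa using this
    rw [← hB, hM, Matrix.add_mulVec, dotProduct_add, Matrix.smul_mulVec, Matrix.smul_mulVec,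
      dotProduct_smul, dotProduct_smul, ← h2, Matrix.one_mulVec, ← h3] at h1
    simp only [smul_eq_mul] at h1
    exact_mod_cast h1
  set Y₀ := a + c * ((hs x + gap x) / 2) with hY₀
  set Y₁ := a + c * ((hs x - gap x) / 2) with hY₁
  have hY0 : 0 < Y₀ := by
    have := hs_nonneg x
    have := gap_nonneg x
    positivity
  have hY1 : 0 < Y₁ := by
    have h1 := gap_le x
    have : 0 ≤ c * ((hs x - gap x) / 2) := mul_nonneg hc (by linarith)
    linarith
  have hdet : ‖B.det‖ ^ 2 = Y₀ * Y₁ := by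
    have h1 : M.det = ((‖B.det‖ ^ 2 : ℝ) : ℂ) := by rw [hB, det_gram]
    have h2 : M.det = ((Y₀ * Y₁ : ℝ) : ℂ) := by
      have h3 : M.det = (a : ℂ) ^ 2 + a * c * (xᴴ * x).trace + c ^ 2 * (xᴴ * x).det := by
        rw [hM, Matrix.det_fin_two, Matrix.det_fin_two, Matrix.trace_fin_two]
        simp only [Matrix.add_apply, Matrix.smul_apply, Matrix.one_apply_eq, smul_eq_mul,
          mul_one]
        rw [Matrix.one_apply_ne (by decide), Matrix.one_apply_ne (by decide)]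
        ring
      have h4 : Y₀ * Y₁ = a ^ 2 + a * c * hs x + c ^ 2 * ‖x.det‖ ^ 2 := by
        have h5 := gap_sq x
        rw [hY₀, hY₁]
        linear_combination (-c ^ 2 / 4) * h5
      rw [h3, trace_gram, det_gram, h4]
      push_cast
      ring
    rw [h1] at h2
    exact_mod_cast h2
  set L : EC (Fin 2) →ₗ[ℝ] EC (Fin 2) := (Matrix.toEuclideanLin B).restrictScalars ℝ with hL
  have hLdet : LinearMap.det L = Y₀ * Y₁ := by
    rw [hL, LinearMap.det_restrictScalars, Algebra.norm_complex_apply,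
      Matrix.toEuclideanLin_eq_toLin, LinearMap.det_toLin, Complex.normSq_eq_norm_sq, hdet]
  have hpos : 0 < Y₀ * Y₁ := mul_pos hY0 hY1
  have hmap := Measure.map_linearMap_addHaar_eq_smul_addHaar (volume : Measure (EC (Fin 2)))
    (f := L) (by rw [hLdet]; exact hpos.ne')
  have hLc : Continuous L := LinearMap.continuous_of_finiteDimensional L
  have h1 : ∫ g : EC (Fin 2), Real.exp (-(a * ‖g‖ ^ 2 + c * ‖Matrix.toEuclideanLin x g‖ ^ 2)) =
      ∫ g : EC (Fin 2), Real.exp (-‖L g‖ ^ 2) := by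
    refine integral_congr_ae (Eventually.of_forall fun g => ?_)
    show _ = Real.exp (-‖Matrix.toEuclideanLin B g‖ ^ 2)
    rw [hnorm g]
  have h2 : ∫ g : EC (Fin 2), Real.exp (-‖L g‖ ^ 2) =
      ∫ y, Real.exp (-‖y‖ ^ 2) ∂(Measure.map L volume) := by
    rw [integral_map hLc.measurable.aemeasurable]
    have : Continuous fun y : EC (Fin 2) => Real.exp (-‖y‖ ^ 2) := by fun_prop
    exact this.aestronglyMeasurable
  rw [h1, h2, hmap, integral_smul_measure, hLdet, ENNReal.toReal_ofReal (abs_nonneg _),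
    abs_of_pos (inv_pos.mpr hpos), smul_eq_mul, div_eq_inv_mul]

theorem integrable_gauss {V : Type*} [NormedAddCommGroup V] [InnerProductSpace ℝ V]
    [FiniteDimensional ℝ V] [MeasurableSpace V] [BorelSpace V] {b : ℝ} (hb : 0 < b) :
    Integrable fun v : V => Real.exp (-b * ‖v‖ ^ 2) := by
  have h := (GaussianFourier.integrable_cexp_neg_mul_sq_norm_add (V := V) (b := (b : ℂ))
    (by simpa using hb) 0 0).norm
  refine h.congr (Eventually.of_forall fun v => ?_)
  simp only [inner_zero_left, Complex.norm_exp]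
  congr 1
  simp [← Complex.ofReal_pow]

/-! ### One-dimensional integrals -/

theorem integrableOn_kint {β : ℝ} (h0 : 0 < β) (h1 : β < 1) {φ : ℝ → ℝ} (hm : Measurable φ)
    {C : ℝ} (h : ∀ s, 0 < s → 0 ≤ φ s ∧ φ s ≤ 1 ∧ φ s ≤ C * s) :
    IntegrableOn (fun s => φ s * s ^ (-1 - β)) (Ioi 0) := by
  have hmeas : Measurable fun s : ℝ => φ s * s ^ (-1 - β) := hm.mul (by fun_prop)
  rw [← Ioc_union_Ioi_eq_Ioi (zero_le_one (α := ℝ))]
  refine IntegrableOn.union ?_ ?_
  · have h2 : IntegrableOn (fun s : ℝ => C * s ^ (-β)) (Ioc 0 1) := by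
      have := (intervalIntegral.intervalIntegrable_rpow' (a := 0) (b := 1) (r := -β)
        (by linarith)).const_mul C
      exact (intervalIntegrable_iff_integrableOn_Ioc_of_le zero_le_one).mp this
    refine Integrable.mono' h2 hmeas.aestronglyMeasurable ?_
    rw [ae_restrict_iff' measurableSet_Ioc]
    refine Eventually.of_forall fun s hs => ?_
    have h3 := h s hs.1
    have h4 : (0 : ℝ) ≤ s ^ (-1 - β) := Real.rpow_nonneg hs.1.le _
    rw [Real.norm_of_nonneg (mul_nonneg h3.1 h4)]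
    calc φ s * s ^ (-1 - β) ≤ (C * s) * s ^ (-1 - β) := mul_le_mul_of_nonneg_right h3.2.2 h4
      _ = C * s ^ (-β) := by
        rw [mul_assoc, ← Real.rpow_one_add' hs.1.le (by linarith)]
        congr 2
        ring
  · have h2 : IntegrableOn (fun s : ℝ => s ^ (-1 - β)) (Ioi 1) :=
      integrableOn_Ioi_rpow_of_lt (by linarith) one_pos
    refine Integrable.mono' h2 hmeas.aestronglyMeasurable ?_
    rw [ae_restrict_iff' measurableSet_Ioi]
    refine Eventually.of_forall fun s hs => ?_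
    have hs' : (0 : ℝ) < s := lt_trans one_pos hs
    have h3 := h s hs'
    have h4 : (0 : ℝ) ≤ s ^ (-1 - β) := Real.rpow_nonneg hs'.le _
    rw [Real.norm_of_nonneg (mul_nonneg h3.1 h4)]
    exact mul_le_of_le_one_left h4 h3.2.1

theorem kint_scale {β : ℝ} (φ : ℝ → ℝ) {z : ℝ} (hz : 0 < z) :
    ∫ s in Ioi 0, φ (z * s) * s ^ (-1 - β) = z ^ β * ∫ s in Ioi 0, φ s * s ^ (-1 - β) := by
  have h1 := integral_comp_mul_left_Ioi (fun s => φ s * s ^ (-1 - β)) 0 hz
  simp only [mul_zero, smul_eq_mul] at h1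
  have h2 : ∫ s in Ioi 0, φ (z * s) * (z * s) ^ (-1 - β) =
      z ^ (-1 - β) * ∫ s in Ioi 0, φ (z * s) * s ^ (-1 - β) := by
    rw [← integral_const_mul]
    refine setIntegral_congr_fun measurableSet_Ioi fun s hs => ?_
    have hs' : (0 : ℝ) < s := hs
    rw [Real.mul_rpow hz.le hs'.le]
    ring
  rw [h2] at h1
  have h3 : z ^ (1 + β) * (z ^ (-1 - β) * ∫ s in Ioi 0, φ (z * s) * s ^ (-1 - β)) =
      z ^ (1 + β) * (z⁻¹ * ∫ s in Ioi 0, φ s * s ^ (-1 - β)) := by rw [h1]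
  rw [← mul_assoc, ← Real.rpow_add hz, ← mul_assoc] at h3
  have h4 : z ^ (1 + β) * z⁻¹ = z ^ β := by
    rw [← Real.rpow_neg_one, ← Real.rpow_add hz]
    congr 1
    ring
  rw [h4, show 1 + β + (-1 - β) = 0 by ring, Real.rpow_zero, one_mul] at h3
  exact h3

theorem kint_pos {β : ℝ} {φ : ℝ → ℝ} (hφ : ∀ s, 0 < s → 0 < φ s)
    (hi : IntegrableOn (fun s => φ s * s ^ (-1 - β)) (Ioi 0)) :
    0 < ∫ s in Ioi 0, φ s * s ^ (-1 - β) := by
  have hpos : ∀ s ∈ Ioi (0 : ℝ), 0 < φ s * s ^ (-1 - β) := fun s hs =>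
    mul_pos (hφ s hs) (Real.rpow_pos_of_pos hs _)
  rw [setIntegral_pos_iff_support_of_nonneg_ae]
  · have : Ioi (0 : ℝ) ⊆ Function.support (fun s => φ s * s ^ (-1 - β)) ∩ Ioi 0 :=
      fun s hs => ⟨(hpos s hs).ne', hs⟩
    refine lt_of_lt_of_le ?_ (measure_mono this)
    rw [Real.volume_Ioi]
    exact ENNReal.zero_lt_top
  · rw [EventuallyLE, ae_restrict_iff' measurableSet_Ioi]
    exact Eventually.of_forall fun s hs => (hpos s hs).le
  · exact hi

/-- The function `1 - 1 / ((1 + Y₀ s) (1 + Y₁ s))`. -/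
noncomputable def psi (Y₀ Y₁ s : ℝ) : ℝ := 1 - 1 / ((1 + Y₀ * s) * (1 + Y₁ * s))

theorem psi_bounds {Y₀ Y₁ : ℝ} (hY₀ : 0 ≤ Y₀) (hY₁ : 0 ≤ Y₁) (s : ℝ) (hs : 0 < s) :
    0 ≤ psi Y₀ Y₁ s ∧ psi Y₀ Y₁ s ≤ 1 ∧ psi Y₀ Y₁ s ≤ (Y₀ + Y₁) * s := by
  unfold psi
  have ha : 0 ≤ Y₀ * s := by positivity
  have hb : 0 ≤ Y₁ * s := by positivity
  have hD : 1 ≤ (1 + Y₀ * s) * (1 + Y₁ * s) := by nlinarith
  have hD0 : 0 < (1 + Y₀ * s) * (1 + Y₁ * s) := by linarith
  refine ⟨?_, ?_, ?_⟩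
  · rw [sub_nonneg, div_le_one hD0]
    exact hD
  · have : 0 ≤ 1 / ((1 + Y₀ * s) * (1 + Y₁ * s)) := by positivity
    linarith
  · have h1 : 1 - 1 / ((1 + Y₀ * s) * (1 + Y₁ * s)) =
        (Y₀ * s + Y₁ * s + (Y₀ * s) * (Y₁ * s)) / ((1 + Y₀ * s) * (1 + Y₁ * s)) := by
      field_simp
      ring
    rw [h1, div_le_iff₀ hD0]
    nlinarith [mul_nonneg ha hb, mul_nonneg (mul_nonneg ha hb) ha, mul_nonneg (mul_nonneg ha hb) hb,
      mul_nonneg ha ha, mul_nonneg hb hb]

theorem measurable_psi (Y₀ Y₁ : ℝ) : Measurable (psi Y₀ Y₁) := by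
  unfold psi
  fun_prop

theorem integrableOn_psi {β : ℝ} (h0 : 0 < β) (h1 : β < 1) {Y₀ Y₁ : ℝ} (hY₀ : 0 ≤ Y₀)
    (hY₁ : 0 ≤ Y₁) : IntegrableOn (fun s => psi Y₀ Y₁ s * s ^ (-1 - β)) (Ioi 0) :=
  integrableOn_kint h0 h1 (measurable_psi Y₀ Y₁) (psi_bounds hY₀ hY₁)

/-- The constant `κ`. -/
noncomputable def kap (β : ℝ) : ℝ := ∫ s in Ioi (0 : ℝ), psi 1 0 s * s ^ (-1 - β)

theorem kap_pos {β : ℝ} (h0 : 0 < β) (h1 : β < 1) : 0 < kap β := by
  refine kint_pos (fun s hs => ?_) (integrableOn_psi h0 h1 zero_le_one le_rfl)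
  unfold psi
  have : 1 / ((1 + 1 * s) * (1 + 0 * s)) < 1 := by
    rw [div_lt_one (by positivity)]
    nlinarith
  linarith

theorem psi_one_int {β : ℝ} (h0 : 0 < β) {Y : ℝ} (hY : 0 ≤ Y) :
    ∫ s in Ioi (0 : ℝ), psi Y 0 s * s ^ (-1 - β) = Y ^ β * kap β := by
  rcases hY.eq_or_lt with rfl | hY
  · simp [psi, Real.zero_rpow h0.ne']
  · rw [kap, ← kint_scale (psi 1 0) hY]
    simp [psi]

theorem psi_diag_int {β : ℝ} (h0 : 0 < β) {Y : ℝ} (hY : 0 ≤ Y) :
    ∫ s in Ioi (0 : ℝ), psi Y Y s * s ^ (-1 - β) =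
      Y ^ β * ∫ s in Ioi (0 : ℝ), psi 1 1 s * s ^ (-1 - β) := by
  rcases hY.eq_or_lt with rfl | hY
  · simp [psi, Real.zero_rpow h0.ne']
  · rw [← kint_scale (psi 1 1) hY]
    simp [psi]

theorem psi_int {β : ℝ} (h0 : 0 < β) (h1 : β < 1) {Y₀ Y₁ : ℝ} (hY₀ : 0 ≤ Y₀) (hY₁ : 0 ≤ Y₁) :
    (Y₀ - Y₁) * ∫ s in Ioi (0 : ℝ), psi Y₀ Y₁ s * s ^ (-1 - β) =
      kap β * (Y₀ ^ (β + 1) - Y₁ ^ (β + 1)) := by
  have hi0 := integrableOn_psi h0 h1 hY₀ (le_refl (0 : ℝ))
  have hi1 := integrableOn_psi h0 h1 hY₁ (le_refl (0 : ℝ))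
  have h2 : (Y₀ - Y₁) * ∫ s in Ioi (0 : ℝ), psi Y₀ Y₁ s * s ^ (-1 - β) =
      ∫ s in Ioi (0 : ℝ), (Y₀ * (psi Y₀ 0 s * s ^ (-1 - β)) - Y₁ * (psi Y₁ 0 s * s ^ (-1 - β))) := by
    rw [← integral_const_mul]
    refine setIntegral_congr_fun measurableSet_Ioi fun s hs => ?_
    have hs' : (0 : ℝ) < s := hs
    have ha : 0 < 1 + Y₀ * s := by positivity
    have hb : 0 < 1 + Y₁ * s := by positivity
    simp only [psi]
    field_simp
    ring
  rw [h2, integral_sub (hi0.const_mul _) (hi1.const_mul _), integral_const_mul, integral_const_mul,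
    psi_one_int h0 hY₀, psi_one_int h0 hY₁, Real.rpow_add_one' hY₀ (by linarith),
    Real.rpow_add_one' hY₁ (by linarith)]
  ring

theorem psi_mono {β : ℝ} (h0 : 0 < β) (h1 : β < 1) {Y₀ Y₁ Z₀ Z₁ : ℝ} (hY₀ : 0 ≤ Y₀) (hY₁ : 0 ≤ Y₁)
    (hZ₀ : Y₀ ≤ Z₀) (hZ₁ : Y₁ ≤ Z₁) :
    ∫ s in Ioi (0 : ℝ), psi Y₀ Y₁ s * s ^ (-1 - β) ≤
      ∫ s in Ioi (0 : ℝ), psi Z₀ Z₁ s * s ^ (-1 - β) := by
  refine setIntegral_mono_on (integrableOn_psi h0 h1 hY₀ hY₁)
    (integrableOn_psi h0 h1 (hY₀.trans hZ₀) (hY₁.trans hZ₁)) measurableSet_Ioi fun s hs => ?_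
  have hs' : (0 : ℝ) < s := hs
  refine mul_le_mul_of_nonneg_right ?_ (Real.rpow_nonneg hs'.le _)
  unfold psi
  refine sub_le_sub_left ?_ _
  have ha : 0 < 1 + Y₀ * s := by positivity
  have hb : 0 < 1 + Y₁ * s := by positivity
  refine one_div_le_one_div_of_le (by positivity) ?_
  have h2 : Y₀ * s ≤ Z₀ * s := mul_le_mul_of_nonneg_right hZ₀ hs'.le
  have h3 : Y₁ * s ≤ Z₁ * s := mul_le_mul_of_nonneg_right hZ₁ hs'.le
  exact mul_le_mul (by linarith) (by linarith) hb.le (by linarith)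

theorem psi_one_one {β : ℝ} (h0 : 0 < β) (h1 : β < 1) :
    ∫ s in Ioi (0 : ℝ), psi 1 1 s * s ^ (-1 - β) = kap β * (β + 1) := by
  set I := ∫ s in Ioi (0 : ℝ), psi 1 1 s * s ^ (-1 - β) with hI
  have hd : HasDerivAt (fun Y : ℝ => Y ^ (β + 1)) (β + 1) 1 := by
    have := Real.hasDerivAt_rpow_const (x := 1) (p := β + 1) (Or.inl one_ne_zero)
    simpa using this
  have hslope : Tendsto (fun Y : ℝ => (Y - 1)⁻¹ * (Y ^ (β + 1) - 1)) (𝓝[>] 1) (𝓝 (β + 1)) := by
    have h2 := hd.hasDerivWithinAt (s := Ioi 1)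
    rw [hasDerivWithinAt_iff_tendsto_slope' (by simp)] at h2
    refine h2.congr fun Y => ?_
    simp [slope_def_field, div_eq_inv_mul]
  have hval : ∀ Y : ℝ, 1 < Y → ∫ s in Ioi (0 : ℝ), psi Y 1 s * s ^ (-1 - β) =
      kap β * ((Y - 1)⁻¹ * (Y ^ (β + 1) - 1)) := by
    intro Y hY
    have h2 := psi_int h0 h1 (Y₀ := Y) (Y₁ := 1) (by linarith) zero_le_one
    rw [Real.one_rpow] at h2
    have h3 : Y - 1 ≠ 0 := by linarith
    field_simp
    linarith
  have hlim := hslope.const_mul (kap β)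
  refine le_antisymm ?_ ?_
  · refine ge_of_tendsto hlim ?_
    filter_upwards [self_mem_nhdsWithin] with Y hY
    have hY' : (1 : ℝ) < Y := hY
    rw [← hval Y hY']
    exact psi_mono h0 h1 zero_le_one zero_le_one hY'.le le_rfl
  · have hlim2 : Tendsto (fun Y : ℝ => Y ^ β * I) (𝓝[>] 1) (𝓝 I) := by
      have h3 : Tendsto (fun Y : ℝ => Y ^ β * I) (𝓝 1) (𝓝 ((1 : ℝ) ^ β * I)) := by
        refine Tendsto.mul_const I ?_
        exact (Real.continuousAt_rpow_const 1 β (Or.inl one_ne_zero)).tendsto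
      rw [Real.one_rpow, one_mul] at h3
      exact h3.mono_left nhdsWithin_le_nhds
    refine le_of_tendsto_of_tendsto hlim hlim2 ?_
    filter_upwards [self_mem_nhdsWithin] with Y hY
    have hY' : (1 : ℝ) < Y := hY
    rw [← hval Y hY', hI, ← psi_diag_int h0 (by linarith)]
    exact psi_mono h0 h1 (by linarith) zero_le_one le_rfl hY'.le

/-- The constant `κ'`. -/
noncomputable def kap' (β : ℝ) : ℝ := ∫ s in Ioi (0 : ℝ), (1 - Real.exp (-s)) * s ^ (-1 - β)

theorem exp_bounds {z : ℝ} (hz : 0 ≤ z) (s : ℝ) (hs : 0 < s) :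
    0 ≤ 1 - Real.exp (-(z * s)) ∧ 1 - Real.exp (-(z * s)) ≤ 1 ∧
      1 - Real.exp (-(z * s)) ≤ z * s := by
  have h1 : 0 ≤ z * s := by positivity
  refine ⟨?_, ?_, ?_⟩
  · have : Real.exp (-(z * s)) ≤ 1 := Real.exp_le_one_iff.mpr (by linarith)
    linarith
  · have := Real.exp_pos (-(z * s))
    linarith
  · have := Real.add_one_le_exp (-(z * s))
    linarith

theorem kap'_pos {β : ℝ} (h0 : 0 < β) (h1 : β < 1) : 0 < kap' β := by
  refine kint_pos (fun s hs => ?_) (integrableOn_kint h0 h1 (C := 1) (by fun_prop) fun s hs => ?_)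
  · have : Real.exp (-s) < Real.exp 0 := Real.exp_lt_exp.mpr (by linarith)
    rw [Real.exp_zero] at this
    linarith
  · simpa using exp_bounds zero_le_one s hs

theorem exp_int {β : ℝ} (h0 : 0 < β) {z : ℝ} (hz : 0 ≤ z) :
    ∫ s in Ioi (0 : ℝ), (1 - Real.exp (-(z * s))) * s ^ (-1 - β) = z ^ β * kap' β := by
  rcases hz.eq_or_lt with rfl | hz
  · simp [Real.zero_rpow h0.ne']
  · rw [kap', ← kint_scale (fun s => 1 - Real.exp (-s)) hz]

/-- The Gaussian constant. -/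
noncomputable def cG : ℝ := ∫ g : EC (Fin 2), Real.exp (-‖g‖ ^ 2)

theorem integrable_gauss_one : Integrable fun g : EC (Fin 2) => Real.exp (-‖g‖ ^ 2) := by
  have := integrable_gauss (V := EC (Fin 2)) one_pos
  simpa using this

theorem cG_pos : 0 < cG := by
  unfold cG
  exact integral_exp_pos integrable_gauss_one

theorem gauss_pow {β : ℝ} (h0 : 0 < β) (h1 : β < 1) (x : Matrix (Fin 2) (Fin 2) ℂ) {a c : ℝ}
    (ha : 0 ≤ a) (hc : 0 ≤ c) :
    ∫ g : EC (Fin 2), (a * ‖g‖ ^ 2 + c * ‖Matrix.toEuclideanLin x g‖ ^ 2) ^ β *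
        Real.exp (-‖g‖ ^ 2) =
      (kap' β)⁻¹ * cG * ∫ s in Ioi (0 : ℝ), psi (a + c * ((hs x + gap x) / 2))
        (a + c * ((hs x - gap x) / 2)) s * s ^ (-1 - β) := by
  set Y₀ := a + c * ((hs x + gap x) / 2) with hY₀
  set Y₁ := a + c * ((hs x - gap x) / 2) with hY₁
  have hY0 : 0 ≤ Y₀ := by
    have := hs_nonneg x
    have := gap_nonneg x
    positivity
  have hY1 : 0 ≤ Y₁ := by
    have h1 := gap_le x
    have : 0 ≤ c * ((hs x - gap x) / 2) := mul_nonneg hc (by linarith)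
    linarith
  set z : EC (Fin 2) → ℝ := fun g => a * ‖g‖ ^ 2 + c * ‖Matrix.toEuclideanLin x g‖ ^ 2 with hz
  have hz0 : ∀ g, 0 ≤ z g := fun g => by simp only [hz]; positivity
  have hlc : Continuous fun g : EC (Fin 2) => Matrix.toEuclideanLin x g :=
    LinearMap.continuous_of_finiteDimensional _
  have hzc : Continuous z := by
    simp only [hz]
    fun_prop
  set F : EC (Fin 2) → ℝ → ℝ := fun g s =>
    (1 - Real.exp (-(z g * s))) * s ^ (-1 - β) * Real.exp (-‖g‖ ^ 2) with hF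
  have hFm : Measurable (Function.uncurry F) := by
    have hz' : Measurable z := hzc.measurable
    simp only [hF, Function.uncurry_def]
    refine Measurable.mul (Measurable.mul ?_ ?_) ?_
    · have : Measurable fun p : EC (Fin 2) × ℝ => z p.1 := hz'.comp measurable_fst
      fun_prop
    · have : Measurable fun s : ℝ => s ^ (-1 - β) := by fun_prop
      exact this.comp measurable_snd
    · have : Measurable fun g : EC (Fin 2) => Real.exp (-‖g‖ ^ 2) := by fun_prop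
      exact this.comp measurable_fst
  have hFnn : ∀ g s, 0 < s → 0 ≤ F g s := by
    intro g s hs
    have h2 := (exp_bounds (hz0 g) s hs).1
    have h3 : (0 : ℝ) ≤ s ^ (-1 - β) := Real.rpow_nonneg hs.le _
    simp only [hF]
    exact mul_nonneg (mul_nonneg h2 h3) (Real.exp_nonneg _)
  -- integrability in `g`
  have hFg : ∀ s, 0 < s → Integrable fun g => F g s := by
    intro s hs
    have h3 : (0 : ℝ) ≤ s ^ (-1 - β) := Real.rpow_nonneg hs.le _
    refine Integrable.mono' (integrable_gauss_one.const_mul (s ^ (-1 - β)))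
      (hFm.comp (measurable_id.prodMk measurable_const)).aestronglyMeasurable ?_
    refine Eventually.of_forall fun g => ?_
    rw [Real.norm_of_nonneg (hFnn g s hs)]
    have h2 := (exp_bounds (hz0 g) s hs).2.1
    simp only [hF]
    refine mul_le_mul_of_nonneg_right ?_ (Real.exp_nonneg _)
    exact mul_le_of_le_one_left h3 h2
  have hGi : ∀ s, 0 < s → ∫ g, F g s = cG * (psi Y₀ Y₁ s * s ^ (-1 - β)) := by
    intro s hsp
    have h2 : (fun g => F g s) = fun g => s ^ (-1 - β) * (Real.exp (-‖g‖ ^ 2) -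
        Real.exp (-((1 + s * a) * ‖g‖ ^ 2 + (s * c) * ‖Matrix.toEuclideanLin x g‖ ^ 2))) := by
      funext g
      have h3 : Real.exp (-((1 + s * a) * ‖g‖ ^ 2 + (s * c) * ‖Matrix.toEuclideanLin x g‖ ^ 2)) =
          Real.exp (-(z g * s)) * Real.exp (-‖g‖ ^ 2) := by
        rw [← Real.exp_add]
        congr 1
        simp only [hz]
        ring
      rw [h3]
      simp only [hF]
      ring
    have h4 : Integrable fun g : EC (Fin 2) =>
        Real.exp (-((1 + s * a) * ‖g‖ ^ 2 + (s * c) * ‖Matrix.toEuclideanLin x g‖ ^ 2)) := by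
      refine Integrable.mono' integrable_gauss_one ?_ ?_
      · have : Continuous fun g : EC (Fin 2) => Real.exp (-((1 + s * a) * ‖g‖ ^ 2 +
            (s * c) * ‖Matrix.toEuclideanLin x g‖ ^ 2)) := by fun_prop
        exact this.aestronglyMeasurable
      · refine Eventually.of_forall fun g => ?_
        rw [Real.norm_of_nonneg (Real.exp_nonneg _)]
        refine Real.exp_le_exp.mpr ?_
        have : 0 ≤ s * a * ‖g‖ ^ 2 + (s * c) * ‖Matrix.toEuclideanLin x g‖ ^ 2 := by positivity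
        linarith
    rw [h2, integral_const_mul, integral_sub integrable_gauss_one h4,
      gauss_exp x (a := 1 + s * a) (c := s * c) (by positivity) (by positivity)]
    have h5 : 1 + s * a + s * c * ((hs x + gap x) / 2) = 1 + Y₀ * s := by rw [hY₀]; ring
    have h6 : 1 + s * a + s * c * ((hs x - gap x) / 2) = 1 + Y₁ * s := by rw [hY₁]; ring
    rw [h5, h6]
    unfold cG psi
    ring
  -- integrability on the product
  have hprod : Integrable (Function.uncurry F)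
      ((volume : Measure (EC (Fin 2))).prod (volume.restrict (Ioi (0 : ℝ)))) := by
    rw [integrable_prod_iff' hFm.aestronglyMeasurable]
    constructor
    · rw [ae_restrict_iff' measurableSet_Ioi]
      exact Eventually.of_forall fun s hs => hFg s hs
    · have h2 : IntegrableOn (fun s => cG * (psi Y₀ Y₁ s * s ^ (-1 - β))) (Ioi 0) :=
        (integrableOn_psi h0 h1 hY0 hY1).const_mul cG
      refine h2.congr ?_
      rw [EventuallyEq, ae_restrict_iff' measurableSet_Ioi]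
      refine Eventually.of_forall fun s hs => ?_
      have hs' : (0 : ℝ) < s := hs
      rw [← hGi s hs']
      refine integral_congr_ae (Eventually.of_forall fun g => ?_)
      simp only [Function.uncurry_apply_pair]
      rw [Real.norm_of_nonneg (hFnn g s hs')]
  have hswap := integral_integral_swap hprod
  have hL : ∫ g, ∫ s in Ioi (0 : ℝ), F g s =
      kap' β * ∫ g : EC (Fin 2), z g ^ β * Real.exp (-‖g‖ ^ 2) := by
    rw [← integral_const_mul]
    refine integral_congr_ae (Eventually.of_forall fun g => ?_)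
    simp only [hF]
    rw [integral_mul_const, exp_int h0 (hz0 g)]
    ring
  have hR : ∫ s in Ioi (0 : ℝ), ∫ g, F g s =
      cG * ∫ s in Ioi (0 : ℝ), psi Y₀ Y₁ s * s ^ (-1 - β) := by
    rw [← integral_const_mul]
    exact setIntegral_congr_fun measurableSet_Ioi fun s hs => hGi s hs
  rw [hL, hR] at hswap
  have hk := (kap'_pos h0 h1).ne'
  field_simp
  rw [mul_comm] at hswap
  linarith

theorem gauss_deriv {β : ℝ} (h0 : 0 < β) (h1 : β < 1) : ∃ K : ℝ, 0 < K ∧
    ∀ (x : Matrix (Fin 2) (Fin 2) ℂ) (E A : ℝ), 0 ≤ A → A < E →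
      HasDerivAt (fun l : ℝ => l * ∫ g : EC (Fin 2),
        ((E - l * A) * (hs x * ‖g‖ ^ 2) + 2 * l * A * ‖Matrix.toEuclideanLin x g‖ ^ 2) ^ β *
          Real.exp (-‖g‖ ^ 2))
        (K * ((E * hs x + A * gap x) ^ β + (E * hs x - A * gap x) ^ β)) 1 := by
  have hk := kap_pos h0 h1
  have hk' := kap'_pos h0 h1
  have hG := cG_pos
  refine ⟨(kap' β)⁻¹ * cG * kap β * (β + 1) / 2, by positivity, ?_⟩
  intro x E A hA hAE
  have hR := hs_nonneg x
  have hw := gap_nonneg x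
  have hwR := gap_le x
  set R := hs x with hRdef
  set w := gap x with hwdef
  -- the values near `l = 1`
  have hev : ∀ᶠ l : ℝ in 𝓝 1, 0 < l ∧ l * A < E := by
    refine (eventually_gt_nhds one_pos).and ?_
    have : Tendsto (fun l : ℝ => l * A) (𝓝 1) (𝓝 (1 * A)) :=
      (continuous_id.mul continuous_const).continuousAt.tendsto
    exact this.eventually_lt_const (by linarith)
  have hval : ∀ᶠ l : ℝ in 𝓝 1, (l * ∫ g : EC (Fin 2),
        ((E - l * A) * (R * ‖g‖ ^ 2) + 2 * l * A * ‖Matrix.toEuclideanLin x g‖ ^ 2) ^ β *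
          Real.exp (-‖g‖ ^ 2)) =
      l * ((kap' β)⁻¹ * cG * ∫ s in Ioi (0 : ℝ), psi (E * R + l * A * w) (E * R - l * A * w) s *
        s ^ (-1 - β)) := by
    filter_upwards [hev] with l hl
    have h2 := gauss_pow h0 h1 x (a := (E - l * A) * R) (c := 2 * l * A)
      (mul_nonneg (by linarith [hl.2]) hR) (by have := hl.1; positivity)
    have e1 : (E - l * A) * R + 2 * l * A * ((R + w) / 2) = E * R + l * A * w := by ring
    have e2 : (E - l * A) * R + 2 * l * A * ((R - w) / 2) = E * R - l * A * w := by ring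
    rw [e1, e2] at h2
    rw [← h2]
    congr 1
    refine integral_congr_ae (Eventually.of_forall fun g => ?_)
    simp only
    congr 2
    ring
  rcases eq_or_ne (A * w) 0 with hAw | hAw
  · -- the degenerate case
    have hER : 0 ≤ E * R := mul_nonneg (by linarith) hR
    have h3 : ∀ᶠ l : ℝ in 𝓝 1, (l * ∫ g : EC (Fin 2),
        ((E - l * A) * (R * ‖g‖ ^ 2) + 2 * l * A * ‖Matrix.toEuclideanLin x g‖ ^ 2) ^ β *
          Real.exp (-‖g‖ ^ 2)) =
        l * ((kap' β)⁻¹ * cG * ((E * R) ^ β * (kap β * (β + 1)))) := by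
      filter_upwards [hval] with l hl
      rw [hl, mul_assoc l A w, hAw, mul_zero, add_zero, sub_zero, psi_diag_int h0 hER,
        psi_one_one h0 h1]
    have h4 : HasDerivAt (fun l : ℝ => l * ((kap' β)⁻¹ * cG * ((E * R) ^ β * (kap β * (β + 1)))))
        ((kap' β)⁻¹ * cG * ((E * R) ^ β * (kap β * (β + 1)))) 1 := by
      simpa using (hasDerivAt_id (1 : ℝ)).mul_const
        ((kap' β)⁻¹ * cG * ((E * R) ^ β * (kap β * (β + 1))))
    have h5 := h4.congr_of_eventuallyEq h3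
    have e : (kap' β)⁻¹ * cG * kap β * (β + 1) / 2 * ((E * R + A * w) ^ β + (E * R - A * w) ^ β) =
        (kap' β)⁻¹ * cG * ((E * R) ^ β * (kap β * (β + 1))) := by
      rw [hAw, add_zero, sub_zero]
      ring
    rw [e]
    exact h5
  · have hA' : 0 < A := lt_of_le_of_ne hA (fun h => hAw (by rw [← h, zero_mul]))
    have hw' : 0 < w := lt_of_le_of_ne hw (fun h => hAw (by rw [← h, mul_zero]))
    have hR' : 0 < R := lt_of_lt_of_le hw' hwR
    have hE' : 0 < E := lt_of_le_of_lt hA hAE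
    have h3 : ∀ᶠ l : ℝ in 𝓝 1, (l * ∫ g : EC (Fin 2),
        ((E - l * A) * (R * ‖g‖ ^ 2) + 2 * l * A * ‖Matrix.toEuclideanLin x g‖ ^ 2) ^ β *
          Real.exp (-‖g‖ ^ 2)) =
        ((kap' β)⁻¹ * cG * kap β / (2 * (A * w))) *
          ((E * R + l * A * w) ^ (β + 1) - (E * R - l * A * w) ^ (β + 1)) := by
      filter_upwards [hval, hev] with l hl hl'
      rw [hl]
      have hlAw : 0 < l * A * w := mul_pos (mul_pos hl'.1 hA') hw'
      have h4 : l * A * w ≤ E * R :=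
        mul_le_mul hl'.2.le hwR hw (by linarith)
      have h5 := psi_int h0 h1 (Y₀ := E * R + l * A * w) (Y₁ := E * R - l * A * w)
        (by linarith) (by linarith)
      have h6 : E * R + l * A * w - (E * R - l * A * w) = l * (2 * (A * w)) := by ring
      rw [h6] at h5
      have h7 : (2 * (A * w)) ≠ 0 := by positivity
      rw [div_mul_eq_mul_div, eq_div_iff h7]
      linear_combination ((kap' β)⁻¹ * cG) * h5
    have hp : 0 < E * R + 1 * A * w := by positivity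
    have hm : 0 < E * R - 1 * A * w := by
      have : A * w < E * R := mul_lt_mul hAE hwR hw' (by linarith)
      linarith
    have h4 : HasDerivAt (fun l : ℝ => (E * R + l * A * w) ^ (β + 1) -
        (E * R - l * A * w) ^ (β + 1))
        ((A * w) * (β + 1) * (E * R + 1 * A * w) ^ (β + 1 - 1) -
          (-(A * w)) * (β + 1) * (E * R - 1 * A * w) ^ (β + 1 - 1)) 1 := by
      have d1 : HasDerivAt (fun l : ℝ => E * R + l * A * w) (A * w) 1 := by
        have := ((hasDerivAt_id (1 : ℝ)).mul_const (A * w)).const_add (E * R)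
        simpa [mul_assoc] using this
      have d2 : HasDerivAt (fun l : ℝ => E * R - l * A * w) (-(A * w)) 1 := by
        have := ((hasDerivAt_id (1 : ℝ)).mul_const (A * w)).const_sub (E * R)
        simpa [mul_assoc] using this
      exact (d1.rpow_const (Or.inl hp.ne')).sub (d2.rpow_const (Or.inl hm.ne'))
    have h5 := (h4.const_mul ((kap' β)⁻¹ * cG * kap β / (2 * (A * w)))).congr_of_eventuallyEq h3
    have e : (kap' β)⁻¹ * cG * kap β * (β + 1) / 2 * ((E * R + A * w) ^ β + (E * R - A * w) ^ β) =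
        (kap' β)⁻¹ * cG * kap β / (2 * (A * w)) *
          ((A * w) * (β + 1) * (E * R + 1 * A * w) ^ (β + 1 - 1) -
          (-(A * w)) * (β + 1) * (E * R - 1 * A * w) ^ (β + 1 - 1)) := by
      rw [add_sub_cancel_right, one_mul]
      field_simp
      ring
    rw [e]
    exact h5

end Pool.Agent.S50X
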