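import Pool.Agent.S50X.Setup

namespace Pool.Agent.S50X

/-- The square of the Hilbert-Schmidt norm of a `2 × 2` matrix. -/
noncomputable def hs (x : Matrix (Fin 2) (Fin 2) ℂ) : ℝ := ∑ i, ∑ j, ‖x i j‖ ^ 2

/-- The difference of the two eigenvalues of `x* x`. -/
noncomputable def gap (x : Matrix (Fin 2) (Fin 2) ℂ) : ℝ := √(hs x ^ 2 - 4 * ‖x.det‖ ^ 2)

end Pool.Agent.S50X
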