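import Pool.Agent.S50X.Setup

open MeasureTheory Metric Set Filter Topology Module

namespace Pool.Agent.S50X

variable {n : ℕ}

/-- The matrix of a vector of `EC (Fin n × Fin 2)`. -/
def mat (x : EC (Fin n × Fin 2)) : Matrix (Fin n) (Fin 2) ℂ := Matrix.of fun i j => x (i, j)

/-- `mulE x g` is the product of the matrix of `x` and the vector `g`. -/
noncomputable def mulE (x : EC (Fin n × Fin 2)) (g : EC (Fin 2)) : EC (Fin n) :=
  Matrix.toEuclideanLin (mat x) g

theorem mulE_apply (x : EC (Fin n × Fin 2)) (g : EC (Fin 2)) (i : Fin n) :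
    mulE x g i = x (i, 0) * g 0 + x (i, 1) * g 1 := by
  simp [mulE, mat, Matrix.toEuclideanLin, Matrix.mulVec, dotProduct, Fin.sum_univ_two]

/-- The map `a ↦ a g*`. -/
noncomputable def outer (n : ℕ) (g : EC (Fin 2)) : EC (Fin n) →ₗ[ℂ] EC (Fin n × Fin 2) where
  toFun a := WithLp.toLp 2 fun ij => a ij.1 * (starRingEnd ℂ) (g ij.2)
  map_add' a b := by
    ext ij
    simp [add_mul]
  map_smul' c a := by
    ext ij
    simp [mul_assoc]

theorem outer_apply (g : EC (Fin 2)) (a : EC (Fin n)) (i : Fin n) (j : Fin 2) :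
    outer n g a (i, j) = a i * (starRingEnd ℂ) (g j) := rfl

theorem norm_outer (g : EC (Fin 2)) (a : EC (Fin n)) :
    ‖outer n g a‖ ^ 2 = ‖a‖ ^ 2 * ‖g‖ ^ 2 := by
  rw [EuclideanSpace.norm_sq_eq, EuclideanSpace.norm_sq_eq, EuclideanSpace.norm_sq_eq,
    Fintype.sum_prod_type, Finset.sum_mul]
  refine Finset.sum_congr rfl fun i _ => ?_
  simp only [outer_apply, Fin.sum_univ_two, norm_mul, RCLike.norm_conj]
  ring

theorem inner_outer (g : EC (Fin 2)) (a : EC (Fin n)) (x : EC (Fin n × Fin 2)) :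
    inner ℂ (outer n g a) x = inner ℂ a (mulE x g) := by
  rw [PiLp.inner_apply, PiLp.inner_apply, Fintype.sum_prod_type]
  refine Finset.sum_congr rfl fun i _ => ?_
  simp only [outer_apply, Fin.sum_univ_two, RCLike.inner_apply, mulE_apply, map_mul,
    RingHomCompTriple.comp_apply, RingHom.id_apply]
  ring

theorem mulE_outer (g : EC (Fin 2)) (a : EC (Fin n)) :
    mulE (outer n g a) g = ((‖g‖ ^ 2 : ℝ) : ℂ) • a := by
  have h1 : ((‖g‖ ^ 2 : ℝ) : ℂ) = (starRingEnd ℂ) (g 0) * g 0 + (starRingEnd ℂ) (g 1) * g 1 := by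
    rw [EuclideanSpace.norm_sq_eq, Fin.sum_univ_two]
    push_cast
    rw [Complex.conj_mul', Complex.conj_mul']
  ext i
  rw [mulE_apply, outer_apply, outer_apply, h1]
  simp only [PiLp.smul_apply, smul_eq_mul]
  ring

theorem finrank_outer {g : EC (Fin 2)} (hg : g ≠ 0) :
    finrank ℂ (LinearMap.range (outer n g)) = n := by
  rw [LinearMap.finrank_range_of_inj]
  · simp
  · rw [← LinearMap.ker_eq_bot, LinearMap.ker_eq_bot']
    intro a ha
    have h1 := norm_outer g a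
    rw [ha, norm_zero] at h1
    have h2 : 0 < ‖g‖ ^ 2 := by positivity
    have h3 : ‖a‖ ^ 2 = 0 := by
      by_contra h
      have h4 : 0 < ‖a‖ ^ 2 := lt_of_le_of_ne (by positivity) (Ne.symm h)
      have := mul_pos h4 h2
      nlinarith
    simpa using h3

theorem starProj_outer {g : EC (Fin 2)} (hg : g ≠ 0) (x : EC (Fin n × Fin 2)) :
    (LinearMap.range (outer n g)).starProjection x =
      outer n g ((((‖g‖ ^ 2)⁻¹ : ℝ) : ℂ) • mulE x g) := by
  have h2 : (0 : ℝ) < ‖g‖ ^ 2 := by positivity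
  refine Submodule.eq_starProjection_of_mem_of_inner_eq_zero ⟨_, rfl⟩ ?_
  rintro w ⟨a, rfl⟩
  rw [← inner_conj_symm, inner_sub_right, inner_outer, inner_outer, mulE_outer, smul_smul,
    ← Complex.ofReal_mul, mul_inv_cancel₀ h2.ne']
  simp

theorem norm_starProj {g : EC (Fin 2)} (hg : g ≠ 0) (x : EC (Fin n × Fin 2)) :
    ‖(LinearMap.range (outer n g)).starProjection x‖ ^ 2 = ‖mulE x g‖ ^ 2 / ‖g‖ ^ 2 := by
  have h2 : (0 : ℝ) < ‖g‖ ^ 2 := by positivity
  rw [starProj_outer hg, norm_outer, norm_smul, Complex.norm_real, Real.norm_eq_abs,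
    abs_of_nonneg (by positivity)]
  field_simp

theorem norm_sub_starProj {g : EC (Fin 2)} (hg : g ≠ 0) (x : EC (Fin n × Fin 2)) :
    ‖x - (LinearMap.range (outer n g)).starProjection x‖ ^ 2 =
      ‖x‖ ^ 2 - ‖mulE x g‖ ^ 2 / ‖g‖ ^ 2 := by
  rw [← norm_starProj hg]
  have h := Submodule.norm_sq_eq_add_norm_sq_starProjection x (LinearMap.range (outer n g))
  rw [Submodule.starProjection_orthogonal_val] at h
  linarith

theorem mulE_le (x : EC (Fin n × Fin 2)) (g : EC (Fin 2)) :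
    ‖mulE x g‖ ^ 2 ≤ ‖x‖ ^ 2 * ‖g‖ ^ 2 := by
  by_cases hg : g = 0
  · subst hg
    simp [mulE]
  · have h := norm_sub_starProj hg x
    have h2 : (0 : ℝ) < ‖g‖ ^ 2 := by positivity
    have h3 : ‖mulE x g‖ ^ 2 / ‖g‖ ^ 2 ≤ ‖x‖ ^ 2 := by
      have : 0 ≤ ‖x - (LinearMap.range (outer n g)).starProjection x‖ ^ 2 := by positivity
      linarith
    rwa [div_le_iff₀ h2] at h3

end Pool.Agent.S50X
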