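import Pool.Agent.S50X.Setup
import Pool.Agent.S50X.Approxnum

open MeasureTheory Set Filter Topology Module
open scoped ENNReal Matrix

namespace Pool.Agent.S50X

/-- The operator from `ℂ²` to `ℂⁿ` given by an `n × 2` matrix. -/
noncomputable def toOp {n : ℕ} (x : Matrix (Fin n) (Fin 2) ℂ) :
    EuclideanSpace ℂ (Fin 2) →L[ℂ] EuclideanSpace ℂ (Fin n) :=
  LinearMap.toContinuousLinearMap (Matrix.toEuclideanLin x)

variable {n : ℕ}

theorem toOp_apply (x : Matrix (Fin n) (Fin 2) ℂ) (e : EuclideanSpace ℂ (Fin 2)) :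
    toOp x e = Matrix.toEuclideanLin x e := rfl

theorem toOp_add (x y : Matrix (Fin n) (Fin 2) ℂ) (e : EuclideanSpace ℂ (Fin 2)) :
    toOp (x + y) e = toOp x e + toOp y e := by
  rw [toOp_apply, map_add]
  rfl

theorem toOp_smul (r : ℂ) (x : Matrix (Fin n) (Fin 2) ℂ) (e : EuclideanSpace ℂ (Fin 2)) :
    toOp (r • x) e = r • toOp x e := by
  rw [toOp_apply, map_smul]
  rfl

/-- The right singular vectors of a matrix. -/
theorem inner_eigenvectorBasis (x : Matrix (Fin n) (Fin 2) ℂ) (i j : Fin 2) :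
    inner ℂ (toOp x ((Matrix.isHermitian_conjTranspose_mul_self x).eigenvectorBasis i))
      (toOp x ((Matrix.isHermitian_conjTranspose_mul_self x).eigenvectorBasis j)) =
      if i = j then
        (((Matrix.isHermitian_conjTranspose_mul_self x).eigenvalues j : ℝ) : ℂ) else 0 := by
  set hx := Matrix.isHermitian_conjTranspose_mul_self x with hhx
  set v := hx.eigenvectorBasis with hv
  rw [toOp_apply, toOp_apply, ← LinearMap.adjoint_inner_right,
    ← Matrix.toEuclideanLin_conjTranspose_eq_adjoint]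
  have h2 : (Matrix.toEuclideanLin xᴴ) (Matrix.toEuclideanLin x (v j)) =
      ((hx.eigenvalues j : ℝ) : ℂ) • v j := by
    have h3 := hx.mulVec_eigenvectorBasis j
    ext k
    have h5 := congrFun h3 k
    rw [← hv, ← Matrix.mulVec_mulVec] at h5
    have h6 : ((Matrix.toEuclideanLin xᴴ) (Matrix.toEuclideanLin x (v j))) k =
        (xᴴ *ᵥ (x *ᵥ (v j : Fin 2 → ℂ))) k := rfl
    rw [h6]
    refine h5.trans ?_
    simp
  rw [h2, inner_smul_right, orthonormal_iff_ite.1 v.orthonormal i j]
  split_ifs <;> simp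

theorem norm_eigenvectorBasis (x : Matrix (Fin n) (Fin 2) ℂ) (j : Fin 2) :
    ‖toOp x ((Matrix.isHermitian_conjTranspose_mul_self x).eigenvectorBasis j)‖ ^ 2 =
      (Matrix.isHermitian_conjTranspose_mul_self x).eigenvalues j := by
  have h := inner_eigenvectorBasis x j j
  rw [inner_self_eq_norm_sq_to_K] at h
  simp only [if_true] at h
  exact Complex.ofReal_injective (by simpa using h)

theorem eigenvalues_nonneg' (x : Matrix (Fin n) (Fin 2) ℂ) (j : Fin 2) :
    0 ≤ (Matrix.isHermitian_conjTranspose_mul_self x).eigenvalues j := by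
  rw [← norm_eigenvectorBasis]
  positivity

theorem rpow_half_sq {a : ℝ} (ha : 0 ≤ a) (q : ℝ) : (a ^ 2) ^ (q / 2) = a ^ q := by
  rw [← Real.rpow_natCast, ← Real.rpow_mul ha]
  congr 1
  push_cast
  ring

/-- The singular values of a matrix are the square roots of the eigenvalues of `x* x`. -/
theorem hasSum_matrix {q : ℝ} (hq : 0 < q) (x : Matrix (Fin n) (Fin 2) ℂ) :
    HasSum (fun k : ℕ => approxNum (toOp x) k ^ q)
      (∑ j, ((Matrix.isHermitian_conjTranspose_mul_self x).eigenvalues j) ^ (q / 2)) := by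
  set v := (Matrix.isHermitian_conjTranspose_mul_self x).eigenvectorBasis with hv
  refine hasSum_approxNum hq (toOp x) v.toHilbertBasis ?_ ?_
  · intro i j hij
    have := inner_eigenvectorBasis x i j
    rw [if_neg hij] at this
    simpa using this
  · have h1 : ∀ j, ‖toOp x (v.toHilbertBasis j)‖ ^ q =
        ((Matrix.isHermitian_conjTranspose_mul_self x).eigenvalues j) ^ (q / 2) := by
      intro j
      rw [← norm_eigenvectorBasis x j, rpow_half_sq (norm_nonneg _)]
      simp [hv]
    have h2 := hasSum_fintype (fun j => ‖toOp x (v.toHilbertBasis j)‖ ^ q)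
    simp only [h1] at h2 ⊢
    exact h2

end Pool.Agent.S50X
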