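import Mathlib

open MeasureTheory Metric Set Filter Topology Module

namespace Pool.Agent.S50X

/-- The complex Euclidean space with coordinates indexed by `ι`. -/
abbrev EC (ι : Type) [Fintype ι] : Type := EuclideanSpace ℂ ι

/-- Its unit sphere. -/
abbrev Sph (ι : Type) [Fintype ι] : Type := sphere (0 : EC ι) 1

variable (ι : Type) [Fintype ι]

/-- The surface measure on the unit sphere of `EC ι`. -/
noncomputable def sph : Measure (Sph ι) := (volume : Measure (EC ι)).toSphere

instance : IsFiniteMeasure (sph ι) := by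
  unfold sph
  infer_instance

variable {ι}

/-- The integral of `|⟨u, x⟩| ^ p` against the density `f` on the unit sphere. -/
noncomputable def ker (p : ℝ) (f : C(Sph ι, ℝ)) (x : EC ι) : ℝ :=
  ∫ u, ‖inner ℂ (u : EC ι) x‖ ^ p * f u ∂(sph ι)

/-- Invariance of a function on the sphere under unit scalars. -/
def CInv (f : C(Sph ι, ℝ)) : Prop :=
  ∀ (c : ℂ) (u v : Sph ι), ‖c‖ = 1 → (v : EC ι) = c • (u : EC ι) → f v = f u

theorem continuous_kern {p : ℝ} (hp : 0 < p) (x : EC ι) :
    Continuous fun u : Sph ι => ‖inner ℂ (u : EC ι) x‖ ^ p := by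
  have : Continuous fun u : Sph ι => ‖inner ℂ (u : EC ι) x‖ := by fun_prop
  exact this.rpow_const (fun _ => Or.inr hp.le)

theorem integrable_kern {p : ℝ} (hp : 0 < p) (x : EC ι) (f : C(Sph ι, ℝ)) :
    Integrable (fun u : Sph ι => ‖inner ℂ (u : EC ι) x‖ ^ p * f u) (sph ι) :=
  ((continuous_kern hp x).mul f.continuous).integrable_of_hasCompactSupport
    (HasCompactSupport.of_compactSpace _)

theorem ker_add {p : ℝ} (hp : 0 < p) (f g : C(Sph ι, ℝ)) (x : EC ι) :
    ker p (f + g) x = ker p f x + ker p g x := by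
  unfold ker
  rw [← integral_add (integrable_kern hp x f) (integrable_kern hp x g)]
  congr 1
  ext u
  simp [mul_add]

theorem ker_sub {p : ℝ} (hp : 0 < p) (f g : C(Sph ι, ℝ)) (x : EC ι) :
    ker p (f - g) x = ker p f x - ker p g x := by
  unfold ker
  rw [← integral_sub (integrable_kern hp x f) (integrable_kern hp x g)]
  congr 1
  ext u
  simp [mul_sub]

theorem ker_smul {p : ℝ} (c : ℝ) (f : C(Sph ι, ℝ)) (x : EC ι) :
    ker p (c • f) x = c * ker p f x := by
  unfold ker
  rw [← integral_const_mul]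
  congr 1
  ext u
  simp
  ring

theorem ker_mono {p : ℝ} (hp : 0 < p) {f g : C(Sph ι, ℝ)} (h : ∀ u, f u ≤ g u) (x : EC ι) :
    ker p f x ≤ ker p g x := by
  unfold ker
  refine integral_mono (integrable_kern hp x f) (integrable_kern hp x g) fun u => ?_
  exact mul_le_mul_of_nonneg_left (h u) (by positivity)

end Pool.Agent.S50X
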