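import Mathlib

open MeasureTheory Set Filter Topology

namespace Pool.Agent.S50X

/-- Functions with values in `[0, 1]` that are small near zero are integrable against
`l ^ (-1 - β)` on the half line. -/
theorem integrableOn_mul_rpow {β γ K : ℝ} (hβ : 0 < β) (hγ : β < γ) {Ψ : ℝ → ℝ}
    (hm : Measurable Ψ) (h0 : ∀ l, 0 < l → 0 ≤ Ψ l) (h1 : ∀ l, 0 < l → Ψ l ≤ 1)
    (hK : ∀ l, 0 < l → Ψ l ≤ K * l ^ γ) :
    IntegrableOn (fun l : ℝ => Ψ l * l ^ (-1 - β)) (Ioi 0) := by
  have hmeas : Measurable (fun l : ℝ => Ψ l * l ^ (-1 - β)) :=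
    hm.mul (measurable_id.pow_const _)
  rw [← Ioc_union_Ioi_eq_Ioi (zero_le_one' ℝ)]
  refine IntegrableOn.union ?_ ?_
  · have h : IntegrableOn (fun l : ℝ => K * l ^ (γ - 1 - β)) (Ioc 0 1) := by
      have h2 := intervalIntegral.intervalIntegrable_rpow' (a := 0) (b := 1) (r := γ - 1 - β)
        (by linarith)
      exact ((intervalIntegrable_iff_integrableOn_Ioc_of_le zero_le_one).1 h2).const_mul K
    refine Integrable.mono' h hmeas.aestronglyMeasurable ?_
    refine (ae_restrict_iff' measurableSet_Ioc).2 (ae_of_all _ fun l hl => ?_)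
    rw [Real.norm_eq_abs, abs_of_nonneg (mul_nonneg (h0 l hl.1) (Real.rpow_nonneg hl.1.le _))]
    calc Ψ l * l ^ (-1 - β) ≤ K * l ^ γ * l ^ (-1 - β) :=
          mul_le_mul_of_nonneg_right (hK l hl.1) (Real.rpow_nonneg hl.1.le _)
      _ = K * l ^ (γ - 1 - β) := by
          rw [mul_assoc, ← Real.rpow_add hl.1]
          congr 2
          ring
  · have h : IntegrableOn (fun l : ℝ => l ^ (-1 - β)) (Ioi 1) :=
      integrableOn_Ioi_rpow_of_lt (by linarith) one_pos
    refine Integrable.mono' h hmeas.aestronglyMeasurable ?_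
    refine (ae_restrict_iff' measurableSet_Ioi).2 (ae_of_all _ fun l hl => ?_)
    have hl0 : (0 : ℝ) < l := lt_trans one_pos hl
    rw [Real.norm_eq_abs, abs_of_nonneg (mul_nonneg (h0 l hl0) (Real.rpow_nonneg hl0.le _))]
    exact mul_le_of_le_one_left (Real.rpow_nonneg hl0.le _) (h1 l hl0)

theorem integral_scale {β Y : ℝ} (hY : 0 < Y) (Ψ : ℝ → ℝ) :
    ∫ l in Ioi (0 : ℝ), Ψ (Y * l) * l ^ (-1 - β) =
      Y ^ β * ∫ l in Ioi (0 : ℝ), Ψ l * l ^ (-1 - β) := by
  have h := integral_comp_mul_left_Ioi (fun l => Ψ l * l ^ (-1 - β)) 0 hY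
  rw [mul_zero, smul_eq_mul] at h
  have h2 : ∫ l in Ioi (0 : ℝ), Ψ (Y * l) * (Y * l) ^ (-1 - β) =
      Y ^ (-1 - β) * ∫ l in Ioi (0 : ℝ), Ψ (Y * l) * l ^ (-1 - β) := by
    rw [← integral_const_mul]
    refine setIntegral_congr_fun measurableSet_Ioi fun l hl => ?_
    have h3 := Real.mul_rpow hY.le (le_of_lt hl) (z := -1 - β)
    change Ψ (Y * l) * (Y * l) ^ (-1 - β) = Y ^ (-1 - β) * (Ψ (Y * l) * l ^ (-1 - β))
    rw [h3]
    ring
  rw [h2] at h
  have h3 : Y ^ (-1 - β) ≠ 0 := (Real.rpow_pos_of_pos hY _).ne'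
  have h4 : Y ^ β * Y ^ (-1 - β) = Y⁻¹ := by
    rw [← Real.rpow_add hY, ← Real.rpow_neg_one]
    congr 1
    ring
  have h5 : Y ^ (-1 - β) * ∫ l in Ioi (0 : ℝ), Ψ (Y * l) * l ^ (-1 - β) =
      Y ^ (-1 - β) * (Y ^ β * ∫ l in Ioi (0 : ℝ), Ψ l * l ^ (-1 - β)) := by
    rw [h, ← h4]
    ring
  exact mul_left_cancel₀ h3 h5

/-- The function `1 - exp (-(c * l ^ γ))` lies in `[0, 1]` and is at most `c * l ^ γ`. -/
theorem one_sub_exp_bounds {c x : ℝ} (hc : 0 ≤ c) (hx : 0 ≤ x) :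
    0 ≤ 1 - Real.exp (-(c * x)) ∧ 1 - Real.exp (-(c * x)) ≤ 1 ∧
      1 - Real.exp (-(c * x)) ≤ c * x := by
  have h1 : Real.exp (-(c * x)) ≤ 1 := Real.exp_le_one_iff.2 (by nlinarith [mul_nonneg hc hx])
  have h2 := Real.exp_pos (-(c * x))
  have h3 := Real.add_one_le_exp (-(c * x))
  exact ⟨by linarith, by linarith, by linarith⟩

theorem integrableOn_exp {β γ c : ℝ} (hβ : 0 < β) (hγ : β < γ) (hc : 0 ≤ c) :
    IntegrableOn (fun l : ℝ => (1 - Real.exp (-(c * l ^ γ))) * l ^ (-1 - β)) (Ioi 0) := by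
  refine integrableOn_mul_rpow hβ hγ (K := c) ?_ ?_ ?_ ?_
  · fun_prop
  · intro l hl
    exact (one_sub_exp_bounds hc (Real.rpow_nonneg hl.le γ)).1
  · intro l hl
    exact (one_sub_exp_bounds hc (Real.rpow_nonneg hl.le γ)).2.1
  · intro l hl
    exact (one_sub_exp_bounds hc (Real.rpow_nonneg hl.le γ)).2.2

theorem integrableOn_exp_one {β c : ℝ} (hβ : 0 < β) (hβ1 : β < 1) (hc : 0 ≤ c) :
    IntegrableOn (fun l : ℝ => (1 - Real.exp (-(c * l))) * l ^ (-1 - β)) (Ioi 0) := by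
  have h := integrableOn_exp hβ hβ1 hc
  simpa using h

theorem integral_exp_pos {β γ c : ℝ} (hβ : 0 < β) (hγ : β < γ) (hc : 0 < c) :
    0 < ∫ l in Ioi (0 : ℝ), (1 - Real.exp (-(c * l ^ γ))) * l ^ (-1 - β) := by
  rw [setIntegral_pos_iff_support_of_nonneg_ae ?_ (integrableOn_exp hβ hγ hc.le)]
  · have : Ioi (0 : ℝ) ⊆ Function.support
        (fun l : ℝ => (1 - Real.exp (-(c * l ^ γ))) * l ^ (-1 - β)) := by
      intro l hl
      have hl0 : (0 : ℝ) < l := hl
      have h1 : Real.exp (-(c * l ^ γ)) < 1 :=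
        Real.exp_lt_one_iff.2 (by have := mul_pos hc (Real.rpow_pos_of_pos hl0 γ); linarith)
      have h2 : 0 < 1 - Real.exp (-(c * l ^ γ)) := by linarith
      exact (mul_pos h2 (Real.rpow_pos_of_pos hl0 _)).ne'
    rw [inter_eq_self_of_subset_right this]
    simp
  · refine (ae_restrict_iff' measurableSet_Ioi).2 (ae_of_all _ fun l hl => ?_)
    have hl0 : (0 : ℝ) < l := hl
    exact mul_nonneg (one_sub_exp_bounds hc.le (Real.rpow_nonneg hl0.le γ)).1
      (Real.rpow_nonneg hl0.le _)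

theorem integral_exp_one_pos {β c : ℝ} (hβ : 0 < β) (hβ1 : β < 1) (hc : 0 < c) :
    0 < ∫ l in Ioi (0 : ℝ), (1 - Real.exp (-(c * l))) * l ^ (-1 - β) := by
  have h := integral_exp_pos hβ hβ1 hc
  simpa using h

/-! ### The Pareto law and its image on the unit interval -/

/-- The map `x ↦ exp (-|x|)` into the unit interval. -/
noncomputable def toUI (x : ℝ) : unitInterval :=
  ⟨Real.exp (-|x|), (Real.exp_pos _).le, Real.exp_le_one_iff.2 (by simp)⟩

theorem measurable_toUI : Measurable toUI := by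
  unfold toUI
  refine Measurable.subtype_mk ?_
  fun_prop

/-- The Pareto law with exponent `α` on `(ε, ∞)`. -/
noncomputable def pareto (α ε : ℝ) : Measure ℝ :=
  (volume.restrict (Ioi ε)).withDensity
    (fun x => ENNReal.ofReal (α * ε ^ α * x ^ (-1 - α)))

theorem integrableOn_pareto {α ε : ℝ} (hα : 0 < α) (hε : 0 < ε) :
    IntegrableOn (fun x : ℝ => α * ε ^ α * x ^ (-1 - α)) (Ioi ε) :=
  (integrableOn_Ioi_rpow_of_lt (by linarith) hε).const_mul _

theorem integral_pareto_density {α ε : ℝ} (hα : 0 < α) (hε : 0 < ε) :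
    ∫ x in Ioi ε, α * ε ^ α * x ^ (-1 - α) = 1 := by
  rw [integral_const_mul, integral_Ioi_rpow_of_lt (by linarith) hε]
  have h1 : -1 - α + 1 = -α := by ring
  rw [h1, Real.rpow_neg hε.le]
  have h2 : ε ^ α ≠ 0 := (Real.rpow_pos_of_pos hε _).ne'
  field_simp

theorem isProbabilityMeasure_pareto {α ε : ℝ} (hα : 0 < α) (hε : 0 < ε) :
    IsProbabilityMeasure (pareto α ε) := by
  constructor
  unfold pareto
  rw [withDensity_apply _ MeasurableSet.univ, Measure.restrict_univ,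
    ← ofReal_integral_eq_lintegral_ofReal (integrableOn_pareto hα hε) ?_,
    integral_pareto_density hα hε, ENNReal.ofReal_one]
  refine (ae_restrict_iff' measurableSet_Ioi).2 (ae_of_all _ fun l hl => ?_)
  have hl0 : (0 : ℝ) < l := lt_trans hε hl
  have := Real.rpow_pos_of_pos hε α
  have := Real.rpow_pos_of_pos hl0 (-1 - α)
  simp only [Pi.zero_apply]
  positivity

theorem integral_pareto {α ε y : ℝ} (hα : 0 < α) (hα1 : α < 1) (hε : 0 < ε) (hy : 0 ≤ y) :
    ∫ x, ((toUI x : unitInterval) : ℝ) ^ y ∂(pareto α ε) =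
      1 + -(α * ε ^ α * ∫ x in Ioi ε, (1 - Real.exp (-(y * x))) * x ^ (-1 - α)) := by
  have hint : IntegrableOn (fun l : ℝ => (1 - Real.exp (-(y * l))) * l ^ (-1 - α)) (Ioi ε) :=
    (integrableOn_exp_one hα hα1 hy).mono_set (Ioi_subset_Ioi hε.le)
  unfold pareto
  rw [integral_withDensity_eq_integral_toReal_smul (by fun_prop)
    (ae_of_all _ fun x => ENNReal.ofReal_lt_top)]
  rw [← integral_const_mul, ← sub_eq_add_neg]
  conv_rhs =>
    lhs
    rw [← integral_pareto_density hα hε]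
  rw [← integral_sub (integrableOn_pareto hα hε) (hint.const_mul _)]
  refine setIntegral_congr_fun measurableSet_Ioi fun x hx => ?_
  have hx0 : (0 : ℝ) < x := lt_trans hε hx
  have h1 := Real.rpow_pos_of_pos hε α
  have h2 := Real.rpow_pos_of_pos hx0 (-1 - α)
  simp only [toUI, smul_eq_mul]
  rw [ENNReal.toReal_ofReal (by positivity), abs_of_pos hx0, ← Real.exp_mul]
  have h3 : -x * y = -(y * x) := by ring
  rw [h3]
  ring

/-- The law on the unit interval of a product of `n` independent variables `exp (-ξ)`, `ξ` with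
Pareto law. -/
noncomputable def prodLaw (α ε : ℝ) (n : ℕ) : Measure unitInterval :=
  Measure.map (fun ω : Fin n → unitInterval => ∏ i, ω i)
    (Measure.pi fun _ : Fin n => Measure.map toUI (pareto α ε))

theorem measurable_prodUI (n : ℕ) :
    Measurable (fun ω : Fin n → unitInterval => ∏ i, ω i) := by
  have : Continuous (fun ω : Fin n → unitInterval => ∏ i, ω i) := by fun_prop
  exact this.measurable

theorem isProbabilityMeasure_prodLaw {α ε : ℝ} (hα : 0 < α) (hε : 0 < ε) (n : ℕ) :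
    IsProbabilityMeasure (prodLaw α ε n) := by
  have := isProbabilityMeasure_pareto hα hε
  have : IsProbabilityMeasure (Measure.map toUI (pareto α ε)) :=
    Measure.isProbabilityMeasure_map measurable_toUI.aemeasurable
  unfold prodLaw
  exact Measure.isProbabilityMeasure_map (measurable_prodUI n).aemeasurable

theorem coe_prodUI {n : ℕ} (ω : Fin n → unitInterval) :
    ((∏ i, ω i : unitInterval) : ℝ) = ∏ i, (ω i : ℝ) := by
  induction n with
  | zero => simp
  | succ n ih => rw [Fin.prod_univ_succ, Fin.prod_univ_succ, Set.Icc.coe_mul, ih]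

theorem integral_prodLaw {α ε y : ℝ} (hα : 0 < α) (hα1 : α < 1) (hε : 0 < ε) (hy : 0 ≤ y)
    (n : ℕ) :
    ∫ x, ((x : unitInterval) : ℝ) ^ y ∂(prodLaw α ε n) =
      (1 + -(α * ε ^ α * ∫ x in Ioi ε, (1 - Real.exp (-(y * x))) * x ^ (-1 - α))) ^ n := by
  have := isProbabilityMeasure_pareto hα hε
  have : IsProbabilityMeasure (Measure.map toUI (pareto α ε)) :=
    Measure.isProbabilityMeasure_map measurable_toUI.aemeasurable
  have hm : Measurable (fun x : unitInterval => (x : ℝ) ^ y) :=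
    measurable_subtype_coe.pow_const _
  unfold prodLaw
  rw [integral_map (measurable_prodUI n).aemeasurable hm.aestronglyMeasurable]
  have h1 : ∀ ω : Fin n → unitInterval, ((∏ i, ω i : unitInterval) : ℝ) ^ y =
      ∏ i, ((ω i : ℝ) ^ y) := by
    intro ω
    rw [coe_prodUI, Real.finsetProd_rpow _ _ (fun i _ => (ω i).2.1)]
  simp_rw [h1]
  rw [integral_fintype_prod_eq_pow (fun x : unitInterval => (x : ℝ) ^ y), Fintype.card_fin,
    integral_map measurable_toUI.aemeasurable hm.aestronglyMeasurable,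
    integral_pareto hα hα1 hε hy]


/-! ### The limit law -/

theorem tendsto_setIntegral_Ioi {f : ℝ → ℝ} (hf : IntegrableOn f (Ioi 0)) {e : ℕ → ℝ}
    (he : ∀ n, 0 ≤ e n) (hlim : Tendsto e atTop (𝓝 0)) :
    Tendsto (fun n => ∫ x in Ioi (e n), f x) atTop (𝓝 (∫ x in Ioi (0 : ℝ), f x)) := by
  have h1 : ∀ n, ∫ x in Ioi (e n), f x =
      ∫ x in Ioi (0 : ℝ), (Ioi (e n)).indicator f x := by
    intro n
    rw [setIntegral_indicator measurableSet_Ioi,
      inter_eq_self_of_subset_right (Ioi_subset_Ioi (he n))]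
  simp_rw [h1]
  refine tendsto_integral_of_dominated_convergence (fun x => ‖f x‖) ?_ hf.norm ?_ ?_
  · intro n
    exact hf.aestronglyMeasurable.indicator measurableSet_Ioi
  · intro n
    exact ae_of_all _ fun x => norm_indicator_le_norm_self _ _
  · refine (ae_restrict_iff' measurableSet_Ioi).2 (ae_of_all _ fun x hx => ?_)
    refine tendsto_const_nhds.congr' ?_
    filter_upwards [hlim.eventually (gt_mem_nhds (show (0 : ℝ) < x from hx))] with n hn
    rw [indicator_of_mem (show x ∈ Ioi (e n) from hn)]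

/-- The scale of the `n`-th approximation. -/
noncomputable def scl (α : ℝ) (n : ℕ) : ℝ := ((n : ℝ) + 1) ^ (-α⁻¹)

theorem scl_pos (α : ℝ) (n : ℕ) : 0 < scl α n := Real.rpow_pos_of_pos (by positivity) _

theorem scl_rpow {α : ℝ} (hα : 0 < α) (n : ℕ) : scl α n ^ α = ((n : ℝ) + 1)⁻¹ := by
  unfold scl
  rw [← Real.rpow_mul (by positivity)]
  have : -α⁻¹ * α = -1 := by field_simp
  rw [this, Real.rpow_neg_one]

theorem tendsto_scl {α : ℝ} (hα : 0 < α) : Tendsto (scl α) atTop (𝓝 0) := by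
  unfold scl
  have h1 : Tendsto (fun n : ℕ => (n : ℝ) + 1) atTop atTop :=
    tendsto_atTop_add_const_right _ _ tendsto_natCast_atTop_atTop
  exact (tendsto_rpow_neg_atTop (inv_pos.2 hα)).comp h1

/-- The constant of the stable law. -/
noncomputable def cst (α : ℝ) : ℝ :=
  α * ∫ x in Ioi (0 : ℝ), (1 - Real.exp (-x)) * x ^ (-1 - α)

theorem cst_pos {α : ℝ} (hα : 0 < α) (hα1 : α < 1) : 0 < cst α := by
  have h := integral_exp_one_pos hα hα1 one_pos
  simp only [one_mul] at h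
  exact mul_pos hα h

theorem integral_one_sub_exp {α y : ℝ} (hα : 0 < α) (hy : 0 ≤ y) :
    ∫ x in Ioi (0 : ℝ), (1 - Real.exp (-(y * x))) * x ^ (-1 - α) =
      y ^ α * ∫ x in Ioi (0 : ℝ), (1 - Real.exp (-x)) * x ^ (-1 - α) := by
  rcases hy.eq_or_lt with rfl | hy
  · simp [Real.zero_rpow hα.ne']
  · exact integral_scale hy (fun x => 1 - Real.exp (-x))

theorem tendsto_prodLaw {α y : ℝ} (hα : 0 < α) (hα1 : α < 1) (hy : 0 ≤ y) :
    Tendsto (fun n : ℕ => ∫ x, ((x : unitInterval) : ℝ) ^ y ∂(prodLaw α (scl α n) (n + 1)))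
      atTop (𝓝 (Real.exp (-(cst α * y ^ α)))) := by
  have hint := integrableOn_exp_one hα hα1 hy
  have h1 : ∀ n : ℕ, ∫ x, ((x : unitInterval) : ℝ) ^ y ∂(prodLaw α (scl α n) (n + 1)) =
      (1 + -(α * ((n : ℝ) + 1)⁻¹ *
        ∫ x in Ioi (scl α n), (1 - Real.exp (-(y * x))) * x ^ (-1 - α))) ^ (n + 1) := by
    intro n
    rw [integral_prodLaw hα hα1 (scl_pos α n) hy, scl_rpow hα]
  simp_rw [h1]
  have h2 := tendsto_setIntegral_Ioi hint (fun n => (scl_pos α n).le) (tendsto_scl hα)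
  rw [integral_one_sub_exp hα hy] at h2
  have h3 : Tendsto (fun n : ℕ => ((n + 1 : ℕ) : ℝ) * -(α * ((n : ℝ) + 1)⁻¹ *
        ∫ x in Ioi (scl α n), (1 - Real.exp (-(y * x))) * x ^ (-1 - α))) atTop
      (𝓝 (-(cst α * y ^ α))) := by
    have h4 : -(cst α * y ^ α) =
        -α * (y ^ α * ∫ x in Ioi (0 : ℝ), (1 - Real.exp (-x)) * x ^ (-1 - α)) := by
      unfold cst
      ring
    rw [h4]
    refine (h2.const_mul (-α)).congr fun n => ?_
    have h5 : ((n : ℝ) + 1) ≠ 0 := by positivity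
    push_cast
    field_simp
  have h6 := Real.tendsto_one_add_pow_exp_of_tendsto (t := -(cst α * y ^ α))
    (g := fun m : ℕ => -(α * (((m - 1 : ℕ) : ℝ) + 1)⁻¹ *
        ∫ x in Ioi (scl α (m - 1)), (1 - Real.exp (-(y * x))) * x ^ (-1 - α)))
    ((tendsto_add_atTop_iff_nat 1).1 (by simpa using h3))
  have h7 := (tendsto_add_atTop_iff_nat 1).2 h6
  simpa using h7

/-- The limit law on the unit interval. -/
theorem exists_unitLaw {α : ℝ} (hα : 0 < α) (hα1 : α < 1) :
    ∃ μ : Measure unitInterval, IsProbabilityMeasure μ ∧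
      ∀ y : ℝ, 0 ≤ y → ∫ x, ((x : unitInterval) : ℝ) ^ y ∂μ = Real.exp (-(cst α * y ^ α)) := by
  let μs : ℕ → ProbabilityMeasure unitInterval := fun n =>
    ⟨prodLaw α (scl α n) (n + 1), isProbabilityMeasure_prodLaw hα (scl_pos α n) (n + 1)⟩
  obtain ⟨μ, -, hμ⟩ := isCompact_univ.ultrafilter_le_nhds ((hyperfilter ℕ).map μs) (by simp)
  refine ⟨(μ : Measure unitInterval), inferInstance, fun y hy => ?_⟩
  let f : C(unitInterval, ℝ) := ⟨fun x => (x : ℝ) ^ y,
    continuous_subtype_val.rpow_const (fun _ => Or.inr hy)⟩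
  have h1 : Tendsto (fun ν : ProbabilityMeasure unitInterval =>
      ∫ x, f x ∂(ν : Measure unitInterval)) (𝓝 μ) (𝓝 (∫ x, f x ∂(μ : Measure unitInterval))) :=
    (ProbabilityMeasure.continuous_integral_continuousMap f).tendsto μ
  have h2 : Tendsto (fun n : ℕ => ∫ x, f x ∂(μs n : Measure unitInterval))
      (hyperfilter ℕ : Filter ℕ) (𝓝 (∫ x, f x ∂(μ : Measure unitInterval))) :=
    h1.comp (show Tendsto μs (hyperfilter ℕ : Filter ℕ) (𝓝 μ) from hμ)
  have h3 : Tendsto (fun n : ℕ => ∫ x, f x ∂(μs n : Measure unitInterval))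
      (hyperfilter ℕ : Filter ℕ) (𝓝 (Real.exp (-(cst α * y ^ α)))) :=
    (tendsto_prodLaw hα hα1 hy).mono_left Nat.hyperfilter_le_atTop
  exact tendsto_nhds_unique h2 h3

theorem tendsto_exp_zero {α c : ℝ} (hα : 0 < α) :
    Tendsto (fun n : ℕ => Real.exp (-(c * ((n : ℝ) + 1)⁻¹ ^ α))) atTop (𝓝 1) := by
  have h1 : Tendsto (fun n : ℕ => ((n : ℝ) + 1)⁻¹) atTop (𝓝 0) := by
    have := tendsto_one_div_add_atTop_nhds_zero_nat (𝕜 := ℝ)
    simpa using this
  have h2 : Tendsto (fun n : ℕ => ((n : ℝ) + 1)⁻¹ ^ α) atTop (𝓝 0) := by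
    have := h1.rpow_const (p := α) (Or.inr hα.le)
    rwa [Real.zero_rpow hα.ne'] at this
  have h3 := (h2.const_mul c).neg
  have h4 := (Real.continuous_exp.tendsto _).comp h3
  simpa [Function.comp_def] using h4

theorem tendsto_exp_top {α c : ℝ} (hα : 0 < α) (hc : 0 < c) :
    Tendsto (fun n : ℕ => Real.exp (-(c * (n : ℝ) ^ α))) atTop (𝓝 0) := by
  have h1 : Tendsto (fun n : ℕ => c * (n : ℝ) ^ α) atTop atTop :=
    ((tendsto_rpow_atTop hα).comp tendsto_natCast_atTop_atTop).const_mul_atTop hc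
  exact Real.tendsto_exp_neg_atTop_nhds_zero.comp h1

/-- The positive stable law. -/
theorem exists_stable {α : ℝ} (hα : 0 < α) (hα1 : α < 1) :
    ∃ (ν : Measure ℝ) (c : ℝ), IsProbabilityMeasure ν ∧ ν (Iic 0) = 0 ∧ 0 < c ∧
      ∀ l : ℝ, 0 ≤ l → ∫ s, Real.exp (-(l * s)) ∂ν = Real.exp (-(c * l ^ α)) := by
  obtain ⟨μ, hμ, hm⟩ := exists_unitLaw hα hα1
  have hc := cst_pos hα hα1
  have hmeas : ∀ y : ℝ, Measurable (fun x : unitInterval => (x : ℝ) ^ y) := fun y =>
    measurable_subtype_coe.pow_const _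
  have hb : ∀ y : ℝ, 0 ≤ y → ∀ x : unitInterval, 0 ≤ (x : ℝ) ^ y ∧ (x : ℝ) ^ y ≤ 1 :=
    fun y hy x => ⟨Real.rpow_nonneg x.2.1 _, Real.rpow_le_one x.2.1 x.2.2 hy⟩
  have hint : ∀ y : ℝ, 0 ≤ y → Integrable (fun x : unitInterval => (x : ℝ) ^ y) μ := by
    intro y hy
    refine Integrable.of_bound (hmeas y).aestronglyMeasurable 1 (ae_of_all _ fun x => ?_)
    rw [Real.norm_eq_abs, abs_of_nonneg (hb y hy x).1]
    exact (hb y hy x).2
  -- no mass at zero
  have hz : μ {0} = 0 := by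
    have h1 : ∀ n : ℕ, μ.real {0} ≤ 1 - Real.exp (-(cst α * ((n : ℝ) + 1)⁻¹ ^ α)) := by
      intro n
      have hy : (0 : ℝ) < ((n : ℝ) + 1)⁻¹ := by positivity
      rw [← hm _ hy.le]
      have h2 : (1 : ℝ) = ∫ _x : unitInterval, (1 : ℝ) ∂μ := by simp
      have h3 : μ.real {0} = ∫ x : unitInterval, ({0} : Set unitInterval).indicator
          (fun _ => (1 : ℝ)) x ∂μ := by
        rw [integral_indicator_const _ (measurableSet_singleton _)]
        simp
      rw [h3]
      conv_rhs =>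
        lhs
        rw [h2]
      rw [← integral_sub (integrable_const _) (hint _ hy.le)]
      refine integral_mono ((integrable_const _).indicator (measurableSet_singleton _))
        ((integrable_const _).sub (hint _ hy.le)) fun x => ?_
      by_cases hx : x = 0
      · subst hx
        simp [Real.zero_rpow hy.ne']
      · rw [indicator_of_notMem (by simpa using hx)]
        have := (hb _ hy.le x).2
        simp only
        linarith
    have h4 : Tendsto (fun n : ℕ => 1 - Real.exp (-(cst α * ((n : ℝ) + 1)⁻¹ ^ α))) atTop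
        (𝓝 0) := by
      have := (tendsto_exp_zero (c := cst α) hα).const_sub 1
      simpa using this
    have h5 : μ.real {0} ≤ 0 := ge_of_tendsto' h4 h1
    have h6 : μ.real {0} = 0 := le_antisymm h5 measureReal_nonneg
    exact (measureReal_eq_zero_iff).1 h6
  have ho : μ {1} = 0 := by
    have h1 : ∀ n : ℕ, μ.real {1} ≤ Real.exp (-(cst α * (n : ℝ) ^ α)) := by
      intro n
      rw [← hm _ (Nat.cast_nonneg n)]
      have h3 : μ.real {1} = ∫ x : unitInterval, ({1} : Set unitInterval).indicator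
          (fun _ => (1 : ℝ)) x ∂μ := by
        rw [integral_indicator_const _ (measurableSet_singleton _)]
        simp
      rw [h3]
      refine integral_mono ((integrable_const _).indicator (measurableSet_singleton _))
        (hint _ (Nat.cast_nonneg n)) fun x => ?_
      by_cases hx : x = 1
      · subst hx
        simp
      · rw [indicator_of_notMem (by simpa using hx)]
        exact (hb _ (Nat.cast_nonneg n) x).1
    have h5 : μ.real {1} ≤ 0 := ge_of_tendsto' (tendsto_exp_top hα hc) h1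
    have h6 : μ.real {1} = 0 := le_antisymm h5 measureReal_nonneg
    exact (measureReal_eq_zero_iff).1 h6
  have hlog : Measurable (fun x : unitInterval => -Real.log (x : ℝ)) := by fun_prop
  refine ⟨Measure.map (fun x : unitInterval => -Real.log (x : ℝ)) μ, cst α,
    Measure.isProbabilityMeasure_map hlog.aemeasurable, ?_, hc, ?_⟩
  · rw [Measure.map_apply hlog measurableSet_Iic]
    refine measure_mono_null ?_ (measure_union_null hz ho)
    intro x hx
    have hx1 : 0 ≤ Real.log (x : ℝ) := by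
      have : -Real.log (x : ℝ) ≤ 0 := hx
      linarith
    rcases x.2.1.eq_or_lt with h0 | h0
    · left
      exact Subtype.ext h0.symm
    · right
      have : 1 ≤ (x : ℝ) := (Real.log_nonneg_iff h0).1 hx1
      exact Subtype.ext (le_antisymm x.2.2 this)
  · intro l hl
    rw [integral_map hlog.aemeasurable (by fun_prop), ← hm l hl]
    refine integral_congr_ae ?_
    have h0 : ∀ᵐ x ∂μ, x ≠ (0 : unitInterval) := by
      rw [ae_iff]
      simpa using hz
    filter_upwards [h0] with x hx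
    have hx0 : 0 < (x : ℝ) := lt_of_le_of_ne x.2.1 (fun h => hx (Subtype.ext h.symm))
    rw [Real.rpow_def_of_pos hx0]
    congr 1
    ring

theorem ae_pos {ν : Measure ℝ} (h : ν (Iic 0) = 0) : ∀ᵐ s ∂ν, 0 < s := by
  rw [ae_iff]
  convert h using 2
  ext s
  simp

theorem ae_pos_prod {ν : Measure ℝ} [IsProbabilityMeasure ν] (h : ν (Iic 0) = 0) :
    ∀ᵐ s : ℝ × ℝ ∂(ν.prod ν), 0 < s.1 ∧ 0 < s.2 := by
  have h1 := ae_pos h
  have h2 : ∀ᵐ s : ℝ × ℝ ∂(ν.prod ν), 0 < s.1 :=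
    (Measure.quasiMeasurePreserving_fst (μ := ν) (ν := ν)).ae h1
  have h3 : ∀ᵐ s : ℝ × ℝ ∂(ν.prod ν), 0 < s.2 :=
    (Measure.quasiMeasurePreserving_snd (μ := ν) (ν := ν)).ae h1
  filter_upwards [h2, h3] with s a b using ⟨a, b⟩

theorem rpow_eq_lintegral {β z : ℝ} (hβ : 0 < β) (hβ1 : β < 1) (hz : 0 ≤ z) :
    ENNReal.ofReal (z ^ β) =
      ENNReal.ofReal ((∫ l in Ioi (0 : ℝ), (1 - Real.exp (-l)) * l ^ (-1 - β))⁻¹) *
        ∫⁻ l in Ioi (0 : ℝ), ENNReal.ofReal ((1 - Real.exp (-(z * l))) * l ^ (-1 - β)) := by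
  have hk := integral_exp_one_pos hβ hβ1 one_pos
  simp only [one_mul] at hk
  rw [← ofReal_integral_eq_lintegral_ofReal (integrableOn_exp_one hβ hβ1 hz) ?_,
    integral_one_sub_exp hβ hz, ← ENNReal.ofReal_mul (inv_pos.2 hk).le]
  · congr 1
    field_simp
  · refine (ae_restrict_iff' measurableSet_Ioi).2 (ae_of_all _ fun l hl => ?_)
    exact mul_nonneg (one_sub_exp_bounds hz (le_of_lt hl)).1 (Real.rpow_nonneg (le_of_lt hl) _)

theorem integral_stable_scale {α β c R : ℝ} (hβ : 0 < β) (hβα : β < α) (hR : 0 ≤ R) :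
    ∫ l in Ioi (0 : ℝ), (1 - Real.exp (-(c * R * l ^ α))) * l ^ (-1 - β) =
      R ^ (β / α) * ∫ l in Ioi (0 : ℝ), (1 - Real.exp (-(c * l ^ α))) * l ^ (-1 - β) := by
  have hα : 0 < α := hβ.trans hβα
  rcases hR.eq_or_lt with rfl | hR
  · simp [Real.zero_rpow (div_pos hβ hα).ne']
  · have h1 : 0 < R ^ (1 / α) := Real.rpow_pos_of_pos hR _
    have h2 : (R ^ (1 / α)) ^ β = R ^ (β / α) := by
      rw [← Real.rpow_mul hR.le]
      congr 1
      ring
    have h3 : (R ^ (1 / α)) ^ α = R := by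
      rw [← Real.rpow_mul hR.le, one_div, inv_mul_cancel₀ hα.ne', Real.rpow_one]
    rw [← h2, ← integral_scale h1 (fun l => 1 - Real.exp (-(c * l ^ α)))]
    refine setIntegral_congr_fun measurableSet_Ioi fun l hl => ?_
    have h4 := Real.mul_rpow h1.le (le_of_lt hl) (z := α)
    change (1 - Real.exp (-(c * R * l ^ α))) * l ^ (-1 - β) =
      (1 - Real.exp (-(c * (R ^ (1 / α) * l) ^ α))) * l ^ (-1 - β)
    rw [h4, h3, mul_assoc]

/-- Powers of weighted sums of independent positive stable variables. -/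
theorem exists_pow_mix {α β : ℝ} (hβ : 0 < β) (hβα : β < α) (hα : α < 1) :
    ∃ (ν : Measure ℝ) (C : ℝ), IsProbabilityMeasure ν ∧ ν (Set.Iic 0) = 0 ∧ 0 < C ∧
      ∀ y₁ y₂ : ℝ, 0 ≤ y₁ → 0 ≤ y₂ →
        Integrable (fun s : ℝ × ℝ => (s.1 * y₁ + s.2 * y₂) ^ β) (ν.prod ν) ∧
        ∫ s, (s.1 * y₁ + s.2 * y₂) ^ β ∂(ν.prod ν) = C * (y₁ ^ α + y₂ ^ α) ^ (β / α) := by
  have hα0 : 0 < α := hβ.trans hβα
  have hβ1 : β < 1 := hβα.trans hα
  obtain ⟨ν, c, hν, hν0, hc, hL⟩ := exists_stable hα0 hα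
  have hk : 0 < ∫ l in Ioi (0 : ℝ), (1 - Real.exp (-l)) * l ^ (-1 - β) := by
    have := integral_exp_one_pos hβ hβ1 one_pos
    simpa only [one_mul] using this
  have hJ : 0 < ∫ l in Ioi (0 : ℝ), (1 - Real.exp (-(c * l ^ α))) * l ^ (-1 - β) :=
    integral_exp_pos hβ hβα hc
  set k := ∫ l in Ioi (0 : ℝ), (1 - Real.exp (-l)) * l ^ (-1 - β) with hkdef
  set J := ∫ l in Ioi (0 : ℝ), (1 - Real.exp (-(c * l ^ α))) * l ^ (-1 - β) with hJdef
  refine ⟨ν, k⁻¹ * J, hν, hν0, by positivity, fun y₁ y₂ h₁ h₂ => ?_⟩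
  have hae := ae_pos_prod hν0
  set R := y₁ ^ α + y₂ ^ α with hR
  have hR0 : 0 ≤ R := add_nonneg (Real.rpow_nonneg h₁ _) (Real.rpow_nonneg h₂ _)
  have hnn : 0 ≤ᵐ[ν.prod ν] fun s : ℝ × ℝ => (s.1 * y₁ + s.2 * y₂) ^ β := by
    filter_upwards [hae] with s hs
    exact Real.rpow_nonneg (add_nonneg (mul_nonneg hs.1.le h₁) (mul_nonneg hs.2.le h₂)) _
  have hm : Measurable fun s : ℝ × ℝ => (s.1 * y₁ + s.2 * y₂) ^ β :=
    (by fun_prop : Measurable fun s : ℝ × ℝ => s.1 * y₁ + s.2 * y₂).pow_const _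
  -- the inner integral
  have hin : ∀ l : ℝ, 0 < l →
      ∫⁻ s, ENNReal.ofReal ((1 - Real.exp (-((s.1 * y₁ + s.2 * y₂) * l))) * l ^ (-1 - β))
        ∂(ν.prod ν) = ENNReal.ofReal ((1 - Real.exp (-(c * R * l ^ α))) * l ^ (-1 - β)) := by
    intro l hl
    have hexp : ∫ s : ℝ × ℝ, Real.exp (-((s.1 * y₁ + s.2 * y₂) * l)) ∂(ν.prod ν) =
        Real.exp (-(c * R * l ^ α)) := by
      have h3 : ∀ s : ℝ × ℝ, Real.exp (-((s.1 * y₁ + s.2 * y₂) * l)) =
          Real.exp (-((l * y₁) * s.1)) * Real.exp (-((l * y₂) * s.2)) := by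
        intro s
        rw [← Real.exp_add]
        congr 1
        ring
      simp_rw [h3]
      rw [integral_prod_mul (fun s : ℝ => Real.exp (-((l * y₁) * s)))
        (fun s : ℝ => Real.exp (-((l * y₂) * s))), hL _ (by positivity), hL _ (by positivity),
        ← Real.exp_add, Real.mul_rpow hl.le h₁, Real.mul_rpow hl.le h₂]
      congr 1
      rw [hR]
      ring
    have hbd : ∀ᵐ s : ℝ × ℝ ∂(ν.prod ν),
        0 ≤ 1 - Real.exp (-((s.1 * y₁ + s.2 * y₂) * l)) ∧
        Real.exp (-((s.1 * y₁ + s.2 * y₂) * l)) ≤ 1 := by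
      filter_upwards [hae] with s hs
      have h4 := one_sub_exp_bounds
        (add_nonneg (mul_nonneg hs.1.le h₁) (mul_nonneg hs.2.le h₂)) hl.le
      exact ⟨h4.1, by linarith [h4.1]⟩
    have hi1 : Integrable (fun s : ℝ × ℝ => Real.exp (-((s.1 * y₁ + s.2 * y₂) * l)))
        (ν.prod ν) := by
      refine Integrable.of_bound (by fun_prop) 1 ?_
      filter_upwards [hbd] with s hs
      rw [Real.norm_eq_abs, abs_of_pos (Real.exp_pos _)]
      exact hs.2
    have hi2 : Integrable (fun s : ℝ × ℝ =>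
        (1 - Real.exp (-((s.1 * y₁ + s.2 * y₂) * l))) * l ^ (-1 - β)) (ν.prod ν) :=
      ((integrable_const _).sub hi1).mul_const _
    rw [← ofReal_integral_eq_lintegral_ofReal hi2 ?_, integral_mul_const,
      integral_sub (integrable_const _) hi1, hexp]
    · simp
    · filter_upwards [hbd] with s hs
      exact mul_nonneg hs.1 (Real.rpow_nonneg hl.le _)
  have hlint : ∫⁻ s, ENNReal.ofReal ((s.1 * y₁ + s.2 * y₂) ^ β) ∂(ν.prod ν) =
      ENNReal.ofReal (k⁻¹ * J * R ^ (β / α)) := by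
    have h1 : ∫⁻ s, ENNReal.ofReal ((s.1 * y₁ + s.2 * y₂) ^ β) ∂(ν.prod ν) =
        ∫⁻ s, (ENNReal.ofReal k⁻¹ * ∫⁻ l in Ioi (0 : ℝ),
          ENNReal.ofReal ((1 - Real.exp (-((s.1 * y₁ + s.2 * y₂) * l))) * l ^ (-1 - β)))
          ∂(ν.prod ν) := by
      refine lintegral_congr_ae ?_
      filter_upwards [hae] with s hs
      exact rpow_eq_lintegral hβ hβ1
        (add_nonneg (mul_nonneg hs.1.le h₁) (mul_nonneg hs.2.le h₂))
    rw [h1, lintegral_const_mul' _ _ ENNReal.ofReal_ne_top, lintegral_lintegral_swap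
      (by
        apply Measurable.aemeasurable
        refine ENNReal.measurable_ofReal.comp ?_
        fun_prop)]
    rw [setLIntegral_congr_fun measurableSet_Ioi (fun l hl => hin l hl),
      ← ofReal_integral_eq_lintegral_ofReal ?_ ?_, integral_stable_scale hβ hβα hR0,
      ← ENNReal.ofReal_mul (inv_pos.2 hk).le]
    · congr 1
      ring
    · exact integrableOn_exp hβ hβα (mul_nonneg hc.le hR0)
    · refine (ae_restrict_iff' measurableSet_Ioi).2 (ae_of_all _ fun l hl => ?_)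
      exact mul_nonneg (one_sub_exp_bounds (mul_nonneg hc.le hR0)
        (Real.rpow_nonneg (le_of_lt hl) _)).1 (Real.rpow_nonneg (le_of_lt hl) _)
  have hint : Integrable (fun s : ℝ × ℝ => (s.1 * y₁ + s.2 * y₂) ^ β) (ν.prod ν) := by
    refine ⟨hm.aestronglyMeasurable, ?_⟩
    rw [hasFiniteIntegral_iff_ofReal hnn, hlint]
    exact ENNReal.ofReal_lt_top
  refine ⟨hint, ?_⟩
  rw [integral_eq_lintegral_of_nonneg_ae hnn hm.aestronglyMeasurable, hlint,
    ENNReal.toReal_ofReal (by positivity)]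

end Pool.Agent.S50X
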