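import Pool.Agent.S50X.Decomp2
import Pool.Agent.S50X.Approx
import Pool.Agent.S50X.Stable
import Pool.Agent.S50X.BlockOp

/-!
For `0 < p < q < 2` the complex `n × 2` matrices with the Schatten `q`-norm embed isometrically and
complex-linearly into the Schatten class `S_p(H)` of every infinite-dimensional Hilbert space `H`.
-/

namespace Pool.Agent.Results.MP_0c1246_an.TwoColumns

open Pool.Agent.S50X

/-- The sum of the `p`-th powers of the singular values (approximation numbers) of `T`, to the
power `1 / p`. -/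
noncomputable def schattenNorm {H K : Type*} [NormedAddCommGroup H] [InnerProductSpace ℂ H]
    [NormedAddCommGroup K] [InnerProductSpace ℂ K] (p : ℝ) (T : H →L[ℂ] K) : ℝ :=
  (∑' k : ℕ, approxNum T k ^ p) ^ (1 / p)

/-- `T` belongs to the Schatten class with exponent `p`: the `p`-th powers of its singular values
(approximation numbers) are summable. -/
def InSchatten {H K : Type*} [NormedAddCommGroup H] [InnerProductSpace ℂ H]
    [NormedAddCommGroup K] [InnerProductSpace ℂ K] (p : ℝ) (T : H →L[ℂ] K) : Prop :=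
  Summable fun k : ℕ => approxNum T k ^ p

/-- The Schatten `q`-norm of the matrix `x`: the sum of the `q`-th powers of its singular values,
which are the square roots of the eigenvalues of `x* x`, to the power `1 / q`. -/
noncomputable def matrixNorm {n : ℕ} (q : ℝ) (x : Matrix (Fin n) (Fin 2) ℂ) : ℝ :=
  (∑ j, √((Matrix.isHermitian_conjTranspose_mul_self x).eigenvalues j) ^ q) ^ (1 / q)

/-- The complex `n × 2` matrices with the Schatten `q`-norm embed isometrically and
complex-linearly into the Schatten class `S_p(H)`. -/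
def EmbedsInSchatten (n : ℕ) (p q : ℝ) (H : Type*) [NormedAddCommGroup H]
    [InnerProductSpace ℂ H] : Prop :=
  ∃ T : Matrix (Fin n) (Fin 2) ℂ → (H →L[ℂ] H), IsLinearMap ℂ T ∧
    ∀ x, InSchatten p (T x) ∧ schattenNorm p (T x) = matrixNorm q x

theorem result (p q : ℝ) (hp : 0 < p) (hpq : p < q) (hq : q < 2) (n : ℕ) (hn : 0 < n)
    (H : Type*) [NormedAddCommGroup H] [InnerProductSpace ℂ H] [CompleteSpace H]
    (hH : ¬ FiniteDimensional ℂ H) : EmbedsInSchatten n p q H := by
  have hq0 : 0 < q := hp.trans hpq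
  have : NeZero n := ⟨hn.ne'⟩
  have hA : HasApprox (Fin n × Fin 2) p := fun f hf hinv ε hε => approx_pos hp f hf hinv hε
  have hM : PowMix (q / 2) (p / 2) :=
    exists_pow_mix (by positivity) (by linarith) (by linarith)
  have hG : GaussDeriv (p / 2) := gauss_derivK (by positivity) (by linarith)
  obtain ⟨c, B, hc, hsum⟩ := exists_decomp hn hp hpq hq hA hM hG
  obtain ⟨T, hT⟩ := exists_block hp c hc B _ hsum H hH
  refine ⟨T, ⟨T.map_add, T.map_smul⟩, fun x => ⟨(hT x).summable, ?_⟩⟩
  unfold schattenNorm matrixNorm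
  rw [(hT x).tsum_eq]
  have h2 : ∀ j, √(eig x j) ^ q = eig x j ^ (q / 2) := fun j => by
    rw [Real.sqrt_eq_rpow, ← Real.rpow_mul (eigenvalues_nonneg' x j)]
    congr 1
    ring
  have h3 : 0 ≤ ∑ j, eig x j ^ (q / 2) :=
    Finset.sum_nonneg fun j _ => Real.rpow_nonneg (eigenvalues_nonneg' x j) _
  simp only [h2]
  rw [← Real.rpow_mul h3]
  congr 1
  field_simp

end Pool.Agent.Results.MP_0c1246_an.TwoColumns
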